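import Mathlib

/-!
# DML-ALGIND: algebraically independent `p`-adic integers close to given ones

Proof. Induction on the finite type `κ` (e.g. prove it for `κ = Fin n` by induction on `n`, then transport along
`Finite.equivFin`; or `Finite.induction_empty_option` with `AlgebraicIndependent.option_iff` / `Fin.cons`, `Fin.snoc` versions).
Step: given algebraically independent `τ_1..τ_n`, the set of elements of `ℚ_[p]` algebraic over
`Algebra.adjoin ℚ (range τ)` is countable (`Algebraic.countable`, the adjoin algebra is countable: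
it is the range of `MvPolynomial.aeval` on a countable type), while the set `{x : ‖x - r‖ < 1}` of `p`-adic integers is
uncountable (`ℤ_[p]` is a complete perfect metric space; or the map `(ℕ → Fin 2) → ℤ_[p]`, `a ↦ r + ∑ a_i p^(i+1)` is injective;
or Haar measure / Baire: `ℚ_[p]` is a complete nontrivially normed field so balls are uncountable, see
`continuum_le_cardinal_of_nontriviallyNormedField`, `continuum_le_cardinal_of_mem_nhds`,
`IsOpen.uncountable`-type lemmas in `Mathlib/Topology/Algebra/Module/Cardinality.lean`), so some element of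
the ball is transcendental over the adjoin algebra.
-/

set_option autoImplicit false

namespace Pool.Agent.Helper59.DML

private theorem step {p : ℕ} [Fact p.Prime] {κ : Type} [Finite κ] (x : κ → ℚ_[p]) (r : ℤ_[p]) :
    ∃ a : ℤ_[p], Transcendental (Algebra.adjoin ℚ (Set.range x)) ((a : ℤ_[p]) : ℚ_[p]) ∧
      ‖a - r‖ < 1 := by
  have hm : Countable (MvPolynomial κ ℚ) := by
    rw [← Cardinal.mk_le_aleph0_iff]
    refine MvPolynomial.cardinalMk_le_max.trans ?_
    simp
  have hc : Countable (Algebra.adjoin ℚ (Set.range x)) := by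
    rw [Algebra.adjoin_range_eq_range_aeval]
    exact (AlgHom.rangeRestrict_surjective (MvPolynomial.aeval x : MvPolynomial κ ℚ →ₐ[ℚ] ℚ_[p])).countable
  have h1 : Set.Countable {y : ℚ_[p] | IsAlgebraic (Algebra.adjoin ℚ (Set.range x)) y} :=
    Algebraic.countable _ _
  have h2 : Dense {y : ℚ_[p] | IsAlgebraic (Algebra.adjoin ℚ (Set.range x)) y}ᶜ :=
    Set.Countable.dense_compl ℚ_[p] h1
  obtain ⟨y, hy1, hy2⟩ := h2.exists_mem_open (Metric.isOpen_ball (x := (r : ℚ_[p])) (ε := 1))
    ⟨(r : ℚ_[p]), Metric.mem_ball_self one_pos⟩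
  rw [Metric.mem_ball, dist_eq_norm] at hy2
  have hy3 : ‖y‖ ≤ 1 := by
    have e : y = (y - r) + r := by ring
    rw [e]
    exact (Padic.nonarchimedean _ _).trans (max_le hy2.le r.2)
  refine ⟨⟨y, hy3⟩, hy1, ?_⟩
  rw [PadicInt.norm_def]
  exact hy2

theorem exists_algInd {p : ℕ} [Fact p.Prime] {κ : Type} [Finite κ] (r : κ → ℤ_[p]) :
    ∃ τ : κ → ℤ_[p], AlgebraicIndependent ℚ (fun j => ((τ j : ℤ_[p]) : ℚ_[p])) ∧
      ∀ j, ‖τ j - r j‖ < 1 := by
  induction κ using Finite.induction_empty_option with
  | @of_equiv α β e ih =>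
    obtain ⟨τ, h1, h2⟩ := ih (fun a => r (e a))
    refine ⟨fun b => τ (e.symm b), ?_, fun b => ?_⟩
    · exact h1.comp e.symm e.symm.injective
    · have := h2 (e.symm b)
      rwa [e.apply_symm_apply] at this
  | h_empty =>
    refine ⟨fun j => j.elim, ?_, fun j => j.elim⟩
    rw [algebraicIndependent_empty_type_iff]
    exact (algebraMap ℚ ℚ_[p]).injective
  | @h_option α _ ih =>
    obtain ⟨τ, h1, h2⟩ := ih (fun a => r (some a))
    obtain ⟨a, ha1, ha2⟩ := step (fun j => ((τ j : ℤ_[p]) : ℚ_[p])) (r none)
    refine ⟨fun o => o.elim a τ, ?_, ?_⟩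
    · have h3 := (h1.option_iff_transcendental _).2 ha1
      convert h3 using 1
      funext o
      cases o <;> rfl
    · rintro (_ | j)
      · exact ha2
      · exact h2 j

end Pool.Agent.Helper59.DML
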