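import Mathlib

/-!
# DML core, part 2: eventually periodic sets and zeros of rapidly interpolable sequences
-/

set_option autoImplicit false
set_option linter.unusedSectionVars false

namespace Pool.Agent.Helper59.DML

open Finset Function Filter Topology

/-- eventually periodic set of natural numbers -/
def EP (S : ℕ → Prop) : Prop := ∃ n₀ P, 0 < P ∧ ∀ n, n₀ ≤ n → (S n ↔ S (n + P))

theorem ep_mul {S : ℕ → Prop} {n₀ P : ℕ} (h : ∀ n, n₀ ≤ n → (S n ↔ S (n + P))) (m : ℕ) :
    ∀ n, n₀ ≤ n → (S n ↔ S (n + m * P)) := by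
  induction m with
  | zero => intro n _; simp
  | succ m ih =>
    intro n hn
    rw [ih n hn, h (n + m * P) (by omega)]
    have : n + m * P + P = n + (m + 1) * P := by ring
    rw [this]

theorem EP.congr {S T : ℕ → Prop} (h : EP S) (e : ∀ n, S n ↔ T n) : EP T := by
  obtain ⟨n₀, P, hP, h⟩ := h
  exact ⟨n₀, P, hP, fun n hn => by rw [← e, ← e]; exact h n hn⟩

theorem EP.of_shift {S : ℕ → Prop} (a : ℕ) (h : EP (fun n => S (n + a))) : EP S := by
  obtain ⟨n₀, P, hP, h⟩ := h
  refine ⟨n₀ + a, P, hP, fun n hn => ?_⟩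
  have := h (n - a) (by omega)
  have e1 : n - a + a = n := by omega
  have e2 : n - a + P + a = n + P := by omega
  simp only [e1, e2] at this
  exact this

/-- finitely many eventually periodic sets have a common period. -/
theorem ep_common {ι : Type*} (s : Finset ι) {S : ι → ℕ → Prop} (h : ∀ i ∈ s, EP (S i)) :
    ∃ n₀ P, 0 < P ∧ ∀ i ∈ s, ∀ n, n₀ ≤ n → (S i n ↔ S i (n + P)) := by
  classical
  induction s using Finset.induction_on with
  | empty => exact ⟨0, 1, one_pos, by simp⟩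
  | insert a s ha ih =>
    obtain ⟨n₁, P₁, hP₁, h₁⟩ := ih (fun i hi => h i (by simp [hi]))
    obtain ⟨n₂, P₂, hP₂, h₂⟩ := h a (by simp)
    refine ⟨max n₁ n₂, P₁ * P₂, Nat.mul_pos hP₁ hP₂, fun i hi n hn => ?_⟩
    rcases Finset.mem_insert.1 hi with rfl | hi
    · exact ep_mul h₂ P₁ n ((le_max_right _ _).trans hn)
    · rw [mul_comm]
      exact ep_mul (h₁ i hi) P₂ n ((le_max_left _ _).trans hn)

theorem EP.forall_mem {ι : Type*} (s : Finset ι) {S : ι → ℕ → Prop} (h : ∀ i ∈ s, EP (S i)) :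
    EP (fun n => ∀ i ∈ s, S i n) := by
  obtain ⟨n₀, P, hP, h⟩ := ep_common s h
  refine ⟨n₀, P, hP, fun n hn => ?_⟩
  constructor
  · intro H i hi; exact (h i hi n hn).1 (H i hi)
  · intro H i hi; exact (h i hi n hn).2 (H i hi)

theorem EP.of_classes {S : ℕ → Prop} {l : ℕ} (hl : 0 < l)
    (h : ∀ j < l, EP (fun k => S (l * k + j))) : EP S := by
  obtain ⟨n₀, P, hP, h⟩ := ep_common (Finset.range l) (fun j hj => h j (Finset.mem_range.1 hj))
  refine ⟨l * n₀, l * P, Nat.mul_pos hl hP, fun n hn => ?_⟩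
  have e1 : n = l * (n / l) + n % l := (Nat.div_add_mod n l).symm
  have hk : n₀ ≤ n / l := by
    rw [Nat.le_div_iff_mul_le hl]; linarith [mul_comm l n₀]
  have := h (n % l) (Finset.mem_range.2 (Nat.mod_lt n hl)) (n / l) hk
  have e2 : n + l * P = l * (n / l + P) + n % l := by
    rw [mul_add]; omega
  rw [e2]
  rw [← e1] at this
  exact this

section

variable {K : Type*} [NontriviallyNormedField K] [IsUltrametricDist K] [CharZero K]

theorem norm_natCast_le (n : ℕ) : ‖(n : K)‖ ≤ 1 := by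
  induction n with
  | zero => simp
  | succ n ih =>
    push_cast
    exact (IsUltrametricDist.norm_add_le_max _ _).trans (max_le ih (by simp))

theorem norm_intCast_le (n : ℤ) : ‖(n : K)‖ ≤ 1 := by
  obtain ⟨m, rfl | rfl⟩ := n.eq_nat_or_neg
  · simpa using norm_natCast_le (K := K) m
  · simpa using norm_natCast_le (K := K) m

theorem norm_coprime {p m : ℕ} (hp1 : ‖(p : K)‖ < 1) (h : Nat.Coprime m p) : ‖(m : K)‖ = 1 := by
  refine le_antisymm (norm_natCast_le m) ?_
  by_contra hlt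
  push Not at hlt
  have h1 : IsCoprime (m : ℤ) (p : ℤ) := Nat.isCoprime_iff_coprime.2 h
  obtain ⟨a, b, hab⟩ := h1
  have h2 : (a : K) * (m : K) + (b : K) * (p : K) = 1 := by exact_mod_cast congrArg (Int.cast (R := K)) hab
  have h3 : ‖(1 : K)‖ < 1 := by
    rw [← h2]
    refine (IsUltrametricDist.norm_add_le_max _ _).trans_lt (max_lt ?_ ?_)
    · rw [norm_mul]
      calc _ ≤ 1 * ‖(m : K)‖ := mul_le_mul_of_nonneg_right (norm_intCast_le a) (norm_nonneg _)
        _ < 1 := by rw [one_mul]; exact hlt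
    · rw [norm_mul]
      calc _ ≤ 1 * ‖(p : K)‖ := mul_le_mul_of_nonneg_right (norm_intCast_le b) (norm_nonneg _)
        _ < 1 := by rw [one_mul]; exact hp1
  simp at h3

theorem norm_factorial {p : ℕ} (hp : p.Prime) (hp1 : ‖(p : K)‖ < 1) (k : ℕ) :
    ‖(p : K)‖ ^ k ≤ ‖((k.factorial : ℕ) : K)‖ := by
  have := Fact.mk hp
  have hk : k.factorial ≠ 0 := Nat.factorial_ne_zero k
  have h1 := Nat.ordProj_mul_ordCompl_eq_self k.factorial p
  have h2 : Nat.Coprime (k.factorial / p ^ (k.factorial.factorization p)) p :=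
    (Nat.coprime_ordCompl hp hk).symm
  have h3 : ‖((k.factorial : ℕ) : K)‖ = ‖(p : K)‖ ^ (k.factorial.factorization p) := by
    conv_lhs => rw [← h1]
    push_cast
    rw [norm_mul, norm_pow]
    have h4 := norm_coprime hp1 h2
    rw [h4, mul_one]
  rw [h3]
  refine pow_le_pow_of_le_one (norm_nonneg _) hp1.le ?_
  have h5 := sub_one_mul_padicValNat_factorial (p := p) k
  rw [Nat.factorization_def _ hp]
  have h6 : 1 ≤ p - 1 := by have := hp.two_le; omega
  calc padicValNat p k.factorial ≤ (p - 1) * padicValNat p k.factorial :=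
        Nat.le_mul_of_pos_left _ h6
    _ = k - (p.digits k).sum := h5
    _ ≤ k := Nat.sub_le _ _

/-- A sequence whose iterated differences decay like `p^{2k}` is interpolated by a power series
with coefficients decaying geometrically. -/
theorem interp [CompleteSpace K] {p : ℕ} (hp : p.Prime) (hp1 : ‖(p : K)‖ < 1) {y : ℕ → K}
    (hy : ∀ k, ‖((fwdDiff (1 : ℕ))^[k] y) 0‖ ≤ ‖(p : K)‖ ^ (2 * k)) :
    ∃ (c : ℕ → K) (ρ C : ℝ), 0 < ρ ∧ ρ < 1 ∧ (∀ j, ‖c j‖ ≤ C * ρ ^ j) ∧
      ∀ n : ℕ, y n = ∑' j, c j * (n : K) ^ j := by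
  have hpK : (p : K) ≠ 0 := Nat.cast_ne_zero.2 hp.ne_zero
  have hp0 : 0 < ‖(p : K)‖ := norm_pos_iff.2 hpK
  set ρ : ℝ := Real.sqrt ‖(p : K)‖ with hρ
  have hρ0 : 0 < ρ := Real.sqrt_pos.2 hp0
  have hρ1 : ρ < 1 := by
    rw [hρ, Real.sqrt_lt' one_pos]; simpa using hp1
  have hρ2 : ρ ^ 2 = ‖(p : K)‖ := Real.sq_sqrt hp0.le
  set a : ℕ → K := fun k => ((fwdDiff (1 : ℕ))^[k] y) 0 with ha
  set b : ℕ → K := fun k => a k / (k.factorial : ℕ) with hb
  have hbn : ∀ k, ‖b k‖ ≤ ‖(p : K)‖ ^ k := by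
    intro k
    have h1 := norm_factorial (K := K) hp hp1 k
    have h2 : 0 < ‖((k.factorial : ℕ) : K)‖ := lt_of_lt_of_le (pow_pos hp0 k) h1
    rw [hb]
    simp only
    rw [norm_div, div_le_iff₀ h2]
    calc ‖a k‖ ≤ ‖(p : K)‖ ^ (2 * k) := hy k
      _ = ‖(p : K)‖ ^ k * ‖(p : K)‖ ^ k := by rw [two_mul, pow_add]
      _ ≤ ‖(p : K)‖ ^ k * ‖((k.factorial : ℕ) : K)‖ :=
        mul_le_mul_of_nonneg_left h1 (pow_nonneg hp0.le k)
  set e : ℕ → ℕ → K := fun k j => (((descPochhammer ℤ k).coeff j : ℤ) : K) with he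
  have hen : ∀ k j, ‖e k j‖ ≤ 1 := fun k j => norm_intCast_le _
  have he0 : ∀ k j, k < j → e k j = 0 := by
    intro k j hkj
    rw [he]
    simp only
    rw [Polynomial.coeff_eq_zero_of_natDegree_lt (by rw [descPochhammer_natDegree]; exact hkj)]
    simp
  have hbound : ∀ k j, ‖b k * e k j‖ ≤ ρ ^ k * ρ ^ j := by
    intro k j
    by_cases hkj : k < j
    · rw [he0 k j hkj]; simp; positivity
    · push Not at hkj
      rw [norm_mul]
      calc ‖b k‖ * ‖e k j‖ ≤ ‖(p : K)‖ ^ k * 1 :=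
            mul_le_mul (hbn k) (hen k j) (norm_nonneg _) (pow_nonneg hp0.le k)
        _ = ρ ^ k * ρ ^ k := by rw [mul_one, ← hρ2]; ring
        _ ≤ ρ ^ k * ρ ^ j := mul_le_mul_of_nonneg_left
            (pow_le_pow_of_le_one hρ0.le hρ1.le hkj) (pow_nonneg hρ0.le k)
  have hgeo : Summable fun k : ℕ => ρ ^ k := summable_geometric_of_lt_one hρ0.le hρ1
  have hgeo2 : Summable fun x : ℕ × ℕ => ρ ^ x.1 * ρ ^ x.2 :=
    hgeo.mul_of_nonneg hgeo (fun k => pow_nonneg hρ0.le k) (fun k => pow_nonneg hρ0.le k)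
  refine ⟨fun j => ∑' k, b k * e k j, ρ, ∑' k, ρ ^ k, hρ0, hρ1, ?_, ?_⟩
  · intro j
    have h1 : Summable fun k => ρ ^ k * ρ ^ j := hgeo.mul_right _
    calc ‖∑' k, b k * e k j‖ ≤ ∑' k, ρ ^ k * ρ ^ j :=
          tsum_of_norm_bounded h1.hasSum (fun k => hbound k j)
      _ = (∑' k, ρ ^ k) * ρ ^ j := tsum_mul_right
  · intro n
    have hF : Summable fun x : ℕ × ℕ => b x.1 * e x.1 x.2 * (n : K) ^ x.2 := by
      refine Summable.of_norm_bounded hgeo2 fun x => ?_
      rw [norm_mul, norm_pow]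
      calc _ ≤ ‖b x.1 * e x.1 x.2‖ * 1 := mul_le_mul_of_nonneg_left
            (pow_le_one₀ (norm_nonneg _) (norm_natCast_le n)) (norm_nonneg _)
        _ ≤ ρ ^ x.1 * ρ ^ x.2 := by rw [mul_one]; exact hbound _ _
    have h1 : ∑' j, (∑' k, b k * e k j) * (n : K) ^ j = ∑' j, ∑' k, b k * e k j * (n : K) ^ j := by
      congr 1; funext j; exact tsum_mul_right.symm
    rw [h1]
    have hF' : Summable (Function.uncurry fun k j => b k * e k j * (n : K) ^ j) := hF
    rw [hF'.tsum_comm]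
    have h2 : ∀ k, ∑' j, b k * e k j * (n : K) ^ j = (n.choose k : K) * a k := by
      intro k
      rw [tsum_eq_sum (s := Finset.range (k + 1))]
      · have h3 : ((descPochhammer ℤ k).map (Int.castRingHom K)).eval (n : K) =
            ((n.descFactorial k : ℕ) : K) := by
          rw [descPochhammer_map, descPochhammer_eval_eq_descFactorial]
        rw [Polynomial.eval_eq_sum_range' (n := k + 1)] at h3
        · simp only [Polynomial.coeff_map, eq_intCast] at h3
          calc ∑ j ∈ Finset.range (k + 1), b k * e k j * (n : K) ^ j =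
              b k * ∑ j ∈ Finset.range (k + 1), e k j * (n : K) ^ j := by
                rw [Finset.mul_sum]; exact Finset.sum_congr rfl fun j _ => by ring
            _ = b k * ((n.descFactorial k : ℕ) : K) := by rw [← h3]
            _ = (n.choose k : K) * a k := by
                rw [Nat.descFactorial_eq_factorial_mul_choose, hb]
                have : ((k.factorial : ℕ) : K) ≠ 0 := Nat.cast_ne_zero.2 (Nat.factorial_ne_zero k)
                push_cast
                field_simp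
        · rw [descPochhammer_map]
          refine lt_of_le_of_lt ?_ (Nat.lt_succ_self k)
          rw [descPochhammer_natDegree]
      · intro j hj
        rw [he0 k j (by simpa using hj)]; simp
    simp only [h2]
    rw [tsum_eq_sum (s := Finset.range (n + 1))]
    · have h4 := shift_eq_sum_fwdDiff_iter (1 : ℕ) y n 0
      simp only [zero_add, smul_eq_mul, mul_one] at h4
      rw [h4]
      exact Finset.sum_congr rfl fun k _ => by simp [ha]
    · intro k hk
      rw [Nat.choose_eq_zero_of_lt (by simpa using hk)]; simp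

/-- the zero set of such a sequence is eventually periodic. -/
theorem zeros_EP [ProperSpace K] {p : ℕ} (hp : p.Prime) (hp1 : ‖(p : K)‖ < 1) {y : ℕ → K}
    (hy : ∀ k, ‖((fwdDiff (1 : ℕ))^[k] y) 0‖ ≤ ‖(p : K)‖ ^ (2 * k)) : EP (fun n => y n = 0) := by
  obtain ⟨c, ρ, C, hρ0, hρ1, hc, hyc⟩ := interp hp hp1 hy
  set P : FormalMultilinearSeries K K K := FormalMultilinearSeries.ofScalars K c with hP
  set f : K → K := P.sum with hf
  have hfn : ∀ n : ℕ, y n = f n := by
    intro n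
    have h1 : f n = FormalMultilinearSeries.ofScalarsSum (E := K) c (n : K) := rfl
    rw [hyc n, h1, FormalMultilinearSeries.ofScalars_sum_eq]
    simp [smul_eq_mul]
  have hrad : (1 : ENNReal) < P.radius := by
    have h1 : ((ρ⁻¹).toNNReal : ENNReal) ≤ P.radius := by
      refine P.le_radius_of_bound C fun n => ?_
      rw [hP, FormalMultilinearSeries.ofScalars_norm]
      have h2 : ((ρ⁻¹).toNNReal : ℝ) = ρ⁻¹ := Real.coe_toNNReal _ (by positivity)
      rw [h2]
      calc ‖c n‖ * ρ⁻¹ ^ n ≤ C * ρ ^ n * ρ⁻¹ ^ n :=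
            mul_le_mul_of_nonneg_right (hc n) (by positivity)
        _ = C := by rw [mul_assoc, ← mul_pow, mul_inv_cancel₀ hρ0.ne', one_pow, mul_one]
    refine lt_of_lt_of_le ?_ h1
    rw [← ENNReal.coe_one, ENNReal.coe_lt_coe]
    rw [← NNReal.coe_lt_coe]
    rw [Real.coe_toNNReal _ (by positivity)]
    simpa using (one_lt_inv₀ hρ0).2 hρ1
  have hball : HasFPowerSeriesOnBall f P 0 P.radius :=
    P.hasFPowerSeriesOnBall (lt_trans (by simp) hrad)
  have hana : ∀ z ∈ Metric.closedBall (0 : K) 1, AnalyticAt K f z := by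
    intro z hz
    refine hball.analyticAt_of_mem ?_
    rw [Metric.mem_eball, edist_zero_right]
    refine lt_of_le_of_lt ?_ hrad
    rw [mem_closedBall_zero_iff] at hz
    rw [enorm_eq_nnnorm, ← ENNReal.coe_one, ENNReal.coe_le_coe]
    exact_mod_cast hz
  have hloc : ∀ z ∈ Metric.closedBall (0 : K) 1, ∃ δ > 0, (∀ s ∈ Metric.ball z δ, f s = 0) ∨
      (∀ s ∈ Metric.ball z δ, s ≠ z → f s ≠ 0) := by
    intro z hz
    rcases (hana z hz).eventually_eq_zero_or_eventually_ne_zero with h | h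
    · obtain ⟨δ, hδ, h⟩ := Metric.eventually_nhds_iff_ball.1 h
      exact ⟨δ, hδ, Or.inl h⟩
    · rw [eventually_nhdsWithin_iff] at h
      obtain ⟨δ, hδ, h⟩ := Metric.eventually_nhds_iff_ball.1 h
      exact ⟨δ, hδ, Or.inr fun s hs hne => h s hs hne⟩
  choose! δ hδ hloc using hloc
  have hcomp : IsCompact (Metric.closedBall (0 : K) 1) := isCompact_closedBall _ _
  obtain ⟨t, ht, htc⟩ := hcomp.elim_nhds_subcover (fun z => Metric.ball z (δ z))
    (fun z hz => Metric.ball_mem_nhds z (hδ z hz))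
  obtain ⟨η, hη, hleb⟩ := lebesgue_number_lemma_of_metric (c := fun z : t => Metric.ball (z : K) (δ z))
    hcomp (fun z => Metric.isOpen_ball) (by
      intro x hx
      obtain ⟨z, hz, hxz⟩ := Set.mem_iUnion₂.1 (htc hx)
      exact Set.mem_iUnion.2 ⟨⟨z, hz⟩, hxz⟩)
  obtain ⟨m, hm⟩ := exists_pow_lt_of_lt_one hη hp1
  have hfin : (((↑) : ℕ → K) ⁻¹' (t : Set K)).Finite :=
    t.finite_toSet.preimage (Nat.cast_injective.injOn)
  obtain ⟨n₀, hn₀⟩ := hfin.bddAbove
  refine ⟨n₀ + 1, p ^ m, pow_pos hp.pos m, fun n hn => ?_⟩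
  obtain ⟨⟨z, hz⟩, hsub⟩ := hleb (n : K) (by rw [mem_closedBall_zero_iff]; exact norm_natCast_le n)
  have m1 : (n : K) ∈ Metric.ball z (δ z) := hsub (Metric.mem_ball_self hη)
  have m2 : ((n + p ^ m : ℕ) : K) ∈ Metric.ball z (δ z) := by
    refine hsub ?_
    rw [Metric.mem_ball, dist_eq_norm]
    push_cast
    rw [add_sub_cancel_left, norm_pow]
    exact hm
  have hnot : ∀ k : ℕ, n₀ + 1 ≤ k → (k : K) ≠ z := by
    intro k hk h
    have : k ≤ n₀ := hn₀ (by rw [Set.mem_preimage, h]; exact hz)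
    omega
  show y n = 0 ↔ y (n + p ^ m) = 0
  rw [hfn, hfn]
  rcases hloc z (ht z hz) with h | h
  · simp only [h _ m1, h _ m2]
  · have e1 := h _ m1 (hnot n hn)
    have e2 := h _ m2 (hnot (n + p ^ m) (by omega))
    simp only [e1, e2]

end

end Pool.Agent.Helper59.DML
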