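import Pool.Agent.Helper59.DML.Good
import Pool.Agent.Helper59.DML.LemmaZ

/-!
# DML core, part 3: values of good functions along the iteration of a map affine modulo `p`
-/

set_option autoImplicit false
set_option linter.unusedSectionVars false

namespace Pool.Agent.Helper59.DML

open Finset Function Filter Topology

/-- pigeonhole principle in a compact ball. -/
theorem pigeon {X : Type*} [PseudoMetricSpace X] [ProperSpace X] {x : ℕ → X} {c : X} {r : ℝ}
    (hx : ∀ n, x n ∈ Metric.closedBall c r) {ε : ℝ} (hε : 0 < ε) (n₀ : ℕ) :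
    ∃ n m, n₀ ≤ n ∧ n < m ∧ dist (x n) (x m) < ε := by
  obtain ⟨a, -, φ, hφ, hlim⟩ := (isCompact_closedBall c r).tendsto_subseq hx
  obtain ⟨N, hN⟩ := Metric.cauchySeq_iff.1 hlim.cauchySeq ε hε
  refine ⟨φ (max N n₀), φ (max N n₀ + 1), (le_max_right N n₀).trans (hφ.id_le _),
    hφ (Nat.lt_succ_self _), hN _ (le_max_left _ _) _ ((le_max_left _ _).trans (Nat.le_succ _))⟩

variable {K : Type*} [NontriviallyNormedField K] [IsUltrametricDist K] {ι : Type*}

/-- iteration of a map which is affine modulo `x`. -/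
theorem affine_iter {g : (ι → K) → (ι → K)} (hgm : GMap g) {x : K} (hx : ‖x‖ ≤ 1) {a b : ι → K}
    (ha : ∀ i, ‖a i‖ ≤ 1) (hb : ∀ i, ‖b i‖ = 1) (hg : Cong x g (fun t i => a i + b i * t i)) (n : ℕ) :
    ∃ A B : ι → K, (∀ i, ‖A i‖ ≤ 1) ∧ (∀ i, ‖B i‖ = 1) ∧
      Cong x (g^[n]) (fun t i => A i + B i * t i) := by
  induction n with
  | zero =>
    refine ⟨fun _ => 0, fun _ => 1, by simp, by simp, fun _ _ => 0, fun i => Good.const 0 (by simp),
      fun t _ i => by simp⟩
  | succ n ih =>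
    obtain ⟨A, B, hA, hB, S, hS, hS2⟩ := ih
    obtain ⟨r, hr, he⟩ := hg
    refine ⟨fun i => a i + b i * A i, fun i => b i * B i, fun i => norm_add_le_one (ha i)
      (norm_mul_le_one (hb i).le (hA i)), fun i => by rw [norm_mul, hb, hB, one_mul],
      fun t i => b i * S t i + r (g^[n] t) i, fun i => ((hS i).smul (hb i).le).add
        ((hr i).comp (hgm.iter n)), fun t ht i => ?_⟩
    rw [iterate_succ_apply', he _ (hgm.iter_mem ht n) i]
    have e := hS2 t ht i
    simp only at e ⊢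
    rw [e]
    ring

/-- some iterate of a map which is affine modulo `x` is the identity modulo `x`. -/
theorem exists_iter_cong [ProperSpace K] [Fintype ι] {g : (ι → K) → (ι → K)} (hgm : GMap g) {x : K}
    (hx : ‖x‖ ≤ 1) (hx0 : x ≠ 0) {a b : ι → K}
    (ha : ∀ i, ‖a i‖ ≤ 1) (hb : ∀ i, ‖b i‖ = 1) (hg : Cong x g (fun t i => a i + b i * t i)) :
    ∃ k, 0 < k ∧ Cong x (g^[k]) (fun t => t) := by
  choose A B hA hB hc using affine_iter hgm hx ha hb hg
  obtain ⟨n, m, -, hnm, hd⟩ := pigeon (x := fun n => fun i => (A n i, B n i)) (c := (0 : ι → K × K))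
    (r := 1) (fun n => by
      rw [mem_closedBall_zero_iff, pi_norm_le_iff_of_nonneg zero_le_one]
      intro i
      exact max_le (hA n i) (hB n i).le) (norm_pos_iff.2 hx0) 0
  have hd1 : ∀ i, ‖A n i - A m i‖ < ‖x‖ ∧ ‖B n i - B m i‖ < ‖x‖ := by
    intro i
    have h1 := lt_of_le_of_lt (dist_le_pi_dist _ _ i) hd
    rw [Prod.dist_eq, max_lt_iff, dist_eq_norm, dist_eq_norm] at h1
    exact h1
  refine ⟨m - n, by omega, ?_⟩
  obtain ⟨S, hS, hS2⟩ := hc (m - n)
  obtain ⟨U, hU, hU2⟩ := hc n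
  obtain ⟨V, hV, hV2⟩ := hc m
  -- compare coefficients by evaluating at `0` and `1`
  set A' := A (m - n) with hA'
  set B' := B (m - n) with hB'
  have hcomp : ∀ t ∈ Dsc K ι, ∀ i, A m i + B m i * t i + x * V t i =
      A n i + B n i * (A' i + B' i * t i + x * S t i) + x * U (g^[m - n] t) i := by
    intro t ht i
    rw [← hV2 t ht i]
    have e1 : g^[m] t = g^[n] (g^[m - n] t) := by
      rw [← iterate_add_apply]; congr 2; omega
    have e2 := hS2 t ht i
    simp only at e2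
    rw [e1, hU2 _ (hgm.iter_mem ht _) i, ← e2]
  have hdiv : ∀ z : K, ‖z‖ ≤ ‖x‖ → ∃ w : K, ‖w‖ ≤ 1 ∧ z = x * w := by
    intro z hz
    refine ⟨z / x, ?_, by field_simp⟩
    rw [norm_div]
    exact div_le_one_of_le₀ hz (norm_nonneg _)
  have h0 : (fun _ => 0 : ι → K) ∈ Dsc K ι := fun i => by simp
  have h1 : (fun _ => 1 : ι → K) ∈ Dsc K ι := fun i => by simp
  have hle : ∀ {u v : K}, ‖u‖ ≤ ‖x‖ → ‖v‖ ≤ ‖x‖ → ‖u + v‖ ≤ ‖x‖ := fun hu hv =>
    (IsUltrametricDist.norm_add_le_max _ _).trans (max_le hu hv)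
  have hxm : ∀ {v : K}, ‖v‖ ≤ 1 → ‖x * v‖ ≤ ‖x‖ := fun {v} hv => by
    rw [norm_mul]; exact mul_le_of_le_one_right (norm_nonneg _) hv
  have hA1 : ∀ i, ‖A' i‖ ≤ ‖x‖ := by
    intro i
    have e := hcomp _ h0 i
    simp only [mul_zero, add_zero] at e
    have e2 : B n i * A' i = -(A n i - A m i) + (x * (V (fun _ => 0) i - B n i * S (fun _ => 0) i -
        U (g^[m - n] (fun _ => 0)) i)) := by linear_combination -e
    have e3 : ‖B n i * A' i‖ = ‖A' i‖ := by rw [norm_mul, hB, one_mul]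
    rw [← e3, e2]
    refine hle (by rw [norm_neg]; exact (hd1 i).1.le) (hxm ?_)
    have n1 := (hV i).norm_le _ h0
    have n2 := norm_mul_le_one (hB n i).le ((hS i).norm_le _ h0)
    have n3 := (hU i).norm_le _ (hgm.iter_mem h0 (m - n))
    rw [sub_eq_add_neg, sub_eq_add_neg]
    exact norm_add_le_one (norm_add_le_one n1 (by rwa [norm_neg])) (by rwa [norm_neg])
  have hB1 : ∀ i, ‖B' i - 1‖ ≤ ‖x‖ := by
    intro i
    have e := hcomp _ h1 i
    simp only [mul_one] at e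
    have e2 : B n i * (B' i - 1) = -(A n i - A m i) + (-(B n i - B m i)) + (-(B n i * A' i)) +
        (x * (V (fun _ => 1) i - B n i * S (fun _ => 1) i -
        U (g^[m - n] (fun _ => 1)) i)) := by linear_combination -e
    have e3 : ‖B n i * (B' i - 1)‖ = ‖B' i - 1‖ := by rw [norm_mul, hB, one_mul]
    rw [← e3, e2]
    refine hle (hle (hle (by rw [norm_neg]; exact (hd1 i).1.le) (by rw [norm_neg]; exact (hd1 i).2.le))
      (by rw [norm_neg, norm_mul, hB, one_mul]; exact hA1 i)) (hxm ?_)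
    have n1 := (hV i).norm_le _ h1
    have n2 := norm_mul_le_one (hB n i).le ((hS i).norm_le _ h1)
    have n3 := (hU i).norm_le _ (hgm.iter_mem h1 (m - n))
    rw [sub_eq_add_neg, sub_eq_add_neg]
    exact norm_add_le_one (norm_add_le_one n1 (by rwa [norm_neg])) (by rwa [norm_neg])
  choose α hα hα2 using fun i => hdiv _ (hA1 i)
  choose β hβ hβ2 using fun i => hdiv _ (hB1 i)
  refine ⟨fun t i => α i + β i * t i + S t i, fun i => ((Good.const _ (hα i)).add
    ((Good.proj i).smul (hβ i))).add (hS i), fun t ht i => ?_⟩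
  have e1 := hα2 i
  have e2 := hβ2 i
  rw [hS2 t ht i]
  linear_combination e1 + t i * e2

/-- zeros of good functions along the iteration of a map affine modulo `p`. -/
theorem good_zeros_EP [ProperSpace K] [CharZero K] [Fintype ι] {p : ℕ} (hp : p.Prime)
    (hp1 : ‖(p : K)‖ < 1) {g : (ι → K) → (ι → K)} (hgm : GMap g) {a b : ι → K}
    (ha : ∀ i, ‖a i‖ ≤ 1) (hb : ∀ i, ‖b i‖ = 1)
    (hg : Cong (p : K) g (fun t i => a i + b i * t i)) {R : (ι → K) → K} (hR : Good R)
    {t₀ : ι → K} (ht₀ : t₀ ∈ Dsc K ι) : EP (fun k => R (g^[k] t₀) = 0) := by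
  have hpK : (p : K) ≠ 0 := Nat.cast_ne_zero.2 hp.ne_zero
  obtain ⟨k₀, hk₀, hc⟩ := exists_iter_cong hgm hp1.le hpK ha hb hg
  have hc2 := cong_iter_p hp.one_lt.le (hgm.iter k₀) hc
  refine EP.of_classes (l := k₀ * p) (Nat.mul_pos hk₀ hp.pos) fun j _ => ?_
  set h := (g^[k₀])^[p] with hh
  have hh2 : h = g^[k₀ * p] := by rw [hh, iterate_mul]
  have hgh : GMap h := (hgm.iter k₀).iter p
  have hx2 : ‖(p : K) ^ 2‖ ≤ 1 := by
    rw [norm_pow]; exact pow_le_one₀ (norm_nonneg _) hp1.le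
  obtain ⟨S, h0, hS, he⟩ := fwdDiff_seq hgh hx2 hc2 hR
  have ht1 : g^[j] t₀ ∈ Dsc K ι := hgm.iter_mem ht₀ j
  have h1 := zeros_EP hp hp1 (y := fun n => R (h^[n] (g^[j] t₀))) (fun k => by
    rw [he k _ ht1 0]
    rw [norm_mul, norm_pow, norm_pow, ← pow_mul]
    exact mul_le_of_le_one_right (by positivity) ((hS k).norm_le _ (hgh.iter_mem ht1 0)))
  refine h1.congr fun n => ?_
  have e : g^[k₀ * p * n + j] t₀ = h^[n] (g^[j] t₀) := by
    rw [hh2, ← iterate_mul, ← iterate_add_apply]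
  rw [e]

end Pool.Agent.Helper59.DML
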