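import Pool.Agent.Helper59.DML.Forms
import Pool.Agent.Helper59.DML.Iter

/-!
# DML core, part 4: charts and the main theorem over an ultrametric local field
-/

set_option autoImplicit false
set_option linter.unusedSectionVars false

namespace Pool.Agent.Helper59.DML

open Finset Function Filter Topology

section
variable {K : Type*} [NormedField K] [IsUltrametricDist K] {ι : Type*}

/-- second order expansion in the variable `t i`. -/
def Exp (p : K) (i : ι) (F : (ι → K) → K) (c0 c1 : K) : Prop :=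
  ‖c0‖ ≤ 1 ∧ ‖c1‖ ≤ 1 ∧ ∃ S : (ι → K) → K, Good S ∧
    ∀ t ∈ Dsc K ι, F t = c0 + p * t i * c1 + p ^ 2 * S t

theorem norm_pow_le_one' {a : K} (ha : ‖a‖ ≤ 1) (n : ℕ) : ‖a ^ n‖ ≤ 1 := by
  rw [norm_pow]; exact pow_le_one₀ (norm_nonneg _) ha

theorem Exp.const (p : K) (i : ι) {c : K} (hc : ‖c‖ ≤ 1) : Exp p i (fun _ => c) c 0 :=
  ⟨hc, by simp, fun _ => 0, Good.const 0 (by simp), fun t _ => by simp⟩

theorem Exp.add {p : K} {i : ι} {F G : (ι → K) → K} {c0 c1 e0 e1 : K} (hF : Exp p i F c0 c1)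
    (hG : Exp p i G e0 e1) : Exp p i (fun t => F t + G t) (c0 + e0) (c1 + e1) := by
  obtain ⟨h1, h2, S, hS, hS2⟩ := hF
  obtain ⟨h3, h4, U, hU, hU2⟩ := hG
  refine ⟨norm_add_le_one h1 h3, norm_add_le_one h2 h4, fun t => S t + U t, hS.add hU,
    fun t ht => ?_⟩
  simp only
  rw [hS2 t ht, hU2 t ht]; ring

theorem Exp.mul {p : K} (hp : ‖p‖ ≤ 1) {i : ι} {F G : (ι → K) → K} {c0 c1 e0 e1 : K}
    (hF : Exp p i F c0 c1) (hG : Exp p i G e0 e1) :
    Exp p i (fun t => F t * G t) (c0 * e0) (c0 * e1 + c1 * e0) := by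
  obtain ⟨h1, h2, S, hS, hS2⟩ := hF
  obtain ⟨h3, h4, U, hU, hU2⟩ := hG
  refine ⟨norm_mul_le_one h1 h3, norm_add_le_one (norm_mul_le_one h1 h4) (norm_mul_le_one h2 h3),
    fun t => t i * t i * (c1 * e1) + S t * (e0 + p * t i * e1) + U t * (c0 + p * t i * c1) +
      p ^ 2 * (S t * U t), ?_, fun t ht => ?_⟩
  · have gi : Good (fun t : ι → K => t i) := Good.proj i
    have l1 : Good (fun t : ι → K => e0 + p * t i * e1) := by
      have := (Good.const (ι := ι) e0 h3).add ((gi.smul hp).mul (Good.const e1 h4))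
      exact this
    have l2 : Good (fun t : ι → K => c0 + p * t i * c1) := by
      have := (Good.const (ι := ι) c0 h1).add ((gi.smul hp).mul (Good.const c1 h2))
      exact this
    exact ((((gi.mul gi).mul (Good.const _ (norm_mul_le_one h2 h4))).add (hS.mul l1)).add
      (hU.mul l2)).add ((hS.mul hU).smul (norm_pow_le_one' hp 2))
  · simp only
    rw [hS2 t ht, hU2 t ht]; ring

theorem Exp.pow {p : K} (hp : ‖p‖ ≤ 1) {i : ι} {F : (ι → K) → K} {c0 c1 : K}
    (hF : Exp p i F c0 c1) (n : ℕ) :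
    Exp p i (fun t => F t ^ n) (c0 ^ n) ((n : K) * c0 ^ (n - 1) * c1) := by
  induction n with
  | zero => simpa using Exp.const p i (c := (1 : K)) (by simp)
  | succ n ih =>
    have := ih.mul hp hF
    have e1 : c0 ^ n * c1 + (n : K) * c0 ^ (n - 1) * c1 * c0 =
        ((n + 1 : ℕ) : K) * c0 ^ (n + 1 - 1) * c1 := by
      rcases n with _ | n
      · simp
      · push_cast
        ring
    rw [e1] at this
    simpa [pow_succ] using this

theorem Exp.sum {p : K} {i : ι} {α : Type*} (s : Finset α) {F : α → (ι → K) → K} {c0 c1 : α → K}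
    (h : ∀ a ∈ s, Exp p i (F a) (c0 a) (c1 a)) :
    Exp p i (fun t => ∑ a ∈ s, F a t) (∑ a ∈ s, c0 a) (∑ a ∈ s, c1 a) := by
  classical
  induction s using Finset.induction_on with
  | empty => simpa using Exp.const p i (c := (0 : K)) (by simp)
  | insert a s ha ih =>
    have h1 := (h a (by simp)).add (ih (fun b hb => h b (by simp [hb])))
    simpa [Finset.sum_insert ha] using h1

theorem Exp.form {p : K} (hp : ‖p‖ ≤ 1) {i : ι} {d : ℕ} {a : Fin (d + 1) → K}
    (ha : ∀ j, ‖a j‖ ≤ 1) {U : (ι → K) → (Fin 2 → K)} {u0 u1 : Fin 2 → K}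
    (hU : ∀ k, Exp p i (fun t => U t k) (u0 k) (u1 k)) :
    Exp p i (fun t => form a (U t)) (form a u0) (dform a u0 u1) := by
  have key : ∀ j : Fin (d + 1), Exp p i (fun t => a j * U t 0 ^ (j : ℕ) * U t 1 ^ (d - (j : ℕ)))
      (a j * u0 0 ^ (j : ℕ) * u0 1 ^ (d - (j : ℕ)))
      (a j * (((j : ℕ) : K) * u0 0 ^ ((j : ℕ) - 1) * u1 0 * u0 1 ^ (d - (j : ℕ)) +
        u0 0 ^ (j : ℕ) * (((d - (j : ℕ) : ℕ) : K) * u0 1 ^ (d - (j : ℕ) - 1) * u1 1))) := by
    intro j
    have h1 := (((Exp.const p i (ha j)).mul hp ((hU 0).pow hp (j : ℕ))).mul hp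
      ((hU 1).pow hp (d - (j : ℕ))))
    convert h1 using 1
    ring
  exact Exp.sum Finset.univ (fun j _ => key j)

/-- expansion of the orbit of a disc along which the maps are unramified. -/
theorem exp_iter {p : K} (hp : ‖p‖ ≤ 1) (i : ι) {d : ℕ} {c : Fin 2 → Fin (d + 1) → K}
    (hc : ∀ k j, ‖c k j‖ ≤ 1) {v w : Fin 2 → K} (hv : ∀ k, ‖v k‖ ≤ 1) (hw : ∀ k, ‖w k‖ ≤ 1)
    (hvw : det2 v w = 1) (n : ℕ) (hu : ∀ m < n, ‖jac c ((hlift c)^[m] v)‖ = 1) :
    ∃ u1 : Fin 2 → K, ‖det2 ((hlift c)^[n] v) u1‖ = 1 ∧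
      ∀ k, Exp p i (fun t => (hlift c)^[n] (fun k => v k + p * t i * w k) k)
        ((hlift c)^[n] v k) (u1 k) := by
  induction n with
  | zero =>
    refine ⟨w, by simp [hvw], fun k => ⟨hv k, hw k, fun _ => 0, Good.const 0 (by simp),
      fun t _ => by simp⟩⟩
  | succ n ih =>
    obtain ⟨u1, h1, h2⟩ := ih (fun m hm => hu m (by omega))
    refine ⟨dlift c ((hlift c)^[n] v) u1, ?_, fun k => ?_⟩
    · rw [iterate_succ_apply', det_dlift, norm_mul, h1, hu n (Nat.lt_succ_self n), one_mul]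
    · have := Exp.form hp (hc k) h2
      simp only [iterate_succ_apply']
      exact this

theorem norm_add_eq_one {a b : K} (ha : ‖a‖ = 1) (hb : ‖b‖ < 1) : ‖a + b‖ = 1 := by
  rw [IsUltrametricDist.norm_add_eq_max_of_norm_ne_norm (by rw [ha]; exact hb.ne'), ha]
  exact max_eq_left hb.le

/-- the chart lemma. -/
theorem chart {p : K} (hp0 : p ≠ 0) (hp : ‖p‖ < 1) {i : ι} {U : (ι → K) → (Fin 2 → K)}
    {c0 c1 v w : Fin 2 → K} (hU : ∀ k, Exp p i (fun t => U t k) (c0 k) (c1 k))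
    (hdet : ‖det2 c0 c1‖ = 1) (hv : ∀ k, ‖v k‖ ≤ 1) (hw : ∀ k, ‖w k‖ ≤ 1) (hvw : det2 v w = 1)
    (hcl : ‖det2 v c0‖ ≤ ‖p‖) :
    ∃ (g X : (ι → K) → K) (a b : K) (S : (ι → K) → K), Good g ∧ Good S ∧ ‖a‖ ≤ 1 ∧ ‖b‖ = 1 ∧
      ∀ t ∈ Dsc K ι, g t = a + b * t i + p * S t ∧ X t ≠ 0 ∧
        ∀ k, U t k = X t * (v k + p * g t * w k) := by
  obtain ⟨h00, h10, S0, hS0, hS0'⟩ := hU 0
  obtain ⟨h01, h11, S1, hS1, hS1'⟩ := hU 1
  have hd : ∀ {a b : Fin 2 → K}, (∀ k, ‖a k‖ ≤ 1) → (∀ k, ‖b k‖ ≤ 1) → ‖det2 a b‖ ≤ 1 := by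
    intro a b ha hb
    rw [det2, sub_eq_add_neg]
    exact norm_add_le_one (norm_mul_le_one (ha 0) (hb 1)) (by rw [norm_neg]; exact norm_mul_le_one (ha 1) (hb 0))
  have hc0 : ∀ k, ‖c0 k‖ ≤ 1 := fun k => (hU k).1
  have hc1 : ∀ k, ‖c1 k‖ ≤ 1 := fun k => (hU k).2.1
  set x0 : K := det2 c0 w with hx0
  set x1 : K := det2 c1 w with hx1
  set y0 : K := det2 v c0 / p with hy0
  set y1 : K := det2 v c1 with hy1
  have hy0p : det2 v c0 = p * y0 := by rw [hy0]; field_simp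
  have ny0 : ‖y0‖ ≤ 1 := by
    rw [hy0, norm_div]; exact div_le_one_of_le₀ hcl (norm_nonneg _)
  have nx0' : ‖x0‖ ≤ 1 := hd hc0 hw
  have nx1 : ‖x1‖ ≤ 1 := hd hc1 hw
  have ny1' : ‖y1‖ ≤ 1 := hd hv hc1
  have hxy : det2 c0 c1 = x0 * y1 + p * (-(y0 * x1)) := by
    have e1 : det2 c0 c1 * det2 v w = x0 * y1 - det2 v c0 * x1 := by
      rw [hx0, hx1, hy1]; simp only [det2]; ring
    rw [hvw, mul_one, hy0p] at e1
    rw [e1]; ring
  have nsmall : ∀ {z : K}, ‖z‖ ≤ 1 → ‖p * z‖ < 1 := fun {z} hz => by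
    rw [norm_mul]
    exact lt_of_le_of_lt (mul_le_of_le_one_right (norm_nonneg _) hz) hp
  have nxy : ‖x0 * y1‖ = 1 := by
    have e2 : x0 * y1 = det2 c0 c1 + p * (y0 * x1) := by rw [hxy]; ring
    rw [e2]
    exact norm_add_eq_one hdet (nsmall (norm_mul_le_one ny0 nx1))
  rw [norm_mul] at nxy
  have nx0 : ‖x0‖ = 1 := by
    refine le_antisymm nx0' ?_
    by_contra h
    push Not at h
    have := mul_lt_one_of_nonneg_of_lt_one_left (norm_nonneg x0) h ny1'
    linarith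
  have ny1 : ‖y1‖ = 1 := by rw [nx0, one_mul] at nxy; exact nxy
  have x0ne : x0 ≠ 0 := by intro h; rw [h] at nx0; simp at nx0
  have gi : Good (fun t : ι → K => t i) := Good.proj i
  -- the numerator and denominator
  set s1 : (ι → K) → K := fun t => S0 t * w 1 - S1 t * w 0 with hs1
  set s2 : (ι → K) → K := fun t => v 0 * S1 t - v 1 * S0 t with hs2
  have gs1 : Good s1 := (hS0.mul (Good.const _ (hw 1))).sub (hS1.mul (Good.const _ (hw 0)))
  have gs2 : Good s2 := (hS1.smul (hv 0)).sub (hS0.smul (hv 1))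
  set m1 : (ι → K) → K := fun t => t i * x1 + p * s1 t with hm1
  have gm1 : Good m1 := (gi.mul (Good.const _ nx1)).add (gs1.smul hp.le)
  set X : (ι → K) → K := fun t => x0 + p * m1 t with hX
  have gX : Good X := (Good.const _ nx0').add (gm1.smul hp.le)
  have uX : ∀ t ∈ Dsc K ι, ‖X t‖ = 1 := fun t ht => norm_add_eq_one nx0 (nsmall (gm1.norm_le t ht))
  have gXi : Good (fun t => (X t)⁻¹) := gX.inv uX
  set m2 : (ι → K) → K := fun t => y0 + t i * y1 with hm2
  have gm2 : Good m2 := (Good.const _ ny0).add (gi.mul (Good.const _ ny1'))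
  have nxi : ‖x0⁻¹‖ ≤ 1 := by rw [norm_inv, nx0]; simp
  refine ⟨fun t => (m2 t + p * s2 t) * (X t)⁻¹, X, y0 / x0, y1 / x0,
    fun t => s2 t * (X t)⁻¹ - m2 t * (m1 t * (x0⁻¹ * (X t)⁻¹)), (gm2.add (gs2.smul hp.le)).mul gXi,
    (gs2.mul gXi).sub (gm2.mul (gm1.mul (gXi.smul nxi))), ?_, ?_, fun t ht => ⟨?_, ?_, ?_⟩⟩
  · rw [norm_div, nx0, div_one]; exact ny0
  · rw [norm_div, nx0, ny1, div_one]
  · have hXt : X t ≠ 0 := by intro h; have := uX t ht; rw [h] at this; simp at this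
    have hXe : X t = x0 + p * m1 t := rfl
    have hm2e : m2 t = y0 + t i * y1 := rfl
    field_simp
    rw [hXe, hm2e]
    ring
  · intro h; have := uX t ht; rw [h] at this; simp at this
  · have hXt : X t ≠ 0 := by intro h; have := uX t ht; rw [h] at this; simp at this
    have e0 := hS0' t ht
    have e1 := hS1' t ht
    have eX : X t = det2 (U t) w := by
      simp only [hX, hm1, hs1, hx0, hx1, det2, e0, e1]; ring
    have eY : p * (m2 t + p * s2 t) = det2 v (U t) := by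
      have : p * m2 t = det2 v c0 + p * (t i * y1) := by rw [hy0p]; simp only [hm2]; ring
      rw [mul_add, this]
      simp only [hs2, hy1, det2, e0, e1]; ring
    have hk : ∀ k, U t k = det2 (U t) w * v k + det2 v (U t) * w k := by
      intro k
      have hvw' : v 0 * w 1 - v 1 * w 0 = 1 := hvw
      fin_cases k
      · simp only [det2, Fin.zero_eta]; linear_combination (-U t 0) * hvw'
      · simp only [det2, Fin.mk_one]; linear_combination (-U t 1) * hvw'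
    intro k
    rw [hk k, ← eX, ← eY]
    field_simp

end

section
variable {K : Type*} [NormedField K] [IsUltrametricDist K] {ι : Type*}

theorem Good.form {d : ℕ} {a : Fin (d + 1) → K} (ha : ∀ j, ‖a j‖ ≤ 1) {U : (ι → K) → (Fin 2 → K)}
    (hU : ∀ k, Good (fun t => U t k)) : Good (fun t => form a (U t)) := by
  refine Good.sum Finset.univ (R := fun j t => a j * U t 0 ^ (j : ℕ) * U t 1 ^ (d - (j : ℕ)))
    fun j _ => ?_
  exact (((hU 0).pow _).smul (ha j)).mul ((hU 1).pow _)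

theorem Good.hlift_iter {d : ℕ} {c : Fin 2 → Fin (d + 1) → K} (hc : ∀ k j, ‖c k j‖ ≤ 1)
    {U : (ι → K) → (Fin 2 → K)} (hU : ∀ k, Good (fun t => U t k)) (n : ℕ) :
    ∀ k, Good (fun t => (hlift c)^[n] (U t) k) := by
  induction n with
  | zero => exact hU
  | succ n ih =>
    intro k
    simp only [iterate_succ_apply']
    exact Good.form (hc k) ih

theorem Good.eval {σ : Type*} {H : MvPolynomial σ K} (hH : ∀ m, ‖H.coeff m‖ ≤ 1)
    {F : σ → (ι → K) → K} (hF : ∀ x, Good (F x)) :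
    Good (fun t => MvPolynomial.eval (fun x => F x t) H) := by
  simp only [MvPolynomial.eval_eq]
  refine Good.sum H.support fun m _ => ?_
  exact (Good.prod m.support fun x _ => (hF x).pow _).smul (hH m)

end

/-- `H` is homogeneous in each pair of variables `(i, 0), (i, 1)`: scaling the pairs multiplies the
values by powers of the factors. -/
def MHom {R : Type*} [CommRing R] {ι : Type*} [Fintype ι] (H : MvPolynomial (ι × Fin 2) R) : Prop :=
  ∃ e : ι → ℕ, ∀ (l : ι → R) (u : ι → Fin 2 → R),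
    MvPolynomial.eval (fun x => l x.1 * u x.1 x.2) H =
      (∏ i, l i ^ e i) * MvPolynomial.eval (fun x => u x.1 x.2) H

/-- **Core theorem.** -/
theorem core {K : Type*} [NontriviallyNormedField K] [IsUltrametricDist K] [ProperSpace K]
    [CharZero K] {p : ℕ} (hp : p.Prime) (hp1 : ‖(p : K)‖ < 1) {ι : Type*} [Fintype ι]
    {d : ι → ℕ} {c : (i : ι) → Fin 2 → Fin (d i + 1) → K} (hc : ∀ i k j, ‖c i k j‖ ≤ 1)
    {v : ι → Fin 2 → K} (hv : ∀ i n, ‖(hlift (c i))^[n] (v i)‖ = 1) {n₀ : ℕ}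
    (hu : ∀ i n, n₀ ≤ n → ‖jac (c i) ((hlift (c i))^[n] (v i))‖ = 1)
    {H : MvPolynomial (ι × Fin 2) K} (hH : MHom H) :
    EP (fun n => MvPolynomial.eval (fun x => (hlift (c x.1))^[n] (v x.1) x.2) H = 0) := by
  classical
  have hpK : (p : K) ≠ 0 := Nat.cast_ne_zero.2 hp.ne_zero
  -- normalise the coefficients of `H`
  obtain ⟨κ, hκ, hκ2⟩ : ∃ κ : K, κ ≠ 0 ∧ ∀ m, ‖(MvPolynomial.C κ * H).coeff m‖ ≤ 1 := by
    obtain ⟨B, hB⟩ : ∃ B : ℝ, ∀ m, ‖H.coeff m‖ ≤ B := by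
      refine ⟨∑ m ∈ H.support, ‖H.coeff m‖, fun m => ?_⟩
      by_cases hm : m ∈ H.support
      · exact Finset.single_le_sum (f := fun m => ‖H.coeff m‖) (fun _ _ => norm_nonneg _) hm
      · rw [MvPolynomial.notMem_support_iff.1 hm, norm_zero]
        exact Finset.sum_nonneg fun _ _ => norm_nonneg _
    have hB0 : 0 < max B 1 := lt_max_of_lt_right one_pos
    obtain ⟨m, hm⟩ := exists_pow_lt_of_lt_one (inv_pos.2 hB0) hp1
    refine ⟨(p : K) ^ m, pow_ne_zero _ hpK, fun a => ?_⟩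
    rw [MvPolynomial.coeff_C_mul, norm_mul, norm_pow]
    calc _ ≤ (max B 1)⁻¹ * max B 1 := by
          gcongr
          exact (hB a).trans (le_max_left _ _)
      _ = 1 := inv_mul_cancel₀ hB0.ne'
  -- the periodicity modulo `p`
  obtain ⟨n₁, m, hn₁, hnm, hd⟩ := pigeon (x := fun n => fun i => (hlift (c i))^[n] (v i))
    (c := (0 : ι → Fin 2 → K)) (r := 1) (fun n => by
      rw [mem_closedBall_zero_iff, pi_norm_le_iff_of_nonneg zero_le_one]
      exact fun i => (hv i n).le) (norm_pos_iff.2 hpK) n₀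
  set l := m - n₁ with hl
  have hl0 : 0 < l := by omega
  set V : ι → Fin 2 → K := fun i => (hlift (c i))^[n₁] (v i) with hV
  have hV1 : ∀ i n, (hlift (c i))^[n] (V i) = (hlift (c i))^[n + n₁] (v i) := by
    intro i n; rw [hV, iterate_add_apply]
  have hVn : ∀ i n, ‖(hlift (c i))^[n] (V i)‖ = 1 := fun i n => by rw [hV1]; exact hv i _
  have hVk : ∀ i n k, ‖(hlift (c i))^[n] (V i) k‖ ≤ 1 := fun i n k =>
    (norm_le_pi_norm _ k).trans (hVn i n).le
  have hVu : ∀ i n, ‖jac (c i) ((hlift (c i))^[n] (V i))‖ = 1 := fun i n => by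
    rw [hV1]; exact hu i _ (by omega)
  have hVd : ∀ i k, ‖V i k - (hlift (c i))^[l] (V i) k‖ ≤ ‖(p : K)‖ := by
    intro i k
    rw [hV1, hl, Nat.sub_add_cancel hnm.le, ← dist_eq_norm]
    have h1 := dist_le_pi_dist V (fun i => (hlift (c i))^[m] (v i)) i
    exact ((dist_le_pi_dist _ _ k).trans h1).trans hd.le
  -- complementary vectors
  have hW : ∀ i, ∃ w : Fin 2 → K, (∀ k, ‖w k‖ ≤ 1) ∧ det2 (V i) w = 1 := by
    intro i
    have h1 : ‖V i‖ = 1 := hVn i 0
    have h2 : ‖V i 0‖ = 1 ∨ ‖V i 1‖ = 1 := by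
      by_contra hcon
      push Not at hcon
      have h3 : ∀ k, ‖V i k‖ < 1 := by
        intro k
        fin_cases k
        · exact lt_of_le_of_ne (hVk i 0 0) hcon.1
        · exact lt_of_le_of_ne (hVk i 0 1) hcon.2
      have := (pi_norm_lt_iff one_pos).2 h3
      linarith
    rcases h2 with h2 | h2
    · have hne : V i 0 ≠ 0 := by intro h; rw [h] at h2; simp at h2
      refine ⟨![0, (V i 0)⁻¹], fun k => ?_, ?_⟩
      · fin_cases k <;> simp [h2]
      · simp [det2, hne]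
    · have hne : V i 1 ≠ 0 := by intro h; rw [h] at h2; simp at h2
      refine ⟨![-(V i 1)⁻¹, 0], fun k => ?_, ?_⟩
      · fin_cases k <;> simp [h2]
      · simp [det2, hne]
  choose W hW1 hW2 using hW
  -- the return maps
  have hret : ∀ i, ∃ (g X : (ι → K) → K) (a b : K) (S : (ι → K) → K), Good g ∧ Good S ∧ ‖a‖ ≤ 1 ∧
      ‖b‖ = 1 ∧ ∀ t ∈ Dsc K ι, g t = a + b * t i + (p : K) * S t ∧ X t ≠ 0 ∧
        ∀ k, (hlift (c i))^[l] (fun k => V i k + (p : K) * t i * W i k) k =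
          X t * (V i k + (p : K) * g t * W i k) := by
    intro i
    have hV0 : ∀ k, ‖V i k‖ ≤ 1 := fun k => hVk i 0 k
    obtain ⟨u1, h1, h2⟩ := exp_iter (K := K) (p := (p : K)) hp1.le i (hc i) hV0
      (hW1 i) (hW2 i) l (fun m _ => hVu i m)
    refine chart hpK hp1 h2 h1 hV0 (hW1 i) (hW2 i) ?_
    have e1 : det2 (V i) ((hlift (c i))^[l] (V i)) =
        V i 1 * (V i 0 - (hlift (c i))^[l] (V i) 0) + -(V i 0 * (V i 1 - (hlift (c i))^[l] (V i) 1)) := by
      simp only [det2]; ring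
    have hle : ∀ {u v : K}, ‖u‖ ≤ ‖(p : K)‖ → ‖v‖ ≤ ‖(p : K)‖ → ‖u + v‖ ≤ ‖(p : K)‖ := fun hu hv =>
      (IsUltrametricDist.norm_add_le_max _ _).trans (max_le hu hv)
    have hml : ∀ {u v : K}, ‖u‖ ≤ 1 → ‖v‖ ≤ ‖(p : K)‖ → ‖u * v‖ ≤ ‖(p : K)‖ := fun {u v} hu hv => by
      rw [norm_mul]
      calc ‖u‖ * ‖v‖ ≤ 1 * ‖(p : K)‖ := mul_le_mul hu hv (norm_nonneg _) zero_le_one
        _ = _ := one_mul _
    rw [e1]
    exact hle (hml (hV0 1) (hVd i 0)) (by rw [norm_neg]; exact hml (hV0 0) (hVd i 1))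
  choose g X a b S hg hS ha hb hret using hret
  set G : (ι → K) → (ι → K) := fun t i => g i t with hG
  have hGm : GMap G := hg
  have hGc : Cong (p : K) G (fun t i => a i + b i * t i) :=
    ⟨fun t i => S i t, hS, fun t ht i => (hret i t ht).1⟩
  have h00 : (fun _ => 0 : ι → K) ∈ Dsc K ι := fun i => by simp
  have horb : ∀ k i, ∃ μ : K, μ ≠ 0 ∧ (hlift (c i))^[l * k] (V i) =
      fun q => μ * (V i q + (p : K) * (G^[k] (fun _ => 0)) i * W i q) := by
    intro k i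
    induction k with
    | zero => exact ⟨1, one_ne_zero, by funext q; simp⟩
    | succ k ih =>
      obtain ⟨μ, hμ, e⟩ := ih
      have hmem := hGm.iter_mem h00 k
      refine ⟨μ ^ (d i ^ l) * X i (G^[k] (fun _ => 0)), mul_ne_zero (pow_ne_zero _ hμ)
        (hret i _ hmem).2.1, ?_⟩
      have e1 : l * (k + 1) = l + l * k := by ring
      rw [e1, iterate_add_apply, e, hlift_iter_smul]
      funext q
      rw [(hret i _ hmem).2.2 q, iterate_succ_apply']
      ring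
  -- conclusion
  refine EP.of_shift n₁ (EP.of_classes hl0 fun j _ => ?_)
  have hR : Good (fun t : ι → K => MvPolynomial.eval (fun x : ι × Fin 2 =>
      (hlift (c x.1))^[j] (fun q => V x.1 q + (p : K) * t x.1 * W x.1 q) x.2) (MvPolynomial.C κ * H)) := by
    refine Good.eval hκ2 (F := fun (x : ι × Fin 2) t => (hlift (c x.1))^[j]
      (fun q => V x.1 q + (p : K) * t x.1 * W x.1 q) x.2) fun x => ?_
    refine Good.hlift_iter (hc x.1) (U := fun t q => V x.1 q + (p : K) * t x.1 * W x.1 q)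
      (fun q => ?_) j x.2
    exact (Good.const _ (hVk x.1 0 q)).add (((Good.proj x.1).smul hp1.le).mul (Good.const _ (hW1 x.1 q)))
  have hE := good_zeros_EP hp hp1 hGm ha hb hGc hR h00
  refine hE.congr fun k => ?_
  obtain ⟨e, he⟩ := hH
  choose μ hμ hμ2 using horb k
  have e1 : ∀ x : ι × Fin 2, (hlift (c x.1))^[l * k + j + n₁] (v x.1) x.2 =
      μ x.1 ^ (d x.1 ^ j) * (hlift (c x.1))^[j]
        (fun q => V x.1 q + (p : K) * (G^[k] (fun _ => 0)) x.1 * W x.1 q) x.2 := by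
    intro x
    rw [← hV1, add_comm (l * k) j, iterate_add_apply, hμ2, hlift_iter_smul]
  simp only [e1]
  rw [he (fun i => μ i ^ (d i ^ j)) (fun i => (hlift (c i))^[j]
        (fun q => V i q + (p : K) * (G^[k] (fun _ => 0)) i * W i q))]
  rw [map_mul, MvPolynomial.eval_C, mul_eq_zero, mul_eq_zero]
  have n1 : (∏ i, (μ i ^ (d i ^ j)) ^ e i) ≠ 0 :=
    Finset.prod_ne_zero_iff.2 fun i _ => pow_ne_zero _ (pow_ne_zero _ (hμ i))
  simp only [hκ, n1, false_or]

end Pool.Agent.Helper59.DML
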