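import Pool.Agent.Helper59.DML.Forms

/-!
# DML-COUNT1: pairs of linear forms modulo `p` (case `d = 1`)

Proof. For `d = 1`, `jac c u = c 0 1 * c 1 0 - c 0 0 * c 1 1` for every `u`. The number of `(a, b)`, `a, b ∈ F_p^2`,
with `a_1 b_0 ≠ a_0 b_1` is `(p^2 - 1)(p^2 - p)`; a lower bound such as `p^4 / 4` is enough: e.g. for every `a_1 ≠ 0`, `a_0`, `b_1` arbitrary
there are `p - 1` values of `b_0`: `(p-1)^2 p^2 ≥ p^4 / 4`.
-/

set_option autoImplicit false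

namespace Pool.Agent.Helper59.DML

private theorem jac_one {p : ℕ} (c : Fin 2 → Fin (1 + 1) → ZMod p) (u : Fin 2 → ZMod p) :
    jac c u = c 0 1 * c 1 0 - c 0 0 * c 1 1 := by
  unfold jac
  simp [Fin.sum_univ_succ]
  ring

private def mk1 {p : ℕ} [Fact p.Prime] (x : (ZMod p)ˣ × ZMod p × ZMod p × (ZMod p)ˣ) :
    Fin 2 → Fin (1 + 1) → ZMod p :=
  ![![x.2.1, (x.1 : ZMod p)], ![(x.2.1 * x.2.2.1 + (x.2.2.2 : ZMod p)) / (x.1 : ZMod p), x.2.2.1]]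

private theorem mk1_inj {p : ℕ} [Fact p.Prime] : Function.Injective (mk1 (p := p)) := by
  rintro ⟨a1, a0, b1, t⟩ ⟨a1', a0', b1', t'⟩ h
  have h1 := congrFun (congrFun h 0) 0
  have h2 := congrFun (congrFun h 0) 1
  have h3 := congrFun (congrFun h 1) 0
  have h4 := congrFun (congrFun h 1) 1
  simp only [mk1, Matrix.cons_val_zero, Matrix.cons_val_one] at h1 h2 h3 h4
  have h2' : a1 = a1' := Units.ext h2
  subst h2' h1 h4
  have ha : (a1 : ZMod p) ≠ 0 := a1.ne_zero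
  have h5 : (t : ZMod p) = t' := by
    have h6 := (div_left_inj' ha).1 h3
    exact add_left_cancel h6
  have h7 : t = t' := Units.ext h5
  rw [h7]

theorem count_one : ∃ δ > (0 : ℝ), ∃ P₀ : ℕ, ∀ p : ℕ, p.Prime → P₀ ≤ p →
    δ * (p : ℝ) ^ (2 * (1 + 1)) ≤ (({c : Fin 2 → Fin (1 + 1) → ZMod p |
      ∀ u : Fin 2 → ZMod p, u ≠ 0 → jac c u ≠ 0}.ncard : ℕ) : ℝ) := by
  refine ⟨1 / 4, by norm_num, 2, ?_⟩
  intro p hp hp2
  haveI : Fact p.Prime := ⟨hp⟩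
  have hsub : (mk1 (p := p)) '' Set.univ ⊆ {c : Fin 2 → Fin (1 + 1) → ZMod p |
      ∀ u : Fin 2 → ZMod p, u ≠ 0 → jac c u ≠ 0} := by
    rintro _ ⟨⟨a1, a0, b1, t⟩, -, rfl⟩ u _
    rw [jac_one]
    have ha : (a1 : ZMod p) ≠ 0 := a1.ne_zero
    simp only [mk1, Matrix.cons_val_zero, Matrix.cons_val_one]
    have h1 : (a1 : ZMod p) * ((a0 * b1 + (t : ZMod p)) / (a1 : ZMod p)) - a0 * b1 = t := by
      field_simp
      ring
    rw [h1]
    exact t.ne_zero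
  have h1 := Set.ncard_le_ncard hsub (Set.toFinite _)
  rw [Set.ncard_image_of_injective _ mk1_inj, Set.ncard_univ] at h1
  have hcard : Nat.card ((ZMod p)ˣ × ZMod p × ZMod p × (ZMod p)ˣ) = (p - 1) * (p * (p * (p - 1))) := by
    rw [Nat.card_prod, Nat.card_prod, Nat.card_prod, Nat.card_eq_fintype_card,
      Nat.card_eq_fintype_card, ZMod.card, ZMod.card_units]
  rw [hcard] at h1
  have h2 : (((p - 1) * (p * (p * (p - 1))) : ℕ) : ℝ) ≤ (({c : Fin 2 → Fin (1 + 1) → ZMod p |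
      ∀ u : Fin 2 → ZMod p, u ≠ 0 → jac c u ≠ 0}.ncard : ℕ) : ℝ) := by exact_mod_cast h1
  refine le_trans ?_ h2
  have h3 : ((p - 1 : ℕ) : ℝ) = (p : ℝ) - 1 := by
    rw [Nat.cast_sub hp.one_lt.le, Nat.cast_one]
  push_cast
  rw [h3]
  have hp' : (2 : ℝ) ≤ p := by exact_mod_cast hp2
  have h4 : (p : ℝ) / 2 ≤ p - 1 := by linarith
  have h5 : ((p : ℝ) / 2) ^ 2 ≤ ((p : ℝ) - 1) ^ 2 := by
    apply pow_le_pow_left₀ (by positivity) h4
  have h6 : (0 : ℝ) ≤ (p : ℝ) ^ 2 := by positivity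
  nlinarith

end Pool.Agent.Helper59.DML
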