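import Pool.Agent.Helper59.DML.Forms

/-!
# DML-COUNT2: pairs of quadratic forms modulo `p` without critical point in `P^1(F_p)` (case `d = 2`)

Write `a = c 0`, `b = c 1`. For `d = 2`
`jac c (x, y) = w2 x^2 + w1 x y + w0 y^2` (up to a common sign) with
`w0 = a1 b0 - a0 b1`, `w1 = 2 (a2 b0 - a0 b2)`, `w2 = a2 b1 - a1 b2`, and
`w1^2 - 4 w0 w2 = 4 Res`, `Res = (a0 b2 - a2 b0)^2 - (a0 b1 - a1 b0)(a1 b2 - a2 b1)`.
If `jac c (x,y) = 0` for some `(x,y) ≠ 0` then `w1^2 - 4 w0 w2` is a square (`= ((2 w2 x + w1 y)/y)^2`, or `w1^2` if `y = 0`).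
So it is enough to find `≥ δ p^6` vectors with `4 Res`, i.e. `Res`, not a square (`p` odd).
As a polynomial in `b1`: `Res = a0 a2 b1^2 - a1 (a0 b2 + a2 b0) b1 + (a0 b2 - a2 b0)^2 + a1^2 b0 b2`, with discriminant
`Δ = (a0 b2 - a2 b0)^2 (a1^2 - 4 a0 a2)`. Fix `a0, a2 ≠ 0`, `a1` with `a1^2 ≠ 4 a0 a2`, `b0`, and `b2` with `a0 b2 ≠ a2 b0`: there are at least
`(p-1)(p-1)(p-2) p (p-1)` such `(a0,a2,a1,b0,b2)`. With `α = a0 a2`, `Res = α ((b1 + β)^2 - D)`, `D = Δ/(4α^2) ≠ 0`.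
Lemma: for `α ≠ 0`, `D ≠ 0`, `p` odd, at least `(p-3)/2` values `y ∈ F_p` have `α (y^2 - D)` not a square:
let `n_+, n_-, n_0` be the number of `y` with `y^2 - D` a nonzero square, a nonsquare, zero; `n_0 ≤ 2`, `n_+ + n_- + n_0 = p`, and
counting the `p - 1` solutions of `y^2 - D = z^2`, i.e. `(y-z)(y+z) = D`: `2 n_+ + n_0 = p - 1`. So `n_+ ≥ (p-3)/2` and `n_- ≥ (p-1)/2 - 1 ...`
(`n_- = p - n_0 - n_+ = p - n_0 - (p-1-n_0)/2 = (p + 1 - n_0)/2 ≥ (p-1)/2`); if `α` is a square use `n_-`, if not use `n_+`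
(product of two nonsquares is a square: `FiniteField.isSquare...`, `quadraticChar`, `ZMod.euler_criterion`).
-/

set_option autoImplicit false

namespace Pool.Agent.Helper59.DML

open scoped Classical in
private theorem fib {p : ℕ} [Fact p.Prime] (hp2 : (2 : ZMod p) ≠ 0) {D : ZMod p} (hD : D ≠ 0)
    {y z : ZMod p} (hz : y * y - D = z * z) :
    (Finset.univ.filter (fun t : ZMod p => t ≠ 0 ∧ (t + D / t) / 2 = y)) = {y + z, y - z} := by
  ext t
  simp only [Finset.mem_filter, Finset.mem_univ, true_and, Finset.mem_insert, Finset.mem_singleton]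
  constructor
  · rintro ⟨ht, h⟩
    have h1 : t * t + D = 2 * y * t := by
      field_simp at h
      linear_combination h
    have h2 : (t - (y + z)) * (t - (y - z)) = 0 := by linear_combination h1 + hz
    rcases mul_eq_zero.1 h2 with h3 | h3
    · left; linear_combination h3
    · right; linear_combination h3
  · have hprod : (y + z) * (y - z) = D := by linear_combination hz
    have h1 : y + z ≠ 0 := fun h => hD (by rw [← hprod, h, zero_mul])
    have h2 : y - z ≠ 0 := fun h => hD (by rw [← hprod, h, mul_zero])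
    rintro (h | h)
    · subst h
      refine ⟨h1, ?_⟩
      rw [← hprod]
      field_simp
      ring
    · subst h
      refine ⟨h2, ?_⟩
      rw [← hprod]
      field_simp
      ring

open scoped Classical in
private theorem sqcount {p : ℕ} [Fact p.Prime] (hp2 : (2 : ZMod p) ≠ 0) {D : ZMod p} (hD : D ≠ 0) :
    p - 1 ≤ 2 * (Finset.univ.filter (fun y : ZMod p => IsSquare (y * y - D))).card ∧
    2 * (Finset.univ.filter (fun y : ZMod p => IsSquare (y * y - D))).card ≤ p + 1 := by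
  set U : Finset (ZMod p) := Finset.univ.filter (fun t => t ≠ 0) with hU
  set Y : Finset (ZMod p) := Finset.univ.filter (fun y : ZMod p => IsSquare (y * y - D)) with hY
  set Y0 : Finset (ZMod p) := Finset.univ.filter (fun y : ZMod p => y * y - D = 0) with hY0
  have hUc : U.card = p - 1 := by
    have h1 : U = Finset.univ.erase 0 := by
      ext t; simp [hU]
    rw [h1, Finset.card_erase_of_mem (Finset.mem_univ _), Finset.card_univ, ZMod.card]
  have hmaps : ∀ t ∈ U, (t + D / t) / 2 ∈ Y := by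
    intro t ht
    have ht0 : t ≠ 0 := (Finset.mem_filter.1 ht).2
    refine Finset.mem_filter.2 ⟨Finset.mem_univ _, (t - D / t) / 2, ?_⟩
    field_simp
    ring
  have hsum := Finset.card_eq_sum_card_fiberwise hmaps
  have hfib : ∀ y, (U.filter (fun t => (t + D / t) / 2 = y)) =
      (Finset.univ.filter (fun t : ZMod p => t ≠ 0 ∧ (t + D / t) / 2 = y)) := by
    intro y
    rw [hU, Finset.filter_filter]
  have hle : ∀ y ∈ Y, (U.filter (fun t => (t + D / t) / 2 = y)).card ≤ 2 := by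
    intro y hy
    obtain ⟨z, hz⟩ := (Finset.mem_filter.1 hy).2
    rw [hfib, fib hp2 hD hz]
    exact Finset.card_le_two
  have hge : ∀ y ∈ Y, 2 ≤ (U.filter (fun t => (t + D / t) / 2 = y)).card +
      (if y * y - D = 0 then 1 else 0) := by
    intro y hy
    obtain ⟨z, hz⟩ := (Finset.mem_filter.1 hy).2
    rw [hfib, fib hp2 hD hz]
    split_ifs with h0
    · have : 1 ≤ ({y + z, y - z} : Finset (ZMod p)).card :=
        Finset.card_pos.2 ⟨y + z, Finset.mem_insert_self _ _⟩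
      omega
    · have hz0 : z ≠ 0 := fun h => h0 (by rw [hz, h, mul_zero])
      have hne : y + z ≠ y - z := by
        intro h
        have h1 : 2 * z = 0 := by linear_combination h
        rcases mul_eq_zero.1 h1 with h2 | h2
        · exact hp2 h2
        · exact hz0 h2
      rw [Finset.card_pair hne]
  have hY0c : (Y.filter (fun y => y * y - D = 0)).card ≤ 2 := by
    rcases (Y.filter (fun y => y * y - D = 0)).eq_empty_or_nonempty with he | ⟨y, hy⟩
    · rw [he]; simp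
    · have hsub : Y.filter (fun y => y * y - D = 0) ⊆ {y, -y} := by
        intro x hx
        have h1 := (Finset.mem_filter.1 hx).2
        have h2 := (Finset.mem_filter.1 hy).2
        have h3 : (x - y) * (x + y) = 0 := by linear_combination h1 - h2
        rcases mul_eq_zero.1 h3 with h4 | h4
        · exact Finset.mem_insert.2 (Or.inl (by linear_combination h4))
        · exact Finset.mem_insert.2 (Or.inr (Finset.mem_singleton.2 (by linear_combination h4)))
      exact (Finset.card_le_card hsub).trans Finset.card_le_two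
  have hA : U.card ≤ 2 * Y.card := by
    rw [hsum, mul_comm]
    calc ∑ y ∈ Y, (U.filter (fun t => (t + D / t) / 2 = y)).card ≤ ∑ y ∈ Y, 2 :=
          Finset.sum_le_sum hle
      _ = Y.card * 2 := by rw [Finset.sum_const, smul_eq_mul]
  have hB : 2 * Y.card ≤ U.card + 2 := by
    have h1 : ∑ y ∈ Y, 2 ≤ ∑ y ∈ Y, ((U.filter (fun t => (t + D / t) / 2 = y)).card +
      (if y * y - D = 0 then 1 else 0)) := Finset.sum_le_sum hge
    rw [Finset.sum_const, smul_eq_mul, Finset.sum_add_distrib, ← hsum, ← Finset.card_filter] at h1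
    omega
  have hp1 : 1 ≤ p := (Fact.out : p.Prime).one_lt.le
  omega

open scoped Classical in
private theorem nsq {p : ℕ} [Fact p.Prime] (hp2 : (2 : ZMod p) ≠ 0) {D α : ZMod p} (hD : D ≠ 0)
    (hα : α ≠ 0) :
    (p - 5) / 2 ≤ (Finset.univ.filter (fun y : ZMod p => ¬ IsSquare (α * (y * y - D)))).card := by
  obtain ⟨h1, h2⟩ := sqcount hp2 hD
  have hp1 : 1 ≤ p := (Fact.out : p.Prime).one_lt.le
  by_cases hsq : IsSquare α
  · -- nonsquares y^2 - D
    obtain ⟨b, hb⟩ := hsq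
    have hb0 : b ≠ 0 := fun h => hα (by rw [hb, h, mul_zero])
    have hsub : (Finset.univ.filter (fun y : ZMod p => IsSquare (y * y - D)))ᶜ ⊆
        (Finset.univ.filter (fun y : ZMod p => ¬ IsSquare (α * (y * y - D)))) := by
      intro y hy
      have hy' : ¬ IsSquare (y * y - D) := by
        intro h
        exact (Finset.mem_compl.1 hy) (Finset.mem_filter.2 ⟨Finset.mem_univ _, h⟩)
      refine Finset.mem_filter.2 ⟨Finset.mem_univ _, ?_⟩
      rintro ⟨r, hr⟩
      apply hy'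
      refine ⟨r / b, ?_⟩
      rw [hb] at hr
      field_simp
      linear_combination hr
    have h3 := Finset.card_le_card hsub
    rw [Finset.card_compl, ZMod.card] at h3
    omega
  · -- nonzero squares y^2 - D
    have hsub : (Finset.univ.filter (fun y : ZMod p => IsSquare (y * y - D))) \
        (Finset.univ.filter (fun y : ZMod p => y * y - D = 0)) ⊆
        (Finset.univ.filter (fun y : ZMod p => ¬ IsSquare (α * (y * y - D)))) := by
      intro y hy
      obtain ⟨hy1, hy2⟩ := Finset.mem_sdiff.1 hy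
      obtain ⟨z, hz⟩ := (Finset.mem_filter.1 hy1).2
      have h0 : y * y - D ≠ 0 := fun h => hy2 (Finset.mem_filter.2 ⟨Finset.mem_univ _, h⟩)
      have hz0 : z ≠ 0 := fun h => h0 (by rw [hz, h, mul_zero])
      refine Finset.mem_filter.2 ⟨Finset.mem_univ _, ?_⟩
      rintro ⟨r, hr⟩
      apply hsq
      refine ⟨r / z, ?_⟩
      rw [hz] at hr
      field_simp
      linear_combination hr
    have hY0c : (Finset.univ.filter (fun y : ZMod p => y * y - D = 0)).card ≤ 2 := by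
      rcases (Finset.univ.filter (fun y : ZMod p => y * y - D = 0)).eq_empty_or_nonempty with
        he | ⟨y, hy⟩
      · rw [he]; simp
      · have hsub : Finset.univ.filter (fun y : ZMod p => y * y - D = 0) ⊆ {y, -y} := by
          intro x hx
          have h1 := (Finset.mem_filter.1 hx).2
          have h2 := (Finset.mem_filter.1 hy).2
          have h3 : (x - y) * (x + y) = 0 := by linear_combination h1 - h2
          rcases mul_eq_zero.1 h3 with h4 | h4
          · exact Finset.mem_insert.2 (Or.inl (by linear_combination h4))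
          · exact Finset.mem_insert.2 (Or.inr (Finset.mem_singleton.2 (by linear_combination h4)))
        exact (Finset.card_le_card hsub).trans Finset.card_le_two
    have h3 := Finset.card_le_card hsub
    have h4 := Finset.le_card_sdiff (Finset.univ.filter (fun y : ZMod p => y * y - D = 0))
      (Finset.univ.filter (fun y : ZMod p => IsSquare (y * y - D)))
    omega

private theorem chain {α β : Type*} [Fintype α] [Fintype β] (P : α → Prop) (Q : α → β → Prop)
    [DecidablePred P] [∀ a, DecidablePred (Q a)] [DecidablePred (fun x : α × β => P x.1 ∧ Q x.1 x.2)]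
    {m k : ℕ} (hP : m ≤ (Finset.univ.filter P).card)
    (hQ : ∀ a, P a → k ≤ (Finset.univ.filter (Q a)).card) :
    m * k ≤ (Finset.univ.filter (fun x : α × β => P x.1 ∧ Q x.1 x.2)).card := by
  calc m * k ≤ (Finset.univ.filter P).card * k := Nat.mul_le_mul_right _ hP
    _ = (Finset.univ.filter P).card • k := (smul_eq_mul _ _).symm
    _ ≤ ∑ a ∈ Finset.univ.filter P, (Finset.univ.filter (Q a)).card :=
        Finset.card_nsmul_le_sum _ _ _ (fun a ha => hQ a (Finset.mem_filter.1 ha).2)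
    _ = ((Finset.univ.filter P).sigma (fun a => Finset.univ.filter (Q a))).card :=
        (Finset.card_sigma _ _).symm
    _ ≤ _ := by
        refine Finset.card_le_card_of_injOn (fun x => (x.1, x.2)) ?_ ?_
        · intro x hx
          have hx' := Finset.mem_sigma.1 hx
          refine Finset.mem_coe.2 (Finset.mem_filter.2 ⟨Finset.mem_univ _, ?_, ?_⟩)
          · exact (Finset.mem_filter.1 hx'.1).2
          · exact (Finset.mem_filter.1 hx'.2).2
        · rintro ⟨a, b⟩ _ ⟨a', b'⟩ _ h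
          simp only [Prod.mk.injEq] at h
          obtain ⟨h1, h2⟩ := h
          subst h1
          subst h2
          rfl

private theorem jac_two {p : ℕ} (c : Fin 2 → Fin (2 + 1) → ZMod p) (u : Fin 2 → ZMod p) :
    jac c u = (c 0 1 * c 1 0 - c 0 0 * c 1 1) * (u 1 * u 1) +
      2 * (c 0 2 * c 1 0 - c 0 0 * c 1 2) * (u 0 * u 1) +
      (c 0 2 * c 1 1 - c 0 1 * c 1 2) * (u 0 * u 0) := by
  unfold jac
  simp [Fin.sum_univ_succ]
  ring

private def res {p : ℕ} (a0 a1 a2 b0 b1 b2 : ZMod p) : ZMod p :=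
  (a0 * b2 - a2 * b0) * (a0 * b2 - a2 * b0) - (a0 * b1 - a1 * b0) * (a1 * b2 - a2 * b1)

private theorem jac_ne {p : ℕ} [Fact p.Prime] (hp2 : (2 : ZMod p) ≠ 0)
    (c : Fin 2 → Fin (2 + 1) → ZMod p)
    (hres : ¬ IsSquare (res (c 0 0) (c 0 1) (c 0 2) (c 1 0) (c 1 1) (c 1 2)))
    (u : Fin 2 → ZMod p) (hu : u ≠ 0) : jac c u ≠ 0 := by
  intro h
  rw [jac_two] at h
  apply hres
  by_cases h1 : u 1 = 0
  · have h0 : u 0 ≠ 0 := by
      intro h0
      apply hu
      funext i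
      fin_cases i
      · exact h0
      · exact h1
    rw [h1] at h
    have h2 : c 0 2 * c 1 1 - c 0 1 * c 1 2 = 0 := by
      have h3 : (c 0 2 * c 1 1 - c 0 1 * c 1 2) * (u 0 * u 0) = 0 := by linear_combination h
      rcases mul_eq_zero.1 h3 with h4 | h4
      · exact h4
      · exact absurd (mul_self_eq_zero.1 h4) h0
    refine ⟨c 0 0 * c 1 2 - c 0 2 * c 1 0, ?_⟩
    unfold res
    linear_combination (c 0 0 * c 1 1 - c 0 1 * c 1 0) * h2
  · refine ⟨(2 * (c 0 2 * c 1 1 - c 0 1 * c 1 2) * u 0 +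
      2 * (c 0 2 * c 1 0 - c 0 0 * c 1 2) * u 1) / (2 * u 1), ?_⟩
    unfold res
    field_simp
    linear_combination (-(c 0 2 * c 1 1 - c 0 1 * c 1 2)) * h

open scoped Classical in
theorem count_two : ∃ δ > (0 : ℝ), ∃ P₀ : ℕ, ∀ p : ℕ, p.Prime → P₀ ≤ p →
    δ * (p : ℝ) ^ (2 * (2 + 1)) ≤ (({c : Fin 2 → Fin (2 + 1) → ZMod p |
      ∀ u : Fin 2 → ZMod p, u ≠ 0 → jac c u ≠ 0}.ncard : ℕ) : ℝ) := by
  refine ⟨1 / 64, by norm_num, 20, ?_⟩
  intro p hp hp20
  haveI : Fact p.Prime := ⟨hp⟩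
  have hp2 : (2 : ZMod p) ≠ 0 := by
    intro h
    have h1 : ((2 : ℕ) : ZMod p) = 0 := by exact_mod_cast h
    rw [ZMod.natCast_eq_zero_iff] at h1
    have := Nat.le_of_dvd (by norm_num) h1
    omega
  -- number of nonzero elements
  have hne : ∀ a : ZMod p, p - 1 ≤ (Finset.univ.filter (fun x : ZMod p => x ≠ a)).card := by
    intro a
    have h1 : (Finset.univ.filter (fun x : ZMod p => x ≠ a)) = Finset.univ.erase a := by
      ext t; simp
    rw [h1, Finset.card_erase_of_mem (Finset.mem_univ _), Finset.card_univ, ZMod.card]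
  -- a0, a2
  have c1 : (p - 1) * (p - 1) ≤ (Finset.univ.filter
      (fun x : ZMod p × ZMod p => x.1 ≠ 0 ∧ x.2 ≠ 0)).card :=
    chain (fun x : ZMod p => x ≠ 0) (fun _ (y : ZMod p) => y ≠ 0) (hne 0) (fun _ _ => hne 0)
  -- a1
  have c2 : (p - 1) * (p - 1) * (p - 2) ≤ (Finset.univ.filter
      (fun x : (ZMod p × ZMod p) × ZMod p => (x.1.1 ≠ 0 ∧ x.1.2 ≠ 0) ∧
        x.2 * x.2 ≠ 4 * (x.1.1 * x.1.2))).card := by
    refine chain (fun x : ZMod p × ZMod p => x.1 ≠ 0 ∧ x.2 ≠ 0)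
      (fun x (y : ZMod p) => y * y ≠ 4 * (x.1 * x.2)) c1 ?_
    rintro x -
    have hsub : ((Finset.univ : Finset (ZMod p)).filter (fun y => y * y = 4 * (x.1 * x.2))).card
        ≤ 2 := by
      rcases ((Finset.univ : Finset (ZMod p)).filter
        (fun y => y * y = 4 * (x.1 * x.2))).eq_empty_or_nonempty with he | ⟨y, hy⟩
      · rw [he]; simp
      · have hsub : (Finset.univ : Finset (ZMod p)).filter
            (fun y => y * y = 4 * (x.1 * x.2)) ⊆ {y, -y} := by
          intro w hw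
          have h1 := (Finset.mem_filter.1 hw).2
          have h2 := (Finset.mem_filter.1 hy).2
          have h3 : (w - y) * (w + y) = 0 := by linear_combination h1 - h2
          rcases mul_eq_zero.1 h3 with h4 | h4
          · exact Finset.mem_insert.2 (Or.inl (by linear_combination h4))
          · exact Finset.mem_insert.2 (Or.inr (Finset.mem_singleton.2 (by linear_combination h4)))
        exact (Finset.card_le_card hsub).trans Finset.card_le_two
    have hcompl : (Finset.univ.filter (fun y : ZMod p => y * y ≠ 4 * (x.1 * x.2))) =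
        ((Finset.univ : Finset (ZMod p)).filter (fun y => y * y = 4 * (x.1 * x.2)))ᶜ := by
      ext y; simp
    rw [hcompl, Finset.card_compl, ZMod.card]
    omega
  -- b0
  have c3 : (p - 1) * (p - 1) * (p - 2) * p ≤ (Finset.univ.filter
      (fun x : ((ZMod p × ZMod p) × ZMod p) × ZMod p => ((x.1.1.1 ≠ 0 ∧ x.1.1.2 ≠ 0) ∧
        x.1.2 * x.1.2 ≠ 4 * (x.1.1.1 * x.1.1.2)) ∧ True)).card := by
    refine chain (fun x : (ZMod p × ZMod p) × ZMod p => (x.1.1 ≠ 0 ∧ x.1.2 ≠ 0) ∧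
        x.2 * x.2 ≠ 4 * (x.1.1 * x.1.2)) (fun _ (_ : ZMod p) => True) c2 ?_
    rintro x -
    rw [Finset.filter_true, Finset.card_univ, ZMod.card]
  -- b2
  have c4 : (p - 1) * (p - 1) * (p - 2) * p * (p - 1) ≤ (Finset.univ.filter
      (fun x : (((ZMod p × ZMod p) × ZMod p) × ZMod p) × ZMod p =>
        (((x.1.1.1.1 ≠ 0 ∧ x.1.1.1.2 ≠ 0) ∧
        x.1.1.2 * x.1.1.2 ≠ 4 * (x.1.1.1.1 * x.1.1.1.2)) ∧ True) ∧
          x.1.1.1.1 * x.2 ≠ x.1.1.1.2 * x.1.2)).card := by
    refine chain (fun x : ((ZMod p × ZMod p) × ZMod p) × ZMod p => ((x.1.1.1 ≠ 0 ∧ x.1.1.2 ≠ 0) ∧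
        x.1.2 * x.1.2 ≠ 4 * (x.1.1.1 * x.1.1.2)) ∧ True)
        (fun x (y : ZMod p) => x.1.1.1 * y ≠ x.1.1.2 * x.2) c3 ?_
    rintro x hx
    have ha : x.1.1.1 ≠ 0 := hx.1.1.1
    have hsub : (Finset.univ.filter (fun y : ZMod p => y ≠ x.1.1.2 * x.2 / x.1.1.1)) ⊆
        (Finset.univ.filter (fun y : ZMod p => x.1.1.1 * y ≠ x.1.1.2 * x.2)) := by
      intro y hy
      have h1 := (Finset.mem_filter.1 hy).2
      refine Finset.mem_filter.2 ⟨Finset.mem_univ _, fun h => h1 ?_⟩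
      rw [← h]
      field_simp
    exact (hne _).trans (Finset.card_le_card hsub)
  -- b1
  have c5 : (p - 1) * (p - 1) * (p - 2) * p * (p - 1) * ((p - 5) / 2) ≤ (Finset.univ.filter
      (fun x : ((((ZMod p × ZMod p) × ZMod p) × ZMod p) × ZMod p) × ZMod p =>
        ((((x.1.1.1.1.1 ≠ 0 ∧ x.1.1.1.1.2 ≠ 0) ∧
        x.1.1.1.2 * x.1.1.1.2 ≠ 4 * (x.1.1.1.1.1 * x.1.1.1.1.2)) ∧ True) ∧
          x.1.1.1.1.1 * x.1.2 ≠ x.1.1.1.1.2 * x.1.1.2) ∧
          ¬ IsSquare (res x.1.1.1.1.1 x.1.1.1.2 x.1.1.1.1.2 x.1.1.2 x.2 x.1.2))).card := by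
    refine chain (fun x : (((ZMod p × ZMod p) × ZMod p) × ZMod p) × ZMod p =>
        (((x.1.1.1.1 ≠ 0 ∧ x.1.1.1.2 ≠ 0) ∧
        x.1.1.2 * x.1.1.2 ≠ 4 * (x.1.1.1.1 * x.1.1.1.2)) ∧ True) ∧
          x.1.1.1.1 * x.2 ≠ x.1.1.1.2 * x.1.2)
      (fun x (y : ZMod p) => ¬ IsSquare (res x.1.1.1.1 x.1.1.2 x.1.1.1.2 x.1.2 y x.2)) c4 ?_
    rintro ⟨⟨⟨⟨a0, a2⟩, a1⟩, b0⟩, b2⟩ hx
    simp only at hx ⊢
    obtain ⟨⟨⟨⟨h0, h2⟩, h1⟩, -⟩, h3⟩ := hx
    set α : ZMod p := a0 * a2 with hα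
    have hα0 : α ≠ 0 := mul_ne_zero h0 h2
    have h4 : a0 * b2 - a2 * b0 ≠ 0 := sub_ne_zero.2 h3
    have h5 : a1 * a1 - 4 * α ≠ 0 := sub_ne_zero.2 h1
    set D : ZMod p := (a0 * b2 - a2 * b0) * (a0 * b2 - a2 * b0) * (a1 * a1 - 4 * α) /
      (2 * α * (2 * α)) with hD
    have hD0 : D ≠ 0 := by
      rw [hD]
      exact div_ne_zero (mul_ne_zero (mul_ne_zero h4 h4) h5)
        (mul_ne_zero (mul_ne_zero hp2 hα0) (mul_ne_zero hp2 hα0))
    have key := nsq hp2 hD0 hα0
    refine key.trans ?_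
    refine Finset.card_le_card_of_injOn
      (fun y => y + a1 * (a0 * b2 + a2 * b0) / (2 * α)) ?_ ?_
    · intro y hy
      have hy' := (Finset.mem_filter.1 (Finset.mem_coe.1 hy)).2
      refine Finset.mem_coe.2 (Finset.mem_filter.2 ⟨Finset.mem_univ _, ?_⟩)
      have hres : res a0 a1 a2 b0 (y + a1 * (a0 * b2 + a2 * b0) / (2 * α)) b2 =
          α * (y * y - D) := by
        rw [hD]
        unfold res
        field_simp
        rw [hα]
        ring
      rw [hres]
      exact hy'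
    · intro y _ y' _ h
      exact add_right_cancel h
  -- transfer
  set f : ((((ZMod p × ZMod p) × ZMod p) × ZMod p) × ZMod p) × ZMod p →
      (Fin 2 → Fin (2 + 1) → ZMod p) := fun x =>
    ![![x.1.1.1.1.1, x.1.1.1.2, x.1.1.1.1.2], ![x.1.1.2, x.2, x.1.2]] with hf
  have hfinj : Function.Injective f := by
    rintro ⟨⟨⟨⟨⟨a0, a2⟩, a1⟩, b0⟩, b2⟩, b1⟩ ⟨⟨⟨⟨⟨a0', a2'⟩, a1'⟩, b0'⟩, b2'⟩, b1'⟩ h
    have e1 : a0 = a0' := congrFun (congrFun h 0) 0
    have e2 : a1 = a1' := congrFun (congrFun h 0) 1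
    have e3 : a2 = a2' := congrFun (congrFun h 0) 2
    have e4 : b0 = b0' := congrFun (congrFun h 1) 0
    have e5 : b1 = b1' := congrFun (congrFun h 1) 1
    have e6 : b2 = b2' := congrFun (congrFun h 1) 2
    subst e1 e2 e3 e4 e5 e6
    rfl
  set G := (Finset.univ.filter
      (fun x : ((((ZMod p × ZMod p) × ZMod p) × ZMod p) × ZMod p) × ZMod p =>
        ((((x.1.1.1.1.1 ≠ 0 ∧ x.1.1.1.1.2 ≠ 0) ∧
        x.1.1.1.2 * x.1.1.1.2 ≠ 4 * (x.1.1.1.1.1 * x.1.1.1.1.2)) ∧ True) ∧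
          x.1.1.1.1.1 * x.1.2 ≠ x.1.1.1.1.2 * x.1.1.2) ∧
          ¬ IsSquare (res x.1.1.1.1.1 x.1.1.1.2 x.1.1.1.1.2 x.1.1.2 x.2 x.1.2))) with hG
  have hsub : f '' (G : Set _) ⊆ {c : Fin 2 → Fin (2 + 1) → ZMod p |
      ∀ u : Fin 2 → ZMod p, u ≠ 0 → jac c u ≠ 0} := by
    rintro _ ⟨x, hx, rfl⟩ u hu
    refine jac_ne hp2 (f x) ?_ u hu
    exact (Finset.mem_filter.1 (Finset.mem_coe.1 hx)).2.2
  have h1 := Set.ncard_le_ncard hsub (Set.toFinite _)
  rw [Set.ncard_image_of_injective _ hfinj, Set.ncard_coe_finset] at h1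
  have h2 : (((p - 1) * (p - 1) * (p - 2) * p * (p - 1) * ((p - 5) / 2) : ℕ) : ℝ) ≤
      (({c : Fin 2 → Fin (2 + 1) → ZMod p |
      ∀ u : Fin 2 → ZMod p, u ≠ 0 → jac c u ≠ 0}.ncard : ℕ) : ℝ) := by
    exact_mod_cast c5.trans h1
  refine le_trans ?_ h2
  have hp' : (20 : ℝ) ≤ p := by exact_mod_cast hp20
  have h3 : (p : ℝ) / 2 ≤ ((p - 1 : ℕ) : ℝ) := by
    rw [Nat.cast_sub hp.one_lt.le, Nat.cast_one]; linarith
  have h4 : (p : ℝ) / 2 ≤ ((p - 2 : ℕ) : ℝ) := by
    rw [Nat.cast_sub hp.two_le]; push_cast; linarith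
  have h5 : (p : ℝ) / 4 ≤ (((p - 5) / 2 : ℕ) : ℝ) := by
    have h6 : p ≤ 2 * ((p - 5) / 2) + 6 := by omega
    have h7 : (p : ℝ) ≤ 2 * (((p - 5) / 2 : ℕ) : ℝ) + 6 := by exact_mod_cast h6
    linarith
  have hpp : (0 : ℝ) < p := by linarith
  push_cast
  have e1 : (1 / 64 : ℝ) * (p : ℝ) ^ (2 * (2 + 1)) =
      ((p : ℝ) / 2) * ((p : ℝ) / 2) * ((p : ℝ) / 2) * p * ((p : ℝ) / 2) * ((p : ℝ) / 4) := by ring
  rw [e1]
  have hn : ∀ n : ℕ, (0 : ℝ) ≤ (n : ℝ) := fun n => Nat.cast_nonneg n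
  have g1 := mul_le_mul h3 h3 (by positivity) (hn _)
  have g2 := mul_le_mul g1 h4 (by positivity) (mul_nonneg (hn _) (hn _))
  have g3 := mul_le_mul_of_nonneg_right g2 hpp.le
  have g4 := mul_le_mul g3 h3 (by positivity)
    (mul_nonneg (mul_nonneg (mul_nonneg (hn _) (hn _)) (hn _)) hpp.le)
  have g5 := mul_le_mul g4 h5 (by positivity)
    (mul_nonneg (mul_nonneg (mul_nonneg (mul_nonneg (hn _) (hn _)) (hn _)) hpp.le) (hn _))
  exact_mod_cast g5

end Pool.Agent.Helper59.DML
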