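import Pool.Agent.Helper59.DML.Forms

/-!
# DML-COUNT3: pairs of forms of degree `d ≥ 3` modulo `p` without critical point in `P^1(F_p)`
-/

set_option autoImplicit false
set_option linter.unusedSectionVars false

namespace Pool.Agent.Helper59.DML

open Polynomial Finset Function

section count3

variable {p : ℕ} [hp : Fact p.Prime] {d : ℕ}

private noncomputable def pol3 (a : Fin (d + 1) → ZMod p) : (ZMod p)[X] :=
  ∑ i : Fin (d + 1), C (a i) * X ^ (i : ℕ)

private noncomputable def Wr3 (a b : Fin (d + 1) → ZMod p) : (ZMod p)[X] :=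
  derivative (pol3 a) * pol3 b - pol3 a * derivative (pol3 b)

private theorem pol3_add (a b : Fin (d + 1) → ZMod p) : pol3 (a + b) = pol3 a + pol3 b := by
  simp only [pol3, Pi.add_apply, C_add, add_mul, Finset.sum_add_distrib]

private theorem coeff_pol3 (a : Fin (d + 1) → ZMod p) (i : Fin (d + 1)) :
    (pol3 a).coeff (i : ℕ) = a i := by
  simp only [pol3, finset_sum_coeff, coeff_C_mul, coeff_X_pow]
  rw [Finset.sum_eq_single i]
  · simp
  · intro j _ hj
    have : (i : ℕ) ≠ (j : ℕ) := fun h => hj (Fin.ext h.symm)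
    simp [this]
  · intro h; exact absurd (Finset.mem_univ i) h

private theorem natDegree_pol3 (a : Fin (d + 1) → ZMod p) : (pol3 a).natDegree ≤ d := by
  refine natDegree_sum_le_of_forall_le _ _ fun i _ => ?_
  exact (natDegree_C_mul_X_pow_le _ _).trans (Nat.lt_succ_iff.1 i.2)

private theorem pol3_injective {a b : Fin (d + 1) → ZMod p} (h : pol3 a = pol3 b) : a = b := by
  funext i
  rw [← coeff_pol3 a i, h, coeff_pol3]

private theorem eval_pol3 (a : Fin (d + 1) → ZMod p) (x : ZMod p) :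
    (pol3 a).eval x = ∑ i : Fin (d + 1), a i * x ^ (i : ℕ) := by
  simp [pol3, eval_finset_sum]

private theorem eval_dpol3 (a : Fin (d + 1) → ZMod p) (x : ZMod p) :
    (derivative (pol3 a)).eval x =
      ∑ i : Fin (d + 1), a i * (((i : ℕ) : ZMod p) * x ^ ((i : ℕ) - 1)) := by
  simp [pol3, eval_finset_sum, derivative_sum, derivative_X_pow]

private theorem natDegree_Wr3 (hd : 1 ≤ d) (a b : Fin (d + 1) → ZMod p) :
    (Wr3 a b).natDegree ≤ 2 * d - 1 := by
  have h1 : (derivative (pol3 a)).natDegree ≤ d - 1 :=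
    (natDegree_derivative_le _).trans (Nat.sub_le_sub_right (natDegree_pol3 a) 1)
  have h2 : (derivative (pol3 b)).natDegree ≤ d - 1 :=
    (natDegree_derivative_le _).trans (Nat.sub_le_sub_right (natDegree_pol3 b) 1)
  refine (natDegree_sub_le _ _).trans (max_le ?_ ?_)
  · have := natDegree_mul_le (p := derivative (pol3 a)) (q := pol3 b)
    have h3 := natDegree_pol3 b
    omega
  · have := natDegree_mul_le (p := pol3 a) (q := derivative (pol3 b))
    have h3 := natDegree_pol3 a
    omega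

/-- vanishing Wronskian in degree `< p`. -/
private theorem wr3_zero (hdp : d < p) {a b : Fin (d + 1) → ZMod p} (ha : a ≠ 0)
    (h : Wr3 a b = 0) : ∃ c : ZMod p, b = fun i => c * a i := by
  have hA : pol3 a ≠ 0 := by
    intro h0
    apply ha
    apply pol3_injective
    rw [h0]; simp [pol3]
  set A := pol3 a with hAdef
  set m := A.natDegree with hm
  have hlc : A.coeff m ≠ 0 := by
    rw [hm]; exact leadingCoeff_ne_zero.2 hA
  set c : ZMod p := (pol3 b).coeff m / A.coeff m with hc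
  have hmd : m ≤ d := natDegree_pol3 a
  set B := pol3 b - C c * A with hB
  have hBm : B.coeff m = 0 := by
    rw [hB, coeff_sub, coeff_C_mul, hc, div_mul_cancel₀ _ hlc, sub_self]
  have hBd : B.natDegree ≤ d :=
    (natDegree_sub_le _ _).trans (max_le (natDegree_pol3 b)
      ((natDegree_C_mul_le _ _).trans (natDegree_pol3 a)))
  have hW : derivative A * B - A * derivative B = 0 := by
    rw [hB, derivative_sub, derivative_C_mul]
    have : derivative A * pol3 b - A * derivative (pol3 b) = 0 := h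
    linear_combination this
  have hB0 : B = 0 := by
    by_contra hB0
    set m' := B.natDegree with hm'
    have hlc' : B.coeff m' ≠ 0 := by
      rw [hm']; exact leadingCoeff_ne_zero.2 hB0
    have hne : m' ≠ m := by
      intro e; rw [e] at hlc'; exact hlc' hBm
    have hX : ∀ (P : (ZMod p)[X]) (k : ℕ), (X * derivative P).coeff k = P.coeff k * k := by
      intro P k
      rcases k with _ | k
      · simp
      · rw [coeff_X_mul, coeff_derivative]; push_cast; ring
    have hXd : ∀ (P : (ZMod p)[X]), (X * derivative P).natDegree ≤ P.natDegree := by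
      intro P
      rw [natDegree_le_iff_coeff_eq_zero]
      intro N hN
      rw [hX, coeff_eq_zero_of_natDegree_lt hN, zero_mul]
    have e1 : ((X * derivative A) * B).coeff (m + m') = (A.coeff m * m) * B.coeff m' := by
      rw [coeff_mul_add_eq_of_natDegree_le (hXd A) le_rfl, hX]
    have e2 : (A * (X * derivative B)).coeff (m + m') = A.coeff m * (B.coeff m' * m') := by
      rw [coeff_mul_add_eq_of_natDegree_le le_rfl (hXd B), hX]
    have e3 : (X * derivative A) * B - A * (X * derivative B) = 0 := by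
      linear_combination X * hW
    have e4 := congrArg (fun P : (ZMod p)[X] => P.coeff (m + m')) e3
    simp only [coeff_sub, coeff_zero] at e4
    rw [e1, e2] at e4
    have e5 : A.coeff m * B.coeff m' * ((m : ZMod p) - (m' : ZMod p)) = 0 := by
      linear_combination e4
    rcases mul_eq_zero.1 e5 with h5 | h5
    · rcases mul_eq_zero.1 h5 with h6 | h6
      · exact hlc h6
      · exact hlc' h6
    · have h6 : (m : ZMod p) = (m' : ZMod p) := sub_eq_zero.1 h5
      rw [ZMod.natCast_eq_natCast_iff'] at h6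
      rw [Nat.mod_eq_of_lt (by omega), Nat.mod_eq_of_lt (by omega)] at h6
      exact hne h6.symm
  refine ⟨c, ?_⟩
  funext i
  have h1 : pol3 b = C c * A := sub_eq_zero.1 hB0
  rw [← coeff_pol3 b i, h1, coeff_C_mul, hAdef, coeff_pol3]

/-! ### the reduced Jacobian -/

private theorem jac_one3 (c : Fin 2 → Fin (d + 1) → ZMod p) (v : Fin 2 → ZMod p) (hv : v 1 = 1) :
    jac c v = (Wr3 (c 0) (c 1)).eval (v 0) := by
  simp only [Wr3, eval_sub, eval_mul, eval_pol3, eval_dpol3]
  rw [Finset.sum_mul_sum, Finset.sum_mul_sum, ← Finset.sum_sub_distrib]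
  simp only [jac, hv, one_pow, mul_one]
  refine Finset.sum_congr rfl fun i _ => ?_
  rw [← Finset.sum_sub_distrib]
  refine Finset.sum_congr rfl fun j _ => ?_
  have h1 : ((i : ℕ) : ZMod p) * (v 0) ^ ((i : ℕ) + (j : ℕ) - 1) =
      ((i : ℕ) : ZMod p) * ((v 0) ^ ((i : ℕ) - 1) * (v 0) ^ (j : ℕ)) := by
    rcases Nat.eq_zero_or_pos (i : ℕ) with h0 | h0
    · rw [h0]; simp
    · rw [← pow_add]; congr 2; omega
  have h2 : ((j : ℕ) : ZMod p) * (v 0) ^ ((i : ℕ) + (j : ℕ) - 1) =
      ((j : ℕ) : ZMod p) * ((v 0) ^ (i : ℕ) * (v 0) ^ ((j : ℕ) - 1)) := by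
    rcases Nat.eq_zero_or_pos (j : ℕ) with h0 | h0
    · rw [h0]; simp
    · rw [← pow_add]; congr 2; omega
  linear_combination (c 0 i * c 1 j) * (h1 - h2)

private theorem jac_smul3 (c : Fin 2 → Fin (d + 1) → ZMod p) (l : ZMod p) (v : Fin 2 → ZMod p) :
    jac c (fun k => l * v k) = l ^ (2 * d - 2) * jac c v := by
  simp only [jac, Finset.mul_sum]
  refine Finset.sum_congr rfl fun i _ => Finset.sum_congr rfl fun j _ => ?_
  rcases eq_or_ne (i : ℕ) (j : ℕ) with h | h
  · rw [h]; simp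
  · have hi := i.2
    have hj := j.2
    have : l ^ (2 * d - 2) = l ^ ((i : ℕ) + (j : ℕ) - 1) * l ^ ((d - (i : ℕ)) + (d - (j : ℕ)) - 1) := by
      rw [← pow_add]; congr 1; omega
    rw [mul_pow, mul_pow, this]
    ring

private theorem jac_inf3 (hd : 1 ≤ d) (c : Fin 2 → Fin (d + 1) → ZMod p) (v : Fin 2 → ZMod p)
    (hv : v 1 = 0) :
    jac c v = v 0 ^ (2 * d - 2) * (c 0 (Fin.last d) * c 1 ⟨d - 1, by omega⟩ -
      c 0 ⟨d - 1, by omega⟩ * c 1 (Fin.last d)) := by
  set T : Fin (d + 1) → Fin (d + 1) → ZMod p := fun i j =>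
    c 0 i * c 1 j * (((i : ℕ) : ZMod p) - ((j : ℕ) : ZMod p)) *
    (v 0 ^ ((i : ℕ) + (j : ℕ) - 1) * v 1 ^ ((d - (i : ℕ)) + (d - (j : ℕ)) - 1)) with hT
  have key : ∀ i j : Fin (d + 1), (i : ℕ) + (j : ℕ) < 2 * d - 1 → T i j = 0 := by
    intro i j hij
    have h1 := i.2
    have h2 := j.2
    simp only [hT, hv]
    rw [zero_pow (by omega)]; ring
  set P : Fin (d + 1) := ⟨d - 1, by omega⟩ with hP
  have hPL : Fin.last d ≠ P := by
    intro h
    have := congrArg (fun x : Fin (d + 1) => (x : ℕ)) h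
    simp [hP] at this
    omega
  have hsmall : ∀ i : Fin (d + 1), i ≠ Fin.last d ∧ i ≠ P → (i : ℕ) < d - 1 := by
    rintro i ⟨h1, h2⟩
    have h3 : (i : ℕ) ≠ d := fun h => h1 (Fin.ext h)
    have h4 : (i : ℕ) ≠ d - 1 := fun h => h2 (Fin.ext h)
    have := i.2
    omega
  have e1 : jac c v = ∑ i, ∑ j, T i j := rfl
  rw [e1, Finset.sum_eq_add (Fin.last d) P hPL]
  · rw [Finset.sum_eq_add (Fin.last d) P hPL, Finset.sum_eq_add (Fin.last d) P hPL]
    · have t1 : T (Fin.last d) (Fin.last d) = 0 := by simp [hT]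
      have t2 : T P P = 0 := key _ _ (by simp [hP]; omega)
      have t3 : T (Fin.last d) P = v 0 ^ (2 * d - 2) * (c 0 (Fin.last d) * c 1 P) := by
        simp only [hT, hP, Fin.val_last, hv]
        have e2 : (d - d) + (d - (d - 1)) - 1 = 0 := by omega
        have e3 : d + (d - 1) - 1 = 2 * d - 2 := by omega
        rw [e2, e3, pow_zero, mul_one]
        have e4 : ((d : ℕ) : ZMod p) - (((d - 1 : ℕ)) : ZMod p) = 1 := by
          rw [Nat.cast_sub hd]; push_cast; ring
        rw [e4]; ring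
      have t4 : T P (Fin.last d) = - (v 0 ^ (2 * d - 2) * (c 0 P * c 1 (Fin.last d))) := by
        simp only [hT, hP, Fin.val_last, hv]
        have e2 : (d - (d - 1)) + (d - d) - 1 = 0 := by omega
        have e3 : (d - 1) + d - 1 = 2 * d - 2 := by omega
        rw [e2, e3, pow_zero, mul_one]
        have e4 : (((d - 1 : ℕ)) : ZMod p) - ((d : ℕ) : ZMod p) = -1 := by
          rw [Nat.cast_sub hd]; push_cast; ring
        rw [e4]; ring
      rw [t1, t2, t3, t4]
      ring
    · intro j _ hj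
      apply key
      have := hsmall j hj
      simp [hP]; omega
    · intro h; exact absurd (Finset.mem_univ _) h
    · intro h; exact absurd (Finset.mem_univ _) h
    · intro j _ hj
      apply key
      have := hsmall j hj
      simp; omega
    · intro h; exact absurd (Finset.mem_univ _) h
    · intro h; exact absurd (Finset.mem_univ _) h
  · intro i _ hi
    refine Finset.sum_eq_zero fun j _ => key i j ?_
    have := hsmall i hi
    have := j.2
    omega
  · intro h; exact absurd (Finset.mem_univ _) h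
  · intro h; exact absurd (Finset.mem_univ _) h

/-! ### counting kernels -/

private theorem card_ker_ge3 {V W : Type*} [AddCommGroup V] [AddCommGroup W] [Fintype V]
    [Fintype W] [DecidableEq V] [DecidableEq W] (f : V →+ W) :
    Fintype.card V ≤ Fintype.card W * #{v : V | f v = 0} := by
  rw [← Finset.card_univ (α := V), Finset.card_eq_sum_card_fiberwise (f := f) (t := univ)
    (fun _ _ => Finset.mem_coe.2 (Finset.mem_univ _))]
  refine (Finset.sum_le_card_nsmul _ _ (#{v : V | f v = 0}) ?_).trans ?_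
  · intro w _
    rcases Finset.eq_empty_or_nonempty ({v : V | f v = w} : Finset V) with h | ⟨v0, hv0⟩
    · have h2 : ({a ∈ (univ : Finset V) | f a = w} : Finset V) = ∅ := h
      rw [h2]; simp
    · rw [Finset.mem_filter] at hv0
      refine Finset.card_le_card_of_injOn (fun v => v - v0) ?_ ?_
      · intro v hv
        have hv' := (Finset.mem_filter.1 (Finset.mem_coe.1 hv)).2
        simp only [Finset.coe_filter, Finset.mem_univ, true_and, Set.mem_ofPred_eq, map_sub]
        rw [hv', hv0.2, sub_self]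
      · intro v _ v' _ h
        exact sub_left_injective h
  · simp

private theorem card_ker_surj3 {V W : Type*} [AddCommGroup V] [AddCommGroup W] [Fintype V]
    [Fintype W] [DecidableEq V] [DecidableEq W] (f : V →+ W) (hf : Surjective f) :
    Fintype.card W * #{v : V | f v = 0} = Fintype.card V := by
  have h1 := Finset.card_eq_sum_card_fiberwise (f := f) (s := (univ : Finset V)) (t := univ)
    (fun _ _ => Finset.mem_coe.2 (Finset.mem_univ _))
  rw [Finset.sum_const_nat (m := #{v : V | f v = 0})] at h1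
  · rw [Finset.card_univ, Finset.card_univ] at h1
    exact h1.symm
  · intro w _
    obtain ⟨v0, hv0⟩ := hf w
    refine Finset.card_bij' (fun v _ => v - v0) (fun v _ => v + v0) ?_ ?_ ?_ ?_
    · intro v hv
      have hv' := (Finset.mem_filter.1 hv).2
      rw [Finset.mem_filter]
      refine ⟨Finset.mem_univ _, ?_⟩
      rw [map_sub, hv', hv0, sub_self]
    · intro v hv
      have hv' := (Finset.mem_filter.1 hv).2
      rw [Finset.mem_filter]
      refine ⟨Finset.mem_univ _, ?_⟩
      rw [map_add, hv', hv0, zero_add]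
    · intro v _; simp
    · intro v _; simp

private theorem exists_coeff3 {P : (ZMod p)[X]} (hP : P.natDegree ≤ d) :
    ∃ b : Fin (d + 1) → ZMod p, pol3 b = P := by
  refine ⟨fun i => P.coeff i, ?_⟩
  have h1 := P.as_sum_range_C_mul_X_pow' (n := d + 1) (by omega)
  conv_rhs => rw [h1]
  rw [pol3, Finset.sum_range]

private theorem evdev_surj3 (hd : 1 ≤ d) (x α β : ZMod p) :
    ∃ b : Fin (d + 1) → ZMod p, (pol3 b).eval x = α ∧ (derivative (pol3 b)).eval x = β := by
  have h1 : (C α + C β * (X - C x)).natDegree ≤ d := by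
    refine (natDegree_add_le _ _).trans (max_le ?_ ?_)
    · simp
    · refine (natDegree_C_mul_le _ _).trans ?_
      rw [natDegree_X_sub_C]; exact hd
  obtain ⟨b, hb⟩ := exists_coeff3 (p := p) h1
  refine ⟨b, ?_, ?_⟩
  · rw [hb]; simp
  · rw [hb]; simp

private def Fine3 (hd : 3 ≤ d) (a : Fin (d + 1) → ZMod p) : Prop :=
  (∀ x, ¬((pol3 a).eval x = 0 ∧ (derivative (pol3 a)).eval x = 0)) ∧
    ¬(a (Fin.last d) = 0 ∧ a ⟨d - 1, by omega⟩ = 0)

private noncomputable def lx3 (a : Fin (d + 1) → ZMod p) (x : ZMod p) :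
    (Fin (d + 1) → ZMod p) →+ ZMod p :=
  AddMonoidHom.mk' (fun b => (Wr3 a b).eval x) (by
    intro b b'
    simp only [Wr3, pol3_add, derivative_add, eval_sub, eval_mul, eval_add]
    ring)

private noncomputable def li3 (hd : 3 ≤ d) (a : Fin (d + 1) → ZMod p) :
    (Fin (d + 1) → ZMod p) →+ ZMod p :=
  AddMonoidHom.mk' (fun b => a (Fin.last d) * b ⟨d - 1, by omega⟩ -
      a ⟨d - 1, by omega⟩ * b (Fin.last d)) (by
    intro b b'
    simp only [Pi.add_apply]
    ring)

private theorem lx3_surj (hd : 1 ≤ d) {a : Fin (d + 1) → ZMod p} {x : ZMod p}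
    (ha : ¬((pol3 a).eval x = 0 ∧ (derivative (pol3 a)).eval x = 0)) : Surjective (lx3 a x) := by
  intro r
  have e : ∀ b, lx3 a x b = (derivative (pol3 a)).eval x * (pol3 b).eval x -
      (pol3 a).eval x * (derivative (pol3 b)).eval x := by
    intro b
    simp [lx3, Wr3]
  by_cases h : (derivative (pol3 a)).eval x = 0
  · have h0 : (pol3 a).eval x ≠ 0 := fun h0 => ha ⟨h0, h⟩
    obtain ⟨b, hb1, hb2⟩ := evdev_surj3 hd x 0 (-r / (pol3 a).eval x)
    refine ⟨b, ?_⟩
    rw [e, hb1, hb2]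
    field_simp
    ring
  · obtain ⟨b, hb1, hb2⟩ := evdev_surj3 hd x (r / (derivative (pol3 a)).eval x) 0
    refine ⟨b, ?_⟩
    rw [e, hb1, hb2]
    field_simp
    ring

private theorem li3_surj (hd : 3 ≤ d) {a : Fin (d + 1) → ZMod p}
    (ha : ¬(a (Fin.last d) = 0 ∧ a ⟨d - 1, by omega⟩ = 0)) : Surjective (li3 hd a) := by
  intro r
  have e : ∀ b, li3 hd a b = a (Fin.last d) * b ⟨d - 1, by omega⟩ -
      a ⟨d - 1, by omega⟩ * b (Fin.last d) := fun b => rfl
  have hPL : (⟨d - 1, by omega⟩ : Fin (d + 1)) ≠ Fin.last d := by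
    intro h
    have := congrArg (fun x : Fin (d + 1) => (x : ℕ)) h
    simp at this
    omega
  by_cases h : a (Fin.last d) = 0
  · have h0 : a ⟨d - 1, by omega⟩ ≠ 0 := fun h0 => ha ⟨h, h0⟩
    refine ⟨Pi.single (Fin.last d) (-r / a ⟨d - 1, by omega⟩), ?_⟩
    rw [e, Pi.single_eq_same, Pi.single_eq_of_ne hPL]
    field_simp
    ring
  · refine ⟨Pi.single ⟨d - 1, by omega⟩ (r / a (Fin.last d)), ?_⟩
    rw [e, Pi.single_eq_same, Pi.single_eq_of_ne hPL.symm]
    field_simp
    ring

private theorem card_V3 (hd : 3 ≤ d) :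
    Fintype.card (Fin (d + 1) → ZMod p) = p ^ (d - 1) * p ^ 2 := by
  rw [Fintype.card_fun, ZMod.card, Fintype.card_fin, ← pow_add]
  congr 1; omega

open Classical in
private theorem card_notfine3 (hd : 3 ≤ d) :
    #{a : Fin (d + 1) → ZMod p | ¬ Fine3 hd a} ≤ (p + 1) * p ^ (d - 1) := by
  have hp0 : 0 < p := hp.out.pos
  have h1 : ({a : Fin (d + 1) → ZMod p | ¬ Fine3 hd a} : Finset _) ⊆
      (univ.biUnion fun x : ZMod p => ({a : Fin (d + 1) → ZMod p |
        (pol3 a).eval x = 0 ∧ (derivative (pol3 a)).eval x = 0} : Finset _)) ∪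
      ({a : Fin (d + 1) → ZMod p | a (Fin.last d) = 0 ∧ a ⟨d - 1, by omega⟩ = 0} : Finset _) := by
    intro a ha
    have ha' := (Finset.mem_filter.1 ha).2
    rw [Fine3, not_and_or] at ha'
    rw [Finset.mem_union]
    rcases ha' with hx | ha'
    · left
      obtain ⟨x, hx⟩ := not_forall.1 hx
      rw [Finset.mem_biUnion]
      exact ⟨x, Finset.mem_univ _, Finset.mem_filter.2 ⟨Finset.mem_univ _, not_not.1 hx⟩⟩
    · right
      exact Finset.mem_filter.2 ⟨Finset.mem_univ _, not_not.1 ha'⟩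
  have hx : ∀ x : ZMod p, #{a : Fin (d + 1) → ZMod p |
        (pol3 a).eval x = 0 ∧ (derivative (pol3 a)).eval x = 0} = p ^ (d - 1) := by
    intro x
    set f : (Fin (d + 1) → ZMod p) →+ ZMod p × ZMod p :=
      AddMonoidHom.mk' (fun b => ((pol3 b).eval x, (derivative (pol3 b)).eval x)) (by
        intro b b'
        simp [pol3_add]) with hf
    have hs : Surjective f := by
      rintro ⟨α, β⟩
      obtain ⟨b, h1, h2⟩ := evdev_surj3 (p := p) (d := d) (by omega) x α β
      exact ⟨b, Prod.ext h1 h2⟩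
    have h2 := card_ker_surj3 f hs
    rw [card_V3 hd, Fintype.card_prod, ZMod.card] at h2
    have h3 : #{v : Fin (d + 1) → ZMod p | f v = 0} = p ^ (d - 1) := by
      have : 0 < p * p := by positivity
      apply Nat.eq_of_mul_eq_mul_left this
      rw [h2]; ring
    rw [← h3]
    congr 1
    ext b
    simp [hf, Prod.ext_iff]
  have hi : #{a : Fin (d + 1) → ZMod p | a (Fin.last d) = 0 ∧ a ⟨d - 1, by omega⟩ = 0} =
      p ^ (d - 1) := by
    have hPL : (⟨d - 1, by omega⟩ : Fin (d + 1)) ≠ Fin.last d := by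
      intro h
      have := congrArg (fun x : Fin (d + 1) => (x : ℕ)) h
      simp at this
      omega
    set f : (Fin (d + 1) → ZMod p) →+ ZMod p × ZMod p :=
      AddMonoidHom.mk' (fun b => (b (Fin.last d), b ⟨d - 1, by omega⟩)) (by
        intro b b'
        simp) with hf
    have hs : Surjective f := by
      rintro ⟨α, β⟩
      refine ⟨Pi.single (Fin.last d) α + Pi.single ⟨d - 1, by omega⟩ β, ?_⟩
      simp only [hf, AddMonoidHom.mk'_apply, Pi.add_apply, Pi.single_eq_same,
        Pi.single_eq_of_ne hPL, Pi.single_eq_of_ne hPL.symm, add_zero, zero_add]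
    have h2 := card_ker_surj3 f hs
    rw [card_V3 hd, Fintype.card_prod, ZMod.card] at h2
    have h3 : #{v : Fin (d + 1) → ZMod p | f v = 0} = p ^ (d - 1) := by
      have : 0 < p * p := by positivity
      apply Nat.eq_of_mul_eq_mul_left this
      rw [h2]; ring
    rw [← h3]
    congr 1
    ext b
    simp [hf, Prod.ext_iff]
  refine (Finset.card_le_card h1).trans ((Finset.card_union_le _ _).trans ?_)
  rw [hi]
  have := Finset.card_biUnion_le (s := (univ : Finset (ZMod p))) (t := fun x : ZMod p =>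
    ({a : Fin (d + 1) → ZMod p |
        (pol3 a).eval x = 0 ∧ (derivative (pol3 a)).eval x = 0} : Finset _))
  simp only [hx] at this
  rw [Finset.sum_const, Finset.card_univ, ZMod.card, smul_eq_mul] at this
  calc _ ≤ p * p ^ (d - 1) + p ^ (d - 1) := Nat.add_le_add_right this _
    _ = (p + 1) * p ^ (d - 1) := by ring

open Classical in
/-- the number of good `b` for a fine `a`. -/
private theorem card_good3 (hd : 3 ≤ d) (hp4 : 4 * d + 2 ≤ p) {a : Fin (d + 1) → ZMod p}
    (ha : Fine3 hd a) :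
    p ^ (d - 1) * p ^ 2 ≤ 2 * (2 * d - 1) * #{b : Fin (d + 1) → ZMod p |
      (∀ x, (Wr3 a b).eval x ≠ 0) ∧ li3 hd a b ≠ 0} := by
  have hp0 : 0 < p := hp.out.pos
  set K : ℕ := p ^ (d - 1) with hK
  set M : ℕ := 2 * d - 1 with hM
  have hKp : p ^ 2 ≤ K := Nat.pow_le_pow_right hp0 (by omega)
  have hcx : ∀ x : ZMod p, #{b : Fin (d + 1) → ZMod p | (Wr3 a b).eval x = 0} = K * p := by
    intro x
    have h2 := card_ker_surj3 (lx3 a x) (lx3_surj (by omega) (ha.1 x))
    rw [card_V3 hd, ZMod.card] at h2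
    apply Nat.eq_of_mul_eq_mul_left hp0
    have h3 : #{b : Fin (d + 1) → ZMod p | (Wr3 a b).eval x = 0} =
      #{b : Fin (d + 1) → ZMod p | lx3 a x b = 0} := rfl
    rw [h3, h2]; ring
  have hci : #{b : Fin (d + 1) → ZMod p | li3 hd a b = 0} = K * p := by
    have h2 := card_ker_surj3 (li3 hd a) (li3_surj hd ha.2)
    rw [card_V3 hd, ZMod.card] at h2
    apply Nat.eq_of_mul_eq_mul_left hp0
    rw [h2]; ring
  have hcxy : ∀ x y : ZMod p, K ≤ #{b : Fin (d + 1) → ZMod p |
      (Wr3 a b).eval x = 0 ∧ (Wr3 a b).eval y = 0} := by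
    intro x y
    set f : (Fin (d + 1) → ZMod p) →+ ZMod p × ZMod p := (lx3 a x).prod (lx3 a y) with hf
    have h2 := card_ker_ge3 f
    rw [card_V3 hd, Fintype.card_prod, ZMod.card] at h2
    have h3 : #{b : Fin (d + 1) → ZMod p | (Wr3 a b).eval x = 0 ∧ (Wr3 a b).eval y = 0} =
        #{v : Fin (d + 1) → ZMod p | f v = 0} := by
      congr 1
      ext b
      simp only [Finset.mem_filter, Finset.mem_univ, true_and, hf, AddMonoidHom.prod_apply,
        Prod.mk_eq_zero]
      rfl
    rw [h3]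
    have : 0 < p * p := by positivity
    apply Nat.le_of_mul_le_mul_left _ this
    calc p * p * K = K * p ^ 2 := by ring
      _ ≤ _ := h2
  set N : (Fin (d + 1) → ZMod p) → ℤ := fun b =>
    ∑ x : ZMod p, if (Wr3 a b).eval x = 0 then (1 : ℤ) else 0 with hN
  have hNc : ∀ b, N b = (#{x : ZMod p | (Wr3 a b).eval x = 0} : ℤ) := by
    intro b
    simp only [hN]
    rw [Finset.sum_boole]
  have Z1 : ∑ b, N b = (K : ℤ) * p ^ 2 := by
    simp only [hN]
    rw [Finset.sum_comm]
    have : ∀ x : ZMod p, (∑ b : Fin (d + 1) → ZMod p,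
        if (Wr3 a b).eval x = 0 then (1 : ℤ) else 0) = (K : ℤ) * p := by
      intro x
      rw [Finset.sum_boole, hcx x]
      push_cast; rfl
    simp only [this]
    rw [Finset.sum_const, Finset.card_univ, ZMod.card, nsmul_eq_mul]
    ring
  have Z2 : (K : ℤ) * (2 * p ^ 2 - p) ≤ ∑ b, N b ^ 2 := by
    have e1 : ∀ b, N b ^ 2 = ∑ x : ZMod p, ∑ y : ZMod p,
        if (Wr3 a b).eval x = 0 ∧ (Wr3 a b).eval y = 0 then (1 : ℤ) else 0 := by
      intro b
      simp only [hN, sq]
      rw [Finset.sum_mul_sum]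
      refine Finset.sum_congr rfl fun x _ => Finset.sum_congr rfl fun y _ => ?_
      by_cases h1 : (Wr3 a b).eval x = 0 <;> by_cases h2 : (Wr3 a b).eval y = 0 <;> simp [h1, h2]
    simp only [e1]
    rw [Finset.sum_comm]
    have e2 : ∀ x : ZMod p, (∑ b : Fin (d + 1) → ZMod p, ∑ y : ZMod p,
        if (Wr3 a b).eval x = 0 ∧ (Wr3 a b).eval y = 0 then (1 : ℤ) else 0) =
        ∑ y : ZMod p, (#{b : Fin (d + 1) → ZMod p |
          (Wr3 a b).eval x = 0 ∧ (Wr3 a b).eval y = 0} : ℤ) := by
      intro x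
      rw [Finset.sum_comm]
      refine Finset.sum_congr rfl fun y _ => ?_
      rw [Finset.sum_boole]
    simp only [e2]
    have e3 : ∀ x y : ZMod p, (K : ℤ) + (if x = y then (K : ℤ) * p - K else 0) ≤
        (#{b : Fin (d + 1) → ZMod p | (Wr3 a b).eval x = 0 ∧ (Wr3 a b).eval y = 0} : ℤ) := by
      intro x y
      by_cases h : x = y
      · subst h
        simp only [if_true, and_self, hcx x]
        push_cast
        linarith
      · simp only [h, if_false, add_zero]
        exact_mod_cast hcxy x y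
    calc (K : ℤ) * (2 * p ^ 2 - p) = ∑ x : ZMod p, ∑ y : ZMod p,
          ((K : ℤ) + (if x = y then (K : ℤ) * p - K else 0)) := by
          simp only [Finset.sum_add_distrib, Finset.sum_const, Finset.card_univ, ZMod.card,
            Finset.sum_ite_eq, Finset.mem_univ, if_true, nsmul_eq_mul]
          ring
      _ ≤ _ := Finset.sum_le_sum fun x _ => Finset.sum_le_sum fun y _ => e3 x y
  have ha0 : a ≠ 0 := by
    rintro rfl
    exact ha.2 ⟨rfl, rfl⟩
  have hE : #{b : Fin (d + 1) → ZMod p | Wr3 a b = 0} ≤ p := by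
    have h1 : ({b : Fin (d + 1) → ZMod p | Wr3 a b = 0} : Finset _) ⊆
        (univ : Finset (ZMod p)).image (fun c => fun i => c * a i) := by
      intro b hb
      obtain ⟨c, hc⟩ := wr3_zero (by omega) ha0 (Finset.mem_filter.1 hb).2
      exact Finset.mem_image.2 ⟨c, Finset.mem_univ _, hc.symm⟩
    refine (Finset.card_le_card h1).trans (Finset.card_image_le.trans ?_)
    rw [Finset.card_univ, ZMod.card]
  have hM1 : (1 : ℤ) ≤ M := by omega
  have Z3 : ∀ b, N b ^ 2 - (M + 1) * N b + M ≤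
      (M : ℤ) * (if ∀ x, (Wr3 a b).eval x ≠ 0 then 1 else 0) +
      (p : ℤ) ^ 2 * (if Wr3 a b = 0 then 1 else 0) := by
    intro b
    have hN0 : 0 ≤ N b := by rw [hNc]; positivity
    by_cases hW : Wr3 a b = 0
    · have hNp : N b ≤ p := by
        rw [hNc]
        have := Finset.card_le_univ ({x : ZMod p | (Wr3 a b).eval x = 0} : Finset _)
        rw [ZMod.card] at this
        exact_mod_cast this
      have hne : ¬ ∀ x, (Wr3 a b).eval x ≠ 0 := by
        intro h
        apply h 0
        rw [hW]; simp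
      rw [if_neg hne, if_pos hW]
      have hN1 : N b = p := by
        rw [hNc, hW]
        simp [ZMod.card]
      rw [hN1]
      have h2 : (1 : ℤ) ≤ p := by exact_mod_cast hp0
      nlinarith
    · have hNM : N b ≤ M := by
        rw [hNc]
        have h1 : ({x : ZMod p | (Wr3 a b).eval x = 0} : Finset _) ⊆ (Wr3 a b).roots.toFinset := by
          intro x hx
          rw [Multiset.mem_toFinset, mem_roots hW]
          exact (Finset.mem_filter.1 hx).2
        have h2 := Finset.card_le_card h1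
        have h3 := Multiset.toFinset_card_le (Wr3 a b).roots
        have h4 := card_roots' (Wr3 a b)
        have h5 := natDegree_Wr3 (by omega) a b
        have h6 : #{x : ZMod p | (Wr3 a b).eval x = 0} ≤ M := by omega
        exact_mod_cast h6
      simp only [hW, if_false, mul_zero, add_zero]
      rcases hN0.eq_or_lt with h0 | h0
      · have hall : ∀ x, (Wr3 a b).eval x ≠ 0 := by
          intro x hx
          have h1 : #{x : ZMod p | (Wr3 a b).eval x = 0} = 0 := by
            have := hNc b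
            rw [← h0] at this
            exact_mod_cast this.symm
          rw [Finset.card_eq_zero] at h1
          have h2 : x ∈ ({x : ZMod p | (Wr3 a b).eval x = 0} : Finset _) :=
            Finset.mem_filter.2 ⟨Finset.mem_univ _, hx⟩
          rw [h1] at h2
          exact absurd h2 (Finset.notMem_empty _)
        rw [if_pos hall, ← h0]
        norm_num
      · have h1 : (0 : ℤ) ≤ (M : ℤ) * (if ∀ x, (Wr3 a b).eval x ≠ 0 then 1 else 0) := by
          split_ifs <;> linarith
        have h2 : 1 ≤ N b := h0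
        nlinarith
  set Z : Finset (Fin (d + 1) → ZMod p) := {b | ∀ x, (Wr3 a b).eval x ≠ 0} with hZ
  have S1 : (K : ℤ) * p ^ 2 - K * p ≤ (M : ℤ) * #Z + (p : ℤ) ^ 2 * p := by
    have h1 := Finset.sum_le_sum fun (b : Fin (d + 1) → ZMod p) (_ : b ∈ univ) => Z3 b
    have hL : ∑ b : Fin (d + 1) → ZMod p, (N b ^ 2 - ((M : ℤ) + 1) * N b + M) =
        ∑ b, N b ^ 2 - ((M : ℤ) + 1) * ((K : ℤ) * p ^ 2) + (K : ℤ) * p ^ 2 * M := by
      rw [Finset.sum_add_distrib, Finset.sum_sub_distrib, ← Finset.mul_sum,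
        Finset.sum_const, Finset.card_univ, card_V3 hd, Z1, nsmul_eq_mul, hK]
      push_cast; ring
    have hR : ∑ b : Fin (d + 1) → ZMod p,
        ((M : ℤ) * (if ∀ x, (Wr3 a b).eval x ≠ 0 then 1 else 0) +
        (p : ℤ) ^ 2 * (if Wr3 a b = 0 then 1 else 0)) = (M : ℤ) * #Z + (p : ℤ) ^ 2 *
          ((#{b : Fin (d + 1) → ZMod p | Wr3 a b = 0} : ℕ) : ℤ) := by
      rw [Finset.sum_add_distrib, ← Finset.mul_sum, ← Finset.mul_sum, Finset.sum_boole,
        Finset.sum_boole]
    rw [hL, hR] at h1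
    have h2 : ((#{b : Fin (d + 1) → ZMod p | Wr3 a b = 0} : ℕ) : ℤ) ≤ p := by exact_mod_cast hE
    have h3 : (p : ℤ) ^ 2 * ((#{b : Fin (d + 1) → ZMod p | Wr3 a b = 0} : ℕ) : ℤ) ≤
      (p : ℤ) ^ 2 * p := mul_le_mul_of_nonneg_left h2 (by positivity)
    linarith
  have S2 : #Z ≤ #{b : Fin (d + 1) → ZMod p | (∀ x, (Wr3 a b).eval x ≠ 0) ∧ li3 hd a b ≠ 0} +
      K * p := by
    rw [← hci]
    refine (Finset.card_le_card ?_).trans (Finset.card_union_le _ _)
    intro b hb
    have hb' := (Finset.mem_filter.1 hb).2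
    rw [Finset.mem_union]
    by_cases h : li3 hd a b = 0
    · right; exact Finset.mem_filter.2 ⟨Finset.mem_univ _, h⟩
    · left; exact Finset.mem_filter.2 ⟨Finset.mem_univ _, hb', h⟩
  set G := #{b : Fin (d + 1) → ZMod p | (∀ x, (Wr3 a b).eval x ≠ 0) ∧ li3 hd a b ≠ 0} with hG
  have S2' : (#Z : ℤ) ≤ G + K * p := by exact_mod_cast S2
  have hKp' : (p : ℤ) ^ 2 ≤ K := by exact_mod_cast hKp
  have hpM : 2 * (M : ℤ) + 4 ≤ p := by omega
  have hp1 : (0 : ℤ) < p := by exact_mod_cast hp0
  have hK0 : (0 : ℤ) ≤ K := by positivity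
  have T1 : (M : ℤ) * #Z ≤ M * G + M * (K * p) := by
    have := mul_le_mul_of_nonneg_left S2' (by linarith : (0 : ℤ) ≤ M)
    linarith
  have T2 : (p : ℤ) ^ 2 * p ≤ K * p := mul_le_mul_of_nonneg_right hKp' hp1.le
  have T3 : (K : ℤ) * p * (2 * (M : ℤ) + 4) ≤ K * p * p :=
    mul_le_mul_of_nonneg_left hpM (by positivity)
  have : (K : ℤ) * (p : ℤ) ^ 2 ≤ 2 * M * G := by nlinarith
  exact_mod_cast this

end count3

open Classical in
theorem count_three {d : ℕ} (hd : 3 ≤ d) : ∃ δ > (0 : ℝ), ∃ P₀ : ℕ, ∀ p : ℕ, p.Prime → P₀ ≤ p →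
    δ * (p : ℝ) ^ (2 * (d + 1)) ≤ (({c : Fin 2 → Fin (d + 1) → ZMod p |
      ∀ u : Fin 2 → ZMod p, u ≠ 0 → jac c u ≠ 0}.ncard : ℕ) : ℝ) := by
  have hM0 : (0 : ℝ) < 2 * (d : ℝ) - 1 := by
    have : (3 : ℝ) ≤ d := by exact_mod_cast hd
    linarith
  refine ⟨1 / (4 * (2 * (d : ℝ) - 1)), by positivity, 4 * d + 2, fun p hp hpd => ?_⟩
  haveI : Fact p.Prime := ⟨hp⟩
  have hp0 : 0 < p := hp.pos
  set K : ℕ := p ^ (d - 1) with hK
  set A : Finset (Fin (d + 1) → ZMod p) := {a | Fine3 hd a} with hA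
  set G : (Fin (d + 1) → ZMod p) → Finset (Fin (d + 1) → ZMod p) := fun a =>
    {b | (∀ x, (Wr3 a b).eval x ≠ 0) ∧ li3 hd a b ≠ 0} with hG
  have hAc : K * p ^ 2 ≤ 2 * #A := by
    have h1 : #A + #{a : Fin (d + 1) → ZMod p | ¬ Fine3 hd a} = K * p ^ 2 := by
      rw [hA, Finset.card_filter_add_card_filter_not, Finset.card_univ, card_V3 hd]
    have h2 : #{a : Fin (d + 1) → ZMod p | ¬ Fine3 hd a} ≤ (p + 1) * K :=
      card_notfine3 (p := p) hd
    have h3 : 2 * ((p + 1) * K) ≤ K * p ^ 2 := by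
      have : 2 * (p + 1) ≤ p ^ 2 := by nlinarith
      calc 2 * ((p + 1) * K) = K * (2 * (p + 1)) := by ring
        _ ≤ K * p ^ 2 := Nat.mul_le_mul_left _ this
    omega
  have hGc : ∀ a ∈ A, K * p ^ 2 ≤ 2 * (2 * d - 1) * #(G a) := fun a ha =>
    card_good3 hd hpd (Finset.mem_filter.1 ha).2
  have hsum : (K * p ^ 2) * (K * p ^ 2) ≤ 4 * (2 * d - 1) * #(A.sigma G) := by
    rw [Finset.card_sigma]
    calc (K * p ^ 2) * (K * p ^ 2) ≤ (2 * #A) * (K * p ^ 2) := Nat.mul_le_mul_right _ hAc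
      _ = 2 * ∑ a ∈ A, (K * p ^ 2) := by rw [Finset.sum_const, smul_eq_mul]; ring
      _ ≤ 2 * ∑ a ∈ A, 2 * (2 * d - 1) * #(G a) :=
        Nat.mul_le_mul_left _ (Finset.sum_le_sum hGc)
      _ = _ := by rw [← Finset.mul_sum]; ring
  have hinj : #(A.sigma G) ≤ ({c : Fin 2 → Fin (d + 1) → ZMod p |
      ∀ u : Fin 2 → ZMod p, u ≠ 0 → jac c u ≠ 0}.ncard : ℕ) := by
    rw [← Set.ncard_coe_finset]
    refine Set.ncard_le_ncard_of_injOn (fun s => ![s.1, s.2]) ?_ ?_ (Set.toFinite _)
    · rintro ⟨a, b⟩ hab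
      have hab' := Finset.mem_sigma.1 (Finset.mem_coe.1 hab)
      have hb := (Finset.mem_filter.1 hab'.2).2
      intro u hu
      by_cases h1 : u 1 = 0
      · rw [jac_inf3 (by omega) _ _ h1]
        have h0 : u 0 ≠ 0 := by
          intro h0
          apply hu
          funext k
          fin_cases k
          · exact h0
          · exact h1
        exact mul_ne_zero (pow_ne_zero _ h0) hb.2
      · have e : u = fun k => u 1 * (![u 0 / u 1, 1] : Fin 2 → ZMod p) k := by
          funext k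
          fin_cases k
          · simp [mul_div_cancel₀ _ h1]
          · simp
        rw [e, jac_smul3, jac_one3 _ _ (by simp)]
        exact mul_ne_zero (pow_ne_zero _ h1) (hb.1 _)
    · rintro ⟨a, b⟩ _ ⟨a', b'⟩ _ h
      have h0 := congrFun h 0
      have h1 := congrFun h 1
      simp only [Matrix.cons_val_zero, Matrix.cons_val_one] at h0 h1
      subst h0; subst h1; rfl
  have hfin : (K * p ^ 2) * (K * p ^ 2) ≤ 4 * (2 * d - 1) * ({c : Fin 2 → Fin (d + 1) → ZMod p |
      ∀ u : Fin 2 → ZMod p, u ≠ 0 → jac c u ≠ 0}.ncard : ℕ) :=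
    hsum.trans (Nat.mul_le_mul_left _ hinj)
  have hpow : (K * p ^ 2) * (K * p ^ 2) = p ^ (2 * (d + 1)) := by
    rw [hK, ← pow_add, ← pow_add]; congr 1; omega
  rw [hpow] at hfin
  have hfin' : (p : ℝ) ^ (2 * (d + 1)) ≤ 4 * (2 * (d : ℝ) - 1) *
      (({c : Fin 2 → Fin (d + 1) → ZMod p |
      ∀ u : Fin 2 → ZMod p, u ≠ 0 → jac c u ≠ 0}.ncard : ℕ) : ℝ) := by
    have h1 : ((2 * d - 1 : ℕ) : ℝ) = 2 * (d : ℝ) - 1 := by
      rw [Nat.cast_sub (by omega)]; push_cast; ring
    rw [← h1]
    exact_mod_cast hfin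
  rw [div_mul_eq_mul_div, one_mul, div_le_iff₀ (by positivity)]
  linarith

end Pool.Agent.Helper59.DML
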