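import Pool.Agent.Helper59.DML.Quad
import Pool.Agent.Helper59.DML.Count2

/-!
# DML-COUNTQ: positive proportion of pairs of quadratic forms modulo `p` with `quadRes` and `critRes`
both nonsquares

Notation: `F = ZMod p`, `p` odd and large, `c = (A, B)`, `A = c 0`, `B = c 1`, `R = quadRes c`, `T = critRes c`,
`w0, w1, w2, al, be, ga` as in Quad.lean. `F'` = a field with `p^2` elements containing `F` (`GaloisField p 2`), `q' = p^2`.
Let `X = {c : R(c) nonsquare}`, `Good = {c ∈ X : T(c) nonsquare}`.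

(1) `|X| ≥ δ p^6` by `count_two`: if `jac c u ≠ 0` for all `u ≠ 0` then `R(c)` is not a square (`quad_jac`, `disc_jac`: `w1^2 - 4 w0 w2 = 4 R`; if `4R = r^2`
then `w2 = jac c (1,0) ≠ 0` and `t = (-w1 + r)/(2 w2)` gives the zero `(t,1)`).
(2) for `g = (α, β; γ, δ') ∈ M_2(F)` put `g c = (α A + β B, γ A + δ' B)`. Identities (ring): `quadRes (g c) = det(g)^2 quadRes c`,
`wi (g c) = det(g) wi c`. Put `D(s,t) = al s^2 - be s t + ga t^2` (discriminant of `s A + t B`). For a root `x` of `w0 + w1 x + w2 x^2` in `F'` (`R` nonsquare, so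
`w2 ≠ 0`, the polynomial is irreducible over `F` and has the two roots `x ≠ x^p` in `F'`):
`T(c) = w2^2 δ(x) δ(x^p)`, `δ(x) = al + be x + ga x^2 = D(1, -x)`, and for `g c`: `δ_{gc}(x) = D(α - x γ, β - x δ')`
(the roots `x`, `x^p` are the same for `g c`). So `T(g c) = (det(g) w2)^2 N(D(s,t))`, `s = α - x γ`, `t = β - x δ'`, `N(y) = y y^p ∈ F`.
(3) for `y ∈ F'`, `y ≠ 0`: `N(y) = y^(p+1)` is a square in `F` iff `y` is a square in `F'` (Euler: `N(y)^((p-1)/2) = y^((p^2-1)/2)`); so `T(gc)` is a nonsquare iff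
`det g ≠ 0` and `D(s,t)` is a nonsquare of `F'`.
(4) `be^2 - 4 al ga = 16 R` (ring). `R` is a nonsquare of `F`, so `al ≠ 0`, and it is a square of `F'` (`R^((p^2-1)/2) = (R^(p-1))^((p+1)/2) = 1`), so
`D(s,t) = al (s - θ1 t)(s - θ2 t)` with `θ1 ≠ θ2` in `F'`. `(s,t) ↦ (s - θ1 t, s - θ2 t)` is a bijection of `F'^2`, and `g ↦ (s,t)` is a bijection `F^4 → F'^2`.
The number of `(Y,Z) ∈ F'^2` with `al Y Z` a nonsquare is `(q'-1)^2/2` (for every `Y ≠ 0` half of the `Z ≠ 0`). So the number of `g` with `det g ≠ 0` and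
`T(g c)` nonsquare is at least `(p^2-1)^2/2 - #{det g = 0} ≥ (p^2-1)^2/2 - 2 p^3 ≥ p^4/4` for large `p`.
(5) double counting: `|X| p^4/4 ≤ #{(g,c) : det g ≠ 0, c ∈ X, T(gc) nonsquare}`. For each invertible `g` the map `c ↦ g c` is injective from `X` to `X`, so
`#{c ∈ X : T(gc) nonsquare} ≤ |Good|`; hence `|X| p^4/4 ≤ p^4 |Good|`.
-/

set_option autoImplicit false

namespace Pool.Agent.Helper59.DML

open Finset

/-! ### the identity -/

private theorem brahm {R : Type*} [CommRing R] (r a b c d : R) :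
    (a ^ 2 - r * b ^ 2) * (c ^ 2 - r * d ^ 2) = (a * c + r * (b * d)) ^ 2 - r * (a * d + b * c) ^ 2 := by
  ring

private theorem key_UV {S : Type*} [CommRing S] (al be ga w0 w1 w2 R p q r s : S)
    (h1 : w1 ^ 2 - 4 * w0 * w2 = 4 * R) :
    (al * ((2 * w2 * p + w1 * r) ^ 2 + 4 * R * r ^ 2)
        - be * ((2 * w2 * p + w1 * r) * (2 * w2 * q + w1 * s) + 4 * R * r * s)
        + ga * ((2 * w2 * q + w1 * s) ^ 2 + 4 * R * s ^ 2)) ^ 2
      - R * (-4 * al * (2 * w2 * p + w1 * r) * r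
        + 2 * be * ((2 * w2 * p + w1 * r) * s + (2 * w2 * q + w1 * s) * r)
        - 4 * ga * (2 * w2 * q + w1 * s) * s) ^ 2 =
    16 * w2 ^ 2 * ((al * p ^ 2 - be * p * q + ga * q ^ 2) ^ 2 * w2 ^ 2
      - (al * p ^ 2 - be * p * q + ga * q ^ 2) *
          (-(2 * al * p * r - be * (p * s + q * r) + 2 * ga * q * s)) * w1 * w2
      + (al * p ^ 2 - be * p * q + ga * q ^ 2) * (al * r ^ 2 - be * r * s + ga * s ^ 2) *
          (w1 ^ 2 - 2 * w0 * w2)
      + (-(2 * al * p * r - be * (p * s + q * r) + 2 * ga * q * s)) ^ 2 * w0 * w2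
      - (-(2 * al * p * r - be * (p * s + q * r) + 2 * ga * q * s)) *
          (al * r ^ 2 - be * r * s + ga * s ^ 2) * w0 * w1
      + (al * r ^ 2 - be * r * s + ga * s ^ 2) ^ 2 * w0 ^ 2) := by
  linear_combination (4 * al ^ 2 * w0 * w2 * r ^ 4 + 1 * al ^ 2 * w1 ^ 2 * r ^ 4 + 8 * al ^ 2 * w1 * w2 * p * r ^ 3 + 8 * al ^ 2 * w2 ^ 2 * p ^ 2 * r ^ 2 - 4 * al ^ 2 * R * r ^ 4 - 8 * al * be * w0 * w2 * r ^ 3 * s - 2 * al * be * w1 ^ 2 * r ^ 3 * s - 12 * al * be * w1 * w2 * p * r ^ 2 * s - 4 * al * be * w1 * w2 * q * r ^ 3 - 8 * al * be * w2 ^ 2 * p ^ 2 * r * s - 8 * al * be * w2 ^ 2 * p * q * r ^ 2 + 8 * al * be * R * r ^ 3 * s + 8 * al * ga * w0 * w2 * r ^ 2 * s ^ 2 + 2 * al * ga * w1 ^ 2 * r ^ 2 * s ^ 2 + 8 * al * ga * w1 * w2 * p * r * s ^ 2 + 8 * al * ga * w1 * w2 * q * r ^ 2 * s - 8 * al * ga * w2 ^ 2 * p ^ 2 * s ^ 2 + 32 * al * ga * w2 ^ 2 * p * q * r * s - 8 * al * ga * w2 ^ 2 * q ^ 2 * r ^ 2 - 8 * al * ga * R * r ^ 2 *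 s ^ 2 + 4 * be ^ 2 * w0 * w2 * r ^ 2 * s ^ 2 + 1 * be ^ 2 * w1 ^ 2 * r ^ 2 * s ^ 2 + 4 * be ^ 2 * w1 * w2 * p * r * s ^ 2 + 4 * be ^ 2 * w1 * w2 * q * r ^ 2 * s + 4 * be ^ 2 * w2 ^ 2 * p ^ 2 * s ^ 2 + 4 * be ^ 2 * w2 ^ 2 * q ^ 2 * r ^ 2 - 4 * be ^ 2 * R * r ^ 2 * s ^ 2 - 8 * be * ga * w0 * w2 * r * s ^ 3 - 2 * be * ga * w1 ^ 2 * r * s ^ 3 - 4 * be * ga * w1 * w2 * p * s ^ 3 - 12 * be * ga * w1 * w2 * q * r * s ^ 2 - 8 * be * ga * w2 ^ 2 * p * q * s ^ 2 - 8 * be * ga * w2 ^ 2 * q ^ 2 * r * s + 8 * be * ga * R * r * s ^ 3 + 4 * ga ^ 2 * w0 * w2 * s ^ 4 + 1 * ga ^ 2 * w1 ^ 2 * s ^ 4 + 8 * ga ^ 2 * w1 * w2 * q * s ^ 3 + 8 * ga ^ 2 * w2 ^ 2 * q ^ 2 * s ^ 2 - 4 * ga ^ 2 * R * s ^ 4) * h1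

private theorem key_P {S : Type*} [CommRing S] (al be ga w1 w2 R p q r s : S)
    (h2 : be ^ 2 - 4 * al * ga = 16 * R) :
    (4 * al * w2 * p + 2 * al * w1 * r - 2 * be * w2 * q - be * w1 * s + 8 * R * s) *
      (4 * al * w2 * p + 2 * al * w1 * r - 2 * be * w2 * q - be * w1 * s - 8 * R * s) +
      R * ((-4 * al * r + 2 * be * s - 8 * w2 * q - 4 * w1 * s) *
        (-4 * al * r + 2 * be * s + 8 * w2 * q + 4 * w1 * s)) =
    4 * al * (al * ((2 * w2 * p + w1 * r) ^ 2 + 4 * R * r ^ 2)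
        - be * ((2 * w2 * p + w1 * r) * (2 * w2 * q + w1 * s) + 4 * R * r * s)
        + ga * ((2 * w2 * q + w1 * s) ^ 2 + 4 * R * s ^ 2)) := by
  linear_combination (w1 ^ 2 * s ^ 2 + 4 * w1 * w2 * q * s + 4 * w2 ^ 2 * q ^ 2 + 4 * R * s ^ 2) * h2

private theorem key_Q {S : Type*} [CommRing S] (al be ga w1 w2 R p q r s : S)
    (h2 : be ^ 2 - 4 * al * ga = 16 * R) :
    (4 * al * w2 * p + 2 * al * w1 * r - 2 * be * w2 * q - be * w1 * s + 8 * R * s) *
      (-4 * al * r + 2 * be * s + 8 * w2 * q + 4 * w1 * s) +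
      (-4 * al * r + 2 * be * s - 8 * w2 * q - 4 * w1 * s) *
      (4 * al * w2 * p + 2 * al * w1 * r - 2 * be * w2 * q - be * w1 * s - 8 * R * s) =
    4 * al * (-4 * al * (2 * w2 * p + w1 * r) * r
        + 2 * be * ((2 * w2 * p + w1 * r) * s + (2 * w2 * q + w1 * s) * r)
        - 4 * ga * (2 * w2 * q + w1 * s) * s) := by
  linear_combination (-4 * w1 * s ^ 2 - 8 * w2 * q * s) * h2

section act

variable {S : Type*} [CommRing S]

private def actQ (g : (S × S) × (S × S)) (c : Fin 2 → Fin 3 → S) : Fin 2 → Fin 3 → S :=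
  fun b j => if b = 0 then g.1.1 * c 0 j + g.1.2 * c 1 j else g.2.1 * c 0 j + g.2.2 * c 1 j

private def dQ (g : (S × S) × (S × S)) : S := g.1.1 * g.2.2 - g.1.2 * g.2.1

private def nQ (R : S) (y : S × S) : S := y.1 ^ 2 - R * y.2 ^ 2

private def phQ (c : Fin 2 → Fin 3 → S) (g : (S × S) × (S × S)) : (S × S) × (S × S) :=
  ((4 * al c * w2 c * g.1.1 + 2 * al c * w1 c * g.2.1 - 2 * be c * w2 c * g.1.2 - be c * w1 c * g.2.2
      + 8 * quadRes c * g.2.2,
    -4 * al c * g.2.1 + 2 * be c * g.2.2 - 8 * w2 c * g.1.2 - 4 * w1 c * g.2.2),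
   (4 * al c * w2 c * g.1.1 + 2 * al c * w1 c * g.2.1 - 2 * be c * w2 c * g.1.2 - be c * w1 c * g.2.2
      - 8 * quadRes c * g.2.2,
    -4 * al c * g.2.1 + 2 * be c * g.2.2 + 8 * w2 c * g.1.2 + 4 * w1 c * g.2.2))

private theorem quadRes_act (g : (S × S) × (S × S)) (c : Fin 2 → Fin 3 → S) :
    quadRes (actQ g c) = dQ g ^ 2 * quadRes c := by
  simp only [quadRes, actQ, dQ, if_true, one_ne_zero, if_false]
  ring

private theorem w0_act (g : (S × S) × (S × S)) (c : Fin 2 → Fin 3 → S) :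
    w0 (actQ g c) = dQ g * w0 c := by
  simp only [w0, actQ, dQ, if_true, one_ne_zero, if_false]
  ring

private theorem w1_act (g : (S × S) × (S × S)) (c : Fin 2 → Fin 3 → S) :
    w1 (actQ g c) = dQ g * w1 c := by
  simp only [w1, actQ, dQ, if_true, one_ne_zero, if_false]
  ring

private theorem w2_act (g : (S × S) × (S × S)) (c : Fin 2 → Fin 3 → S) :
    w2 (actQ g c) = dQ g * w2 c := by
  simp only [w2, actQ, dQ, if_true, one_ne_zero, if_false]
  ring

private theorem al_act (g : (S × S) × (S × S)) (c : Fin 2 → Fin 3 → S) :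
    al (actQ g c) = al c * g.1.1 ^ 2 - be c * g.1.1 * g.1.2 + ga c * g.1.2 ^ 2 := by
  simp only [al, be, ga, actQ, if_true, one_ne_zero, if_false]
  ring

private theorem ga_act (g : (S × S) × (S × S)) (c : Fin 2 → Fin 3 → S) :
    ga (actQ g c) = al c * g.2.1 ^ 2 - be c * g.2.1 * g.2.2 + ga c * g.2.2 ^ 2 := by
  simp only [al, be, ga, actQ, if_true, one_ne_zero, if_false]
  ring

private theorem be_act (g : (S × S) × (S × S)) (c : Fin 2 → Fin 3 → S) :
    be (actQ g c) = -(2 * al c * g.1.1 * g.2.1 - be c * (g.1.1 * g.2.2 + g.1.2 * g.2.1) +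
      2 * ga c * g.1.2 * g.2.2) := by
  simp only [al, be, ga, actQ, if_true, one_ne_zero, if_false]
  ring

private theorem disc_be (c : Fin 2 → Fin 3 → S) : be c ^ 2 - 4 * al c * ga c = 16 * quadRes c := by
  simp only [al, be, ga, quadRes]
  ring

private theorem crit_act (g : (S × S) × (S × S)) (c : Fin 2 → Fin 3 → S) :
    critRes (actQ g c) * (16 * al c * w2 c) ^ 2 =
      dQ g ^ 2 * (nQ (quadRes c) (phQ c g).1 * nQ (quadRes c) (phQ c g).2) := by
  have hUV := key_UV (al c) (be c) (ga c) (w0 c) (w1 c) (w2 c) (quadRes c) g.1.1 g.1.2 g.2.1 g.2.2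
    (disc_jac c)
  have hP := key_P (al c) (be c) (ga c) (w1 c) (w2 c) (quadRes c) g.1.1 g.1.2 g.2.1 g.2.2 (disc_be c)
  have hQ := key_Q (al c) (be c) (ga c) (w1 c) (w2 c) (quadRes c) g.1.1 g.1.2 g.2.1 g.2.2 (disc_be c)
  have hN : nQ (quadRes c) (phQ c g).1 * nQ (quadRes c) (phQ c g).2 =
      16 * al c ^ 2 * ((al c * ((2 * w2 c * g.1.1 + w1 c * g.2.1) ^ 2 + 4 * quadRes c * g.2.1 ^ 2)
        - be c * ((2 * w2 c * g.1.1 + w1 c * g.2.1) * (2 * w2 c * g.1.2 + w1 c * g.2.2) +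
            4 * quadRes c * g.2.1 * g.2.2)
        + ga c * ((2 * w2 c * g.1.2 + w1 c * g.2.2) ^ 2 + 4 * quadRes c * g.2.2 ^ 2)) ^ 2
      - quadRes c * (-4 * al c * (2 * w2 c * g.1.1 + w1 c * g.2.1) * g.2.1
        + 2 * be c * ((2 * w2 c * g.1.1 + w1 c * g.2.1) * g.2.2 +
            (2 * w2 c * g.1.2 + w1 c * g.2.2) * g.2.1)
        - 4 * ga c * (2 * w2 c * g.1.2 + w1 c * g.2.2) * g.2.2) ^ 2) := by
    rw [nQ, nQ, brahm]
    simp only [phQ]
    rw [hP, hQ]
    rw [mul_pow, mul_pow, mul_pow]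
    ring
  rw [hN, hUV]
  rw [critRes, al_act, be_act, ga_act, w0_act, w1_act, w2_act]
  generalize al c * g.1.1 ^ 2 - be c * g.1.1 * g.1.2 + ga c * g.1.2 ^ 2 = A
  generalize -(2 * al c * g.1.1 * g.2.1 - be c * (g.1.1 * g.2.2 + g.1.2 * g.2.1) +
      2 * ga c * g.1.2 * g.2.2) = B
  generalize al c * g.2.1 ^ 2 - be c * g.2.1 * g.2.2 + ga c * g.2.2 ^ 2 = C
  generalize dQ g = D
  ring

end act

/-! ### counting values of the norm form -/

section count

variable {p : ℕ} [Fact p.Prime]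

private theorem exists_nsq (R : ZMod p) (hR : ¬ IsSquare R) : ∃ a : ZMod p, ¬ IsSquare (a ^ 2 - R) := by
  by_contra hcon
  push Not at hcon
  have h1 : ∀ k : ℕ, IsSquare (-((k : ZMod p) * R)) := by
    intro k
    induction k with
    | zero => simp
    | succ k ih =>
      obtain ⟨y, hy⟩ := ih
      have := hcon y
      have h2 : y ^ 2 - R = -(((k + 1 : ℕ) : ZMod p) * R) := by
        push_cast
        rw [sq, ← hy]; ring
      rwa [h2] at this
  apply hR
  have h2 := h1 (p - 1)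
  have h3 : ((p - 1 : ℕ) : ZMod p) = -1 := by
    have hp1 : 1 ≤ p := (Fact.out : p.Prime).one_le
    rw [Nat.cast_sub hp1, Nat.cast_one, ZMod.natCast_self]; ring
  rw [h3] at h2
  simpa using h2

private theorem nsq_mul_nsq {a b : ZMod p} (hp2 : p ≠ 2) (ha : ¬ IsSquare a) (hb : ¬ IsSquare b) :
    IsSquare (a * b) := by
  have hchar : ringChar (ZMod p) ≠ 2 := by rwa [ZMod.ringChar_zmod_n]
  have h1 := (quadraticChar_neg_one_iff_not_isSquare (F := ZMod p) (a := a)).2 ha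
  have h2 := (quadraticChar_neg_one_iff_not_isSquare (F := ZMod p) (a := b)).2 hb
  have h0 : a * b ≠ 0 := by
    intro h
    rcases mul_eq_zero.1 h with h | h
    · exact ha (h ▸ ⟨0, by simp⟩)
    · exact hb (h ▸ ⟨0, by simp⟩)
  refine (quadraticChar_one_iff_isSquare h0).1 ?_
  rw [map_mul, h1, h2]; norm_num

private theorem sq_mul_nsq {a b : ZMod p} (ha0 : a ≠ 0) (ha : IsSquare a) (hb : ¬ IsSquare b) :
    ¬ IsSquare (a * b) := by
  rintro ⟨c, hc⟩
  obtain ⟨d, rfl⟩ := ha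
  have hd : d ≠ 0 := fun h => ha0 (by rw [h, mul_zero])
  apply hb
  refine ⟨c / d, ?_⟩
  field_simp
  linear_combination hc

open scoped Classical in
private noncomputable def Mm (R : ZMod p) : Finset (ZMod p × ZMod p) :=
  univ.filter fun y => ¬ IsSquare (nQ R y)

open scoped Classical in
private noncomputable def Mp (R : ZMod p) : Finset (ZMod p × ZMod p) :=
  univ.filter fun y => nQ R y ≠ 0 ∧ IsSquare (nQ R y)

private theorem nQ_zero (R : ZMod p) (hR : ¬ IsSquare R) (y : ZMod p × ZMod p) (h : nQ R y = 0) :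
    y = 0 := by
  have h2 : y.2 = 0 := by
    by_contra h2
    apply hR
    refine ⟨y.1 / y.2, ?_⟩
    rw [nQ] at h
    field_simp
    linear_combination -h
  have h1 : y.1 = 0 := by
    rw [nQ, h2] at h
    have : y.1 ^ 2 = 0 := by linear_combination h
    exact pow_eq_zero_iff (two_ne_zero) |>.1 this
  exact Prod.ext h1 h2

private theorem card_sum (R : ZMod p) (hR : ¬ IsSquare R) : (Mp R).card + (Mm R).card + 1 = p ^ 2 := by
  classical
  have h1 : Disjoint (Mp R) (Mm R) := by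
    rw [Finset.disjoint_left]
    intro y hy hy'
    simp only [Mp, Mm, mem_filter] at hy hy'
    exact hy'.2 hy.2.2
  have h2 : (0 : ZMod p × ZMod p) ∉ Mp R ∪ Mm R := by
    simp [Mp, Mm, nQ]
  have h3 : insert (0 : ZMod p × ZMod p) (Mp R ∪ Mm R) = univ := by
    ext y
    simp only [mem_insert, mem_union, Mp, Mm, mem_filter, mem_univ, true_and, iff_true]
    by_cases hy : nQ R y = 0
    · exact Or.inl (nQ_zero R hR y hy)
    · by_cases hs : IsSquare (nQ R y)
      · exact Or.inr (Or.inl ⟨hy, hs⟩)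
      · exact Or.inr (Or.inr hs)
  have h4 := congrArg Finset.card h3
  rw [card_insert_of_notMem h2, card_union_of_disjoint h1, card_univ, Fintype.card_prod, ZMod.card] at h4
  rw [h4, sq]

private def mQ (R : ZMod p) (x y : ZMod p × ZMod p) : ZMod p × ZMod p :=
  (x.1 * y.1 + R * (x.2 * y.2), x.1 * y.2 + x.2 * y.1)

private theorem nQ_mQ (R : ZMod p) (x y : ZMod p × ZMod p) : nQ R (mQ R x y) = nQ R x * nQ R y := by
  simp only [nQ, mQ]; ring

private theorem mQ_inj (R : ZMod p) (x : ZMod p × ZMod p) (hx : nQ R x ≠ 0) :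
    Function.Injective (mQ R x) := by
  intro y z h
  have h1 := congrArg Prod.fst h
  have h2 := congrArg Prod.snd h
  simp only [mQ] at h1 h2
  rw [nQ] at hx
  refine Prod.ext ?_ ?_
  · apply mul_left_cancel₀ hx
    linear_combination x.1 * h1 - R * x.2 * h2
  · apply mul_left_cancel₀ hx
    linear_combination x.1 * h2 - x.2 * h1

private theorem card_eq (R : ZMod p) (hp2 : p ≠ 2) (hR : ¬ IsSquare R) :
    (Mp R).card = (Mm R).card := by
  classical
  obtain ⟨a, ha⟩ := exists_nsq R hR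
  have ha' : ¬ IsSquare (nQ R (a, 1)) := by simpa [nQ] using ha
  have h0 : nQ R (a, 1) ≠ 0 := fun h => ha' (h ▸ ⟨0, by simp⟩)
  apply le_antisymm
  · refine Finset.card_le_card_of_injOn (mQ R (a, 1)) ?_ ((mQ_inj R _ h0).injOn)
    intro y hy
    simp only [Mp, Mm, coe_filter, mem_univ, true_and, Set.mem_setOf_eq] at hy ⊢
    rw [nQ_mQ, mul_comm]
    exact sq_mul_nsq hy.1 hy.2 ha'
  · refine Finset.card_le_card_of_injOn (mQ R (a, 1)) ?_ ((mQ_inj R _ h0).injOn)
    intro y hy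
    simp only [Mp, Mm, coe_filter, mem_univ, true_and, Set.mem_setOf_eq] at hy ⊢
    rw [nQ_mQ]
    refine ⟨mul_ne_zero h0 (fun h => hy (h ▸ ⟨0, by simp⟩)), nsq_mul_nsq hp2 ha' hy⟩

open scoped Classical in
private theorem card_NN (R : ZMod p) (hp2 : p ≠ 2) (hR : ¬ IsSquare R) :
    (p ^ 2 - 1) ^ 2 ≤ 2 * (univ.filter fun y : (ZMod p × ZMod p) × (ZMod p × ZMod p) =>
      ¬ IsSquare (nQ R y.1 * nQ R y.2)).card := by
  have h1 := card_sum R hR
  have h2 := card_eq R hp2 hR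
  have hsub : (Mp R ×ˢ Mm R) ∪ (Mm R ×ˢ Mp R) ⊆
      (univ.filter fun y : (ZMod p × ZMod p) × (ZMod p × ZMod p) =>
        ¬ IsSquare (nQ R y.1 * nQ R y.2)) := by
    intro y hy
    rw [mem_union, mem_product, mem_product] at hy
    simp only [Mp, Mm, mem_filter, mem_univ, true_and] at hy ⊢
    rcases hy with hy | hy
    · exact sq_mul_nsq hy.1.1 hy.1.2 hy.2
    · rw [mul_comm]
      exact sq_mul_nsq hy.2.1 hy.2.2 hy.1
  have hdis : Disjoint (Mp R ×ˢ Mm R) (Mm R ×ˢ Mp R) := by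
    rw [Finset.disjoint_left]
    intro y hy hy'
    rw [mem_product] at hy hy'
    simp only [Mp, Mm, mem_filter, mem_univ, true_and] at hy hy'
    exact hy'.1 hy.1.2
  have h3 := card_le_card hsub
  rw [card_union_of_disjoint hdis, card_product, card_product, h2] at h3
  rw [h2] at h1
  have h4 : p ^ 2 - 1 = 2 * (Mm R).card := by omega
  rw [h4]
  nlinarith [h3]

private theorem phQ_inj (c : Fin 2 → Fin 3 → ZMod p) (h2 : (2 : ZMod p) ≠ 0) (hR : quadRes c ≠ 0)
    (hal : al c ≠ 0) (hw : w2 c ≠ 0) : Function.Injective (phQ c) := by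
  intro g g' h
  have e1 := congrArg (fun y : (ZMod p × ZMod p) × (ZMod p × ZMod p) => y.1.1) h
  have e2 := congrArg (fun y : (ZMod p × ZMod p) × (ZMod p × ZMod p) => y.1.2) h
  have e3 := congrArg (fun y : (ZMod p × ZMod p) × (ZMod p × ZMod p) => y.2.1) h
  have e4 := congrArg (fun y : (ZMod p × ZMod p) × (ZMod p × ZMod p) => y.2.2) h
  simp only [phQ] at e1 e2 e3 e4
  have h16 : (2 : ZMod p) ^ 4 ≠ 0 := pow_ne_zero _ h2
  have h8 : (2 : ZMod p) ^ 3 ≠ 0 := pow_ne_zero _ h2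
  have f1 : g.2.2 = g'.2.2 := by
    apply mul_left_cancel₀ (mul_ne_zero h16 hR)
    linear_combination e1 - e3
  have f2 : g.2.1 = g'.2.1 := by
    apply mul_left_cancel₀ (mul_ne_zero h8 hal)
    linear_combination 4 * be c * f1 - e2 - e4
  have f3 : g.1.2 = g'.1.2 := by
    apply mul_left_cancel₀ (mul_ne_zero h16 hw)
    linear_combination e4 - e2 - 8 * w1 c * f1
  have f4 : g.1.1 = g'.1.1 := by
    apply mul_left_cancel₀ (mul_ne_zero h8 (mul_ne_zero hal hw))
    linear_combination e1 + e3 - 4 * al c * w1 c * f2 + 4 * be c * w2 c * f3 + 2 * be c * w1 c * f1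
  exact Prod.ext (Prod.ext f4 f3) (Prod.ext f2 f1)

open scoped Classical in
private theorem card_det :
    (univ.filter fun g : (ZMod p × ZMod p) × (ZMod p × ZMod p) => dQ g = 0).card ≤ p ^ 3 + 2 * p ^ 2 := by
  have hsub : (univ.filter fun g : (ZMod p × ZMod p) × (ZMod p × ZMod p) => dQ g = 0) ⊆
      (univ.image fun x : ZMod p × ZMod p × ZMod p => ((x.1, x.2.1), (x.2.2, x.1⁻¹ * (x.2.1 * x.2.2)))) ∪
      ((univ.image fun x : ZMod p × ZMod p => (((0 : ZMod p), (0 : ZMod p)), x)) ∪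
       (univ.image fun x : ZMod p × ZMod p => (((0 : ZMod p), x.1), ((0 : ZMod p), x.2)))) := by
    intro g hg
    rw [mem_filter] at hg
    have hd := hg.2
    rw [dQ] at hd
    rw [mem_union, mem_union]
    by_cases h : g.1.1 = 0
    · right
      have hd' : g.1.2 * g.2.1 = 0 := by rw [h] at hd; linear_combination -hd
      rcases mul_eq_zero.1 hd' with h' | h'
      · left
        rw [mem_image]
        exact ⟨g.2, mem_univ _, Prod.ext (Prod.ext h.symm h'.symm) rfl⟩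
      · right
        rw [mem_image]
        exact ⟨(g.1.2, g.2.2), mem_univ _, Prod.ext (Prod.ext h.symm rfl) (Prod.ext h'.symm rfl)⟩
    · left
      rw [mem_image]
      refine ⟨(g.1.1, g.1.2, g.2.1), mem_univ _, Prod.ext (Prod.ext rfl rfl) (Prod.ext rfl ?_)⟩
      show g.1.1⁻¹ * (g.1.2 * g.2.1) = g.2.2
      field_simp
      linear_combination -hd
  refine (card_le_card hsub).trans ?_
  refine (card_union_le _ _).trans ?_
  have i1 := card_image_le (s := (univ : Finset (ZMod p × ZMod p × ZMod p)))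
    (f := fun x : ZMod p × ZMod p × ZMod p => ((x.1, x.2.1), (x.2.2, x.1⁻¹ * (x.2.1 * x.2.2))))
  have i2 := card_image_le (s := (univ : Finset (ZMod p × ZMod p)))
    (f := fun x : ZMod p × ZMod p => (((0 : ZMod p), (0 : ZMod p)), x))
  have i3 := card_image_le (s := (univ : Finset (ZMod p × ZMod p)))
    (f := fun x : ZMod p × ZMod p => (((0 : ZMod p), x.1), ((0 : ZMod p), x.2)))
  have i4 := card_union_le (univ.image fun x : ZMod p × ZMod p => (((0 : ZMod p), (0 : ZMod p)), x))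
    (univ.image fun x : ZMod p × ZMod p => (((0 : ZMod p), x.1), ((0 : ZMod p), x.2)))
  simp only [card_univ, Fintype.card_prod, ZMod.card] at i1 i2 i3
  have e1 : p * (p * p) = p ^ 3 := by ring
  have e2 : p * p = p ^ 2 := by ring
  rw [e1] at i1
  rw [e2] at i2 i3
  omega

open scoped Classical in
private theorem card_g (c : Fin 2 → Fin 3 → ZMod p) (hp : 20 ≤ p) (hR : ¬ IsSquare (quadRes c)) :
    p ^ 4 ≤ 4 * (univ.filter fun g : (ZMod p × ZMod p) × (ZMod p × ZMod p) =>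
      dQ g ≠ 0 ∧ ¬ IsSquare (critRes (actQ g c))).card := by
  have hp2 : p ≠ 2 := by omega
  have h2 : (2 : ZMod p) ≠ 0 := by
    intro h
    have h1 : ((2 : ℕ) : ZMod p) = 0 := by exact_mod_cast h
    rw [ZMod.natCast_eq_zero_iff] at h1
    have := Nat.le_of_dvd (by norm_num) h1
    omega
  have hR0 : quadRes c ≠ 0 := fun h => hR (h ▸ ⟨0, by simp⟩)
  have hw : w2 c ≠ 0 := by
    intro h
    have h1 := disc_jac c
    rw [h] at h1
    apply hR
    refine ⟨w1 c / 2, ?_⟩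
    field_simp
    linear_combination -h1
  have hal : al c ≠ 0 := by
    intro h
    have h1 := disc_be c
    rw [h] at h1
    apply hR
    refine ⟨be c / (2 * 2), ?_⟩
    field_simp
    linear_combination -h1
  have hinj := phQ_inj c h2 hR0 hal hw
  have hbij : Function.Bijective (phQ c) := (Finite.injective_iff_bijective).1 hinj
  -- the preimage
  have hpre : (univ.filter fun g : (ZMod p × ZMod p) × (ZMod p × ZMod p) =>
      ¬ IsSquare (nQ (quadRes c) (phQ c g).1 * nQ (quadRes c) (phQ c g).2)).card =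
      (univ.filter fun y : (ZMod p × ZMod p) × (ZMod p × ZMod p) =>
      ¬ IsSquare (nQ (quadRes c) y.1 * nQ (quadRes c) y.2)).card := by
    refine Finset.card_bij (fun g _ => phQ c g) ?_ ?_ ?_
    · intro g hg
      rw [mem_filter] at hg ⊢
      exact ⟨mem_univ _, hg.2⟩
    · intro a _ b _ h
      exact hinj h
    · intro y hy
      obtain ⟨g, rfl⟩ := hbij.2 y
      rw [mem_filter] at hy
      exact ⟨g, mem_filter.2 ⟨mem_univ _, hy.2⟩, rfl⟩
  have hN := card_NN (quadRes c) hp2 hR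
  rw [← hpre] at hN
  have hsub : (univ.filter fun g : (ZMod p × ZMod p) × (ZMod p × ZMod p) =>
      ¬ IsSquare (nQ (quadRes c) (phQ c g).1 * nQ (quadRes c) (phQ c g).2)) ⊆
      (univ.filter fun g : (ZMod p × ZMod p) × (ZMod p × ZMod p) =>
        dQ g ≠ 0 ∧ ¬ IsSquare (critRes (actQ g c))) ∪
      (univ.filter fun g : (ZMod p × ZMod p) × (ZMod p × ZMod p) => dQ g = 0) := by
    intro g hg
    rw [mem_filter] at hg
    rw [mem_union, mem_filter, mem_filter]
    by_cases hd : dQ g = 0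
    · exact Or.inr ⟨mem_univ _, hd⟩
    · refine Or.inl ⟨mem_univ _, hd, ?_⟩
      rintro ⟨k, hk⟩
      apply hg.2
      have h1 := crit_act g c
      refine ⟨k * (16 * al c * w2 c) / dQ g, ?_⟩
      rw [hk] at h1
      field_simp
      linear_combination -h1
  have h3 := (card_le_card hsub).trans (card_union_le _ _)
  have h4 := card_det (p := p)
  obtain ⟨a, ha⟩ : ∃ a, a = (univ.filter fun g : (ZMod p × ZMod p) × (ZMod p × ZMod p) =>
      dQ g ≠ 0 ∧ ¬ IsSquare (critRes (actQ g c))).card := ⟨_, rfl⟩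
  rw [← ha] at h3 ⊢
  have h5 : (p ^ 2 - 1) ^ 2 ≤ 2 * (a + (p ^ 3 + 2 * p ^ 2)) := by omega
  have h6 : (1 : ℤ) ≤ (p : ℤ) ^ 2 := by
    have : 1 ≤ p ^ 2 := Nat.one_le_pow _ _ (by omega)
    exact_mod_cast this
  zify at h5 ⊢
  rw [Nat.cast_sub (by have : 1 ≤ p ^ 2 := Nat.one_le_pow _ _ (by omega)
                       exact this)] at h5
  push_cast at h5
  have h7 : (20 : ℤ) ≤ p := by exact_mod_cast hp
  nlinarith [mul_le_mul h7 h7 (by norm_num) (by linarith), pow_pos (by linarith : (0 : ℤ) < p) 2,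
    pow_pos (by linarith : (0 : ℤ) < p) 3, mul_nonneg (pow_nonneg (by linarith : (0 : ℤ) ≤ p) 3) (sub_nonneg.2 h7),
    mul_nonneg (pow_nonneg (by linarith : (0 : ℤ) ≤ p) 2) (sub_nonneg.2 h7)]

private theorem actQ_inj (g : (ZMod p × ZMod p) × (ZMod p × ZMod p)) (hg : dQ g ≠ 0) :
    Function.Injective (actQ g) := by
  intro c c' h
  rw [dQ] at hg
  have h0 : ∀ j, g.1.1 * c 0 j + g.1.2 * c 1 j = g.1.1 * c' 0 j + g.1.2 * c' 1 j := by
    intro j
    have := congrFun (congrFun h 0) j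
    simpa [actQ] using this
  have h1 : ∀ j, g.2.1 * c 0 j + g.2.2 * c 1 j = g.2.1 * c' 0 j + g.2.2 * c' 1 j := by
    intro j
    have := congrFun (congrFun h 1) j
    simpa [actQ] using this
  funext b j
  fin_cases b
  · apply mul_left_cancel₀ hg
    show _ * c 0 j = _ * c' 0 j
    linear_combination g.2.2 * h0 j - g.1.2 * h1 j
  · apply mul_left_cancel₀ hg
    show _ * c 1 j = _ * c' 1 j
    linear_combination g.1.1 * h1 j - g.2.1 * h0 j

open scoped Classical in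
private theorem double (hp : 20 ≤ p) :
    (univ.filter fun c : Fin 2 → Fin 3 → ZMod p => ¬ IsSquare (quadRes c)).card ≤
      4 * (univ.filter fun c : Fin 2 → Fin 3 → ZMod p =>
        ¬ IsSquare (quadRes c) ∧ ¬ IsSquare (critRes c)).card := by
  set X := univ.filter fun c : Fin 2 → Fin 3 → ZMod p => ¬ IsSquare (quadRes c) with hX
  set Gd := univ.filter fun c : Fin 2 → Fin 3 → ZMod p =>
        ¬ IsSquare (quadRes c) ∧ ¬ IsSquare (critRes c) with hGd
  have h1 : ∑ c ∈ X, p ^ 4 ≤ ∑ c ∈ X, 4 * (univ.filter fun g : (ZMod p × ZMod p) × (ZMod p × ZMod p) =>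
      dQ g ≠ 0 ∧ ¬ IsSquare (critRes (actQ g c))).card := by
    refine sum_le_sum fun c hc => card_g c hp ?_
    rw [hX, mem_filter] at hc
    exact hc.2
  rw [sum_const, smul_eq_mul, ← mul_sum] at h1
  have h2 : ∑ c ∈ X, (univ.filter fun g : (ZMod p × ZMod p) × (ZMod p × ZMod p) =>
      dQ g ≠ 0 ∧ ¬ IsSquare (critRes (actQ g c))).card =
      ∑ g : (ZMod p × ZMod p) × (ZMod p × ZMod p), (X.filter fun c =>
        dQ g ≠ 0 ∧ ¬ IsSquare (critRes (actQ g c))).card := by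
    simp only [card_filter]
    rw [sum_comm]
  have h3 : ∀ g : (ZMod p × ZMod p) × (ZMod p × ZMod p), (X.filter fun c =>
        dQ g ≠ 0 ∧ ¬ IsSquare (critRes (actQ g c))).card ≤ Gd.card := by
    intro g
    by_cases hg : dQ g = 0
    · have : (X.filter fun c => dQ g ≠ 0 ∧ ¬ IsSquare (critRes (actQ g c))) = ∅ := by
        rw [filter_eq_empty_iff]
        intro c _ h
        exact h.1 hg
      rw [this, card_empty]
      exact Nat.zero_le _
    · refine card_le_card_of_injOn (actQ g) ?_ (actQ_inj g hg).injOn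
      intro c hc
      rw [mem_coe, mem_filter, hX, mem_filter] at hc
      rw [mem_coe, hGd, mem_filter]
      refine ⟨mem_univ _, ?_, hc.2.2⟩
      rw [quadRes_act]
      exact sq_mul_nsq (pow_ne_zero _ hg) ⟨dQ g, sq _⟩ hc.1.2
  have h4 : ∑ g : (ZMod p × ZMod p) × (ZMod p × ZMod p), (X.filter fun c =>
        dQ g ≠ 0 ∧ ¬ IsSquare (critRes (actQ g c))).card ≤ p ^ 4 * Gd.card := by
    refine (sum_le_sum fun g _ => h3 g).trans ?_
    rw [sum_const, smul_eq_mul, card_univ, Fintype.card_prod, Fintype.card_prod, ZMod.card]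
    exact le_of_eq (by ring)
  have h5 : X.card * p ^ 4 ≤ 4 * Gd.card * p ^ 4 := by
    rw [h2] at h1
    calc X.card * p ^ 4 ≤ 4 * _ := h1
      _ ≤ 4 * (p ^ 4 * Gd.card) := Nat.mul_le_mul_left _ h4
      _ = 4 * Gd.card * p ^ 4 := by ring
  exact Nat.le_of_mul_le_mul_right h5 (by positivity)

end count

theorem count_quad : ∃ δ > (0 : ℝ), ∃ P₀ : ℕ, ∀ p : ℕ, p.Prime → P₀ ≤ p →
    δ * (p : ℝ) ^ 6 ≤ (({c : Fin 2 → Fin 3 → ZMod p |
      ¬ IsSquare (quadRes c) ∧ ¬ IsSquare (critRes c)}.ncard : ℕ) : ℝ) := by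
  classical
  obtain ⟨δ, hδ, P₀, h⟩ := count_two
  refine ⟨δ / 4, by positivity, max P₀ 20, ?_⟩
  intro p hp hpP
  have : Fact p.Prime := ⟨hp⟩
  have hp20 : 20 ≤ p := (le_max_right _ _).trans hpP
  have h1 := h p hp ((le_max_left _ _).trans hpP)
  have h2p : (2 : ZMod p) ≠ 0 := by
    intro h
    have h1 : ((2 : ℕ) : ZMod p) = 0 := by exact_mod_cast h
    rw [ZMod.natCast_eq_zero_iff] at h1
    have := Nat.le_of_dvd (by norm_num) h1
    omega
  have hsub : {c : Fin 2 → Fin (2 + 1) → ZMod p | ∀ u : Fin 2 → ZMod p, u ≠ 0 → jac c u ≠ 0} ⊆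
      ((univ.filter fun c : Fin 2 → Fin 3 → ZMod p => ¬ IsSquare (quadRes c) :
        Finset (Fin 2 → Fin 3 → ZMod p)) : Set (Fin 2 → Fin 3 → ZMod p)) := by
    intro c hc
    rw [coe_filter]
    refine ⟨mem_univ _, ?_⟩
    rintro ⟨r, hr⟩
    by_cases hw : w2 c = 0
    · refine hc ![1, 0] ?_ ?_
      · intro h0
        have := congrFun h0 0
        simp at this
      · have := quad_jac (R := ZMod p) c ![1, 0]
        rw [this, hw]
        simp
    · refine hc ![(-w1 c + 2 * r) / (2 * w2 c), 1] ?_ ?_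
      · intro h0
        have := congrFun h0 1
        simp at this
      · have := quad_jac (R := ZMod p) c ![(-w1 c + 2 * r) / (2 * w2 c), 1]
        rw [this]
        simp only [Matrix.cons_val_zero, Matrix.cons_val_one]
        have hd := disc_jac c
        field_simp
        linear_combination -hd - 4 * hr
  have h2 := Set.ncard_le_ncard hsub (Finset.finite_toSet _)
  rw [Set.ncard_coe_finset] at h2
  have h3 := double (p := p) hp20
  have h4 : {c : Fin 2 → Fin 3 → ZMod p | ¬ IsSquare (quadRes c) ∧ ¬ IsSquare (critRes c)} =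
      ((univ.filter fun c : Fin 2 → Fin 3 → ZMod p => ¬ IsSquare (quadRes c) ∧ ¬ IsSquare (critRes c) :
        Finset (Fin 2 → Fin 3 → ZMod p)) : Set (Fin 2 → Fin 3 → ZMod p)) := by
    ext c; simp
  rw [h4, Set.ncard_coe_finset]
  have h5 := h2.trans h3
  have h6 : (({c : Fin 2 → Fin (2 + 1) → ZMod p | ∀ u : Fin 2 → ZMod p, u ≠ 0 → jac c u ≠ 0}.ncard : ℕ) : ℝ)
      ≤ 4 * (((univ.filter fun c : Fin 2 → Fin 3 → ZMod p =>
        ¬ IsSquare (quadRes c) ∧ ¬ IsSquare (critRes c)).card : ℕ) : ℝ) := by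
    exact_mod_cast h5
  have h7 : (p : ℝ) ^ (2 * (2 + 1)) = (p : ℝ) ^ 6 := by norm_num
  rw [h7] at h1
  linarith

end Pool.Agent.Helper59.DML
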