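import Pool.Agent.Helper59.DML.Forms

/-!
# DML: integer coefficient vectors in boxes: few vectors define pairs of forms with common zeros
-/

set_option autoImplicit false

namespace Pool.Agent.Helper59.DML

open Finset Function Filter Topology

section
variable {J : Type*} [Fintype J] [DecidableEq J]

/-- the integer box -/
noncomputable def zbox (J : Type*) [Fintype J] [DecidableEq J] (B : ℕ) : Finset (J → ℤ) :=
  Fintype.piFinset fun _ => Finset.Icc (-(B : ℤ)) B

theorem mem_zbox {B : ℕ} {c : J → ℤ} : c ∈ zbox J B ↔ ∀ j, |c j| ≤ (B : ℤ) := by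
  simp only [zbox, Fintype.mem_piFinset, Finset.mem_Icc, abs_le]

theorem card_zbox (B : ℕ) : (zbox J B).card = (2 * B + 1) ^ Fintype.card J := by
  rw [zbox, Fintype.card_piFinset, Finset.prod_const, Int.card_Icc, Finset.card_univ]
  congr 1
  omega

theorem card_le_of_fiber {B : ℕ} (j₀ : J) {k : ℕ} {S : Finset (J → ℤ)} (hS : S ⊆ zbox J B)
    (hfib : ∀ r : J → ℤ, (S.filter fun c => update c j₀ 0 = r).card ≤ k) :
    S.card ≤ k * (2 * B + 1) ^ (Fintype.card J - 1) := by
  classical
  have h1 : S.card ≤ k * (S.image fun c => update c j₀ 0).card :=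
    Finset.card_le_mul_card_image S k fun r _ => hfib r
  refine h1.trans (Nat.mul_le_mul_left k ?_)
  have h2 : (S.image fun c => update c j₀ 0) ⊆
      Fintype.piFinset fun j => if j = j₀ then ({0} : Finset ℤ) else Finset.Icc (-(B : ℤ)) B := by
    intro r hr
    obtain ⟨c, hc, rfl⟩ := Finset.mem_image.1 hr
    rw [Fintype.mem_piFinset]
    intro j
    by_cases h : j = j₀
    · subst h; simp
    · have h3 := mem_zbox.1 (hS hc) j
      rw [abs_le] at h3
      simp [h, h3]
  refine (Finset.card_le_card h2).trans (le_of_eq ?_)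
  rw [Fintype.card_piFinset]
  have h4 : ∀ j, (if j = j₀ then ({0} : Finset ℤ) else Finset.Icc (-(B : ℤ)) B).card =
      if j = j₀ then 1 else 2 * B + 1 := by
    intro j
    split_ifs
    · simp
    · rw [Int.card_Icc]; omega
  simp only [h4]
  rw [Finset.prod_ite]
  simp only [Finset.prod_const_one, one_mul, Finset.prod_const]
  congr 1
  rw [Finset.filter_ne' univ j₀, Finset.card_erase_of_mem (Finset.mem_univ _), Finset.card_univ]

end

/-- a pair of forms with a common zero: either the leading coefficient of the first vanishes or the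
constant coefficient of the second is one of at most `d` values determined by the other
coefficients. -/
theorem common_zero {d : ℕ} (a : Fin (d + 1) → ℂ) (ha : a (Fin.last d) ≠ 0) (hd : 1 ≤ d) :
    ∃ T : Finset ℂ, T.card ≤ d ∧ ∀ (b : Fin (d + 1) → ℂ) (v : Fin 2 → ℂ), v ≠ 0 → form a v = 0 →
      form b v = 0 → ∃ x ∈ T, b 0 = -∑ i : Fin d, b i.succ * x ^ ((i : ℕ) + 1) := by
  classical
  set P : Polynomial ℂ := ∑ i : Fin (d + 1), Polynomial.C (a i) * Polynomial.X ^ (i : ℕ) with hP
  have hcoeff : P.coeff d = a (Fin.last d) := by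
    rw [hP, Polynomial.finsetSum_coeff]
    simp only [Polynomial.coeff_C_mul, Polynomial.coeff_X_pow]
    rw [Finset.sum_eq_single (Fin.last d)]
    · simp
    · intro i _ hi
      have : d ≠ (i : ℕ) := by
        intro h; apply hi; ext; simp [← h]
      simp [this]
    · simp
  have hP0 : P ≠ 0 := by
    intro h; rw [h] at hcoeff; simp at hcoeff; exact ha hcoeff.symm
  have hdeg : P.natDegree ≤ d := by
    rw [hP]
    refine Polynomial.natDegree_sum_le_of_forall_le _ _ fun i _ => ?_
    refine (Polynomial.natDegree_C_mul_X_pow_le _ _).trans ?_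
    omega
  refine ⟨P.roots.toFinset, (Multiset.toFinset_card_le _).trans ((Polynomial.card_roots' P).trans hdeg),
    fun b v hv h1 h2 => ?_⟩
  have hv1 : v 1 ≠ 0 := by
    intro h0
    have h3 : form a v = a (Fin.last d) * v 0 ^ d := by
      rw [form, Finset.sum_eq_single (Fin.last d)]
      · simp
      · intro i _ hi
        have : d - (i : ℕ) ≠ 0 := by
          intro h; apply hi; ext
          have := i.2
          simp only [Fin.val_last]; omega
        rw [h0, zero_pow this, mul_zero]
      · simp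
    rw [h3] at h1
    rcases mul_eq_zero.1 h1 with h | h
    · exact ha h
    · apply hv
      funext k
      fin_cases k
      · exact pow_eq_zero_iff (by omega) |>.1 h
      · exact h0
  have hscale : ∀ e : Fin (d + 1) → ℂ, form e v = v 1 ^ d * form e ![v 0 / v 1, 1] := by
    intro e
    have h3 : v = fun k => v 1 * (![v 0 / v 1, 1] : Fin 2 → ℂ) k := by
      funext k
      fin_cases k
      · simp; field_simp
      · simp
    conv_lhs => rw [h3]
    rw [form_smul]
  have ha2 : form a ![v 0 / v 1, 1] = 0 := by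
    have := hscale a
    rw [h1] at this
    rcases mul_eq_zero.1 this.symm with h | h
    · exact absurd h (pow_ne_zero _ hv1)
    · exact h
  have hb2 : form b ![v 0 / v 1, 1] = 0 := by
    have := hscale b
    rw [h2] at this
    rcases mul_eq_zero.1 this.symm with h | h
    · exact absurd h (pow_ne_zero _ hv1)
    · exact h
  refine ⟨v 0 / v 1, ?_, ?_⟩
  · rw [Multiset.mem_toFinset, Polynomial.mem_roots hP0, Polynomial.IsRoot, hP,
      Polynomial.eval_finsetSum]
    simp only [Polynomial.eval_mul, Polynomial.eval_C, Polynomial.eval_pow, Polynomial.eval_X]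
    simpa [form] using ha2
  · rw [form, Fin.sum_univ_succ] at hb2
    simp only [Fin.val_zero, pow_zero, mul_one, Matrix.cons_val_zero, Matrix.cons_val_one,
      one_pow, Fin.val_succ] at hb2
    linear_combination hb2

/-- index set of the coefficients -/
abbrev Idx {N : ℕ} (d : Fin N → ℕ) : Type := (i : Fin N) × (Fin 2 × Fin (d i + 1))

/-- the number of integer vectors in the box for which some pair of forms has a common zero. -/
theorem degenerate_card {N : ℕ} (d : Fin N → ℕ) (hd : ∀ i, 1 ≤ d i) (B : ℕ)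
    (S : Finset (Idx d → ℤ)) (hS : S ⊆ zbox _ B)
    (hbad : ∀ r ∈ S, ∃ i, ∃ v : Fin 2 → ℂ, v ≠ 0 ∧
      ∀ k, form (fun j => ((r ⟨i, (k, j)⟩ : ℤ) : ℂ)) v = 0) :
    S.card ≤ (∑ i, (d i + 1)) *
      (2 * B + 1) ^ (Fintype.card (Idx d) - 1) := by
  classical
  set S1 : Fin N → Finset (Idx d → ℤ) := fun i => S.filter fun r => r ⟨i, (0, Fin.last _)⟩ = 0 with hS1
  set S2 : Fin N → Finset (Idx d → ℤ) := fun i => S.filter fun r => r ⟨i, (0, Fin.last _)⟩ ≠ 0 ∧
    ∃ v : Fin 2 → ℂ, v ≠ 0 ∧ ∀ k, form (fun j => ((r ⟨i, (k, j)⟩ : ℤ) : ℂ)) v = 0 with hS2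
  have hcover : S ⊆ Finset.univ.biUnion fun i => S1 i ∪ S2 i := by
    intro r hr
    obtain ⟨i, hi⟩ := hbad r hr
    rw [Finset.mem_biUnion]
    refine ⟨i, Finset.mem_univ _, ?_⟩
    rw [Finset.mem_union, Finset.mem_filter, Finset.mem_filter]
    by_cases h : r ⟨i, (0, Fin.last _)⟩ = 0
    · exact Or.inl ⟨hr, h⟩
    · exact Or.inr ⟨hr, h, hi⟩
  have c1 : ∀ i, (S1 i).card ≤ 1 * (2 * B + 1) ^ (Fintype.card (Idx d) - 1) := by
    intro i
    refine card_le_of_fiber (⟨i, (0, Fin.last _)⟩ : Idx d) ((Finset.filter_subset _ _).trans hS) fun r => ?_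
    rw [Finset.card_le_one]
    intro a ha b hb
    simp only [hS1, Finset.mem_filter] at ha hb
    have e1 : a = update r ⟨i, (0, Fin.last _)⟩ 0 := by
      rw [← ha.2, update_idem, ← ha.1.2, update_eq_self]
    have e2 : b = update r ⟨i, (0, Fin.last _)⟩ 0 := by
      rw [← hb.2, update_idem, ← hb.1.2, update_eq_self]
    rw [e1, e2]
  have c2 : ∀ i, (S2 i).card ≤ d i * (2 * B + 1) ^ (Fintype.card (Idx d) - 1) := by
    intro i
    refine card_le_of_fiber (⟨i, (1, 0)⟩ : Idx d) ((Finset.filter_subset _ _).trans hS) fun r => ?_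
    rcases Finset.eq_empty_or_nonempty ((S2 i).filter fun c => update c ⟨i, (1, 0)⟩ 0 = r) with h0 | ⟨c0, hc0⟩
    · rw [h0]; simp
    rw [Finset.mem_filter] at hc0
    have hlead : ((c0 ⟨i, (0, Fin.last _)⟩ : ℤ) : ℂ) ≠ 0 := by
      have := hc0.1
      simp only [hS2, Finset.mem_filter] at this
      exact_mod_cast this.2.1
    obtain ⟨T, hT, hT2⟩ := common_zero (fun j => ((c0 ⟨i, (0, j)⟩ : ℤ) : ℂ)) hlead (hd i)
    set g : ℂ → ℂ := fun x => -∑ j : Fin (d i), ((c0 ⟨i, (1, j.succ)⟩ : ℤ) : ℂ) * x ^ ((j : ℕ) + 1) with hg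
    have hne : ∀ j : Fin (d i + 1), (⟨i, (0, j)⟩ : Idx d) ≠ ⟨i, (1, 0)⟩ := by
      intro j h
      simp at h
    have hne2 : ∀ j : Fin (d i), (⟨i, (1, j.succ)⟩ : Idx d) ≠ ⟨i, (1, 0)⟩ := by
      intro j h
      simp [Fin.succ_ne_zero] at h
    calc ((S2 i).filter fun c => update c ⟨i, (1, 0)⟩ 0 = r).card ≤ (T.image g).card := by
          refine Finset.card_le_card_of_injOn (fun c => ((c ⟨i, (1, 0)⟩ : ℤ) : ℂ)) ?_ ?_
          · intro c hc
            have hc' := Finset.mem_filter.1 (Finset.mem_coe.1 hc)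
            have hcS := hc'.1
            simp only [hS2, Finset.mem_filter] at hcS
            obtain ⟨-, -, v, hv, hk⟩ := hcS
            have heq : ∀ j : Idx d, j ≠ ⟨i, (1, 0)⟩ → c j = c0 j := by
              intro j hj
              have := congrFun (hc'.2.trans hc0.2.symm) j
              rwa [update_of_ne hj, update_of_ne hj] at this
            have h1 : form (fun j => ((c0 ⟨i, (0, j)⟩ : ℤ) : ℂ)) v = 0 := by
              rw [← hk 0]
              congr 1
              funext j
              rw [heq _ (hne j)]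
            obtain ⟨x, hx, hx2⟩ := hT2 (fun j => ((c ⟨i, (1, j)⟩ : ℤ) : ℂ)) v hv h1 (hk 1)
            rw [Finset.mem_coe, Finset.mem_image]
            refine ⟨x, hx, ?_⟩
            show g x = ((c ⟨i, (1, 0)⟩ : ℤ) : ℂ)
            rw [hx2, hg]
            simp only
            congr 1
            refine Finset.sum_congr rfl fun j _ => ?_
            rw [heq _ (hne2 j)]
          · intro a ha b hb hab
            have ha' := Finset.mem_filter.1 (Finset.mem_coe.1 ha)
            have hb' := Finset.mem_filter.1 (Finset.mem_coe.1 hb)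
            have hab' : a ⟨i, (1, 0)⟩ = b ⟨i, (1, 0)⟩ := by
              have : ((a ⟨i, (1, 0)⟩ : ℤ) : ℂ) = ((b ⟨i, (1, 0)⟩ : ℤ) : ℂ) := hab
              exact_mod_cast this
            funext j
            by_cases hj : j = ⟨i, (1, 0)⟩
            · rw [hj, hab']
            · have := congrFun (ha'.2.trans hb'.2.symm) j
              rwa [update_of_ne hj, update_of_ne hj] at this
      _ ≤ T.card := Finset.card_image_le
      _ ≤ d i := hT
  calc S.card ≤ (Finset.univ.biUnion fun i => S1 i ∪ S2 i).card := Finset.card_le_card hcover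
    _ ≤ ∑ i, (S1 i ∪ S2 i).card := Finset.card_biUnion_le
    _ ≤ ∑ i, ((d i + 1) * (2 * B + 1) ^ (Fintype.card (Idx d) - 1)) := by
        refine Finset.sum_le_sum fun i _ => (Finset.card_union_le _ _).trans ?_
        have := c1 i
        have := c2 i
        nlinarith
    _ = _ := by rw [Finset.sum_mul]

end Pool.Agent.Helper59.DML
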