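import Mathlib

/-!
# DML-PRIMEDIV: a nonconstant integer polynomial has a root modulo infinitely many primes

Proof (Schur). If `f(0) = 0` every prime works (`n = 0`). Otherwise suppose only finitely many primes `p_1..p_k`
occur, `P = ∏ p_i`, `a = f(0) ≠ 0`. Then `f(a P m) = a (1 + P m g(m))` for an integer polynomial expression, i.e.
`f(a P m) = a * (1 + P * t)` with `t` an integer (all higher coefficients are divisible by `a P`: `a P m ∣ f(a P m) - f(0)`,
more precisely `f(aPm) - a = a P m * (...)`, `Polynomial.sub_dvd_eval_sub`). As `f` is not constant `|f(a P m)| > |a|` for some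
`m`, so `|1 + P t| > 1` has a prime divisor `q`, and `q ∤ P`, although `f` has a root modulo `q`: contradiction.
-/

set_option autoImplicit false

namespace Pool.Agent.Helper59.DML

theorem exists_root_mod_infinite {f : Polynomial ℤ} (hf : 0 < f.natDegree) :
    {p : ℕ | p.Prime ∧ ∃ n : ℤ, (p : ℤ) ∣ f.eval n}.Infinite := by
  intro hfin
  by_cases ha : f.eval 0 = 0
  · refine Nat.infinite_setOfPred_prime (hfin.subset ?_)
    intro p hp
    exact ⟨hp, 0, by rw [ha]; exact dvd_zero _⟩
  · set a : ℤ := f.eval 0 with hadef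
    set P : ℕ := ∏ p ∈ hfin.toFinset, p with hPdef
    have hP0 : P ≠ 0 := by
      rw [hPdef, Finset.prod_ne_zero_iff]
      intro p hp
      rw [Set.Finite.mem_toFinset] at hp
      exact hp.1.ne_zero
    have hc : a * (P : ℤ) ≠ 0 := mul_ne_zero ha (by exact_mod_cast hP0)
    set F : Polynomial ℤ := f.comp (Polynomial.C (a * (P : ℤ)) * Polynomial.X) with hF
    have hFdeg : F.natDegree = f.natDegree := by
      rw [hF, Polynomial.natDegree_comp, Polynomial.natDegree_C_mul_X _ hc, mul_one]
    have hne : ∀ c : ℤ, F - Polynomial.C c ≠ 0 := by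
      intro c h0
      have h1 : F = Polynomial.C c := sub_eq_zero.mp h0
      rw [h1, Polynomial.natDegree_C] at hFdeg
      omega
    obtain ⟨m, hm⟩ : ∃ m : ℤ, m ∉ ((F - Polynomial.C a).roots.toFinset ∪
        (F - Polynomial.C (-a)).roots.toFinset ∪ (F - Polynomial.C 0).roots.toFinset : Finset ℤ) :=
      Infinite.exists_notMem_finset _
    have hval : ∀ c : ℤ, m ∉ (F - Polynomial.C c).roots.toFinset → F.eval m ≠ c := by
      intro c h1 h2
      apply h1
      rw [Multiset.mem_toFinset, Polynomial.mem_roots (hne c), Polynomial.IsRoot.def,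
        Polynomial.eval_sub, Polynomial.eval_C, h2, sub_self]
    rw [Finset.mem_union, Finset.mem_union, not_or, not_or] at hm
    have h1 := hval a hm.1.1
    have h2 := hval (-a) hm.1.2
    have h3 := hval 0 hm.2
    have hFe : F.eval m = f.eval (a * (P : ℤ) * m) := by
      rw [hF, Polynomial.eval_comp]
      simp
    have hdec : f.eval (a * (P : ℤ) * m) = a * (1 + (P : ℤ) * (m * (f.divX).eval (a * (P : ℤ) * m))) := by
      have e := congrArg (Polynomial.eval (a * (P : ℤ) * m)) (Polynomial.divX_mul_X_add f)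
      rw [Polynomial.eval_add, Polynomial.eval_mul, Polynomial.eval_X, Polynomial.eval_C,
        Polynomial.coeff_zero_eq_eval_zero] at e
      rw [← e, ← hadef]
      ring
    set t : ℤ := m * (f.divX).eval (a * (P : ℤ) * m) with ht
    rw [hFe, hdec] at h1 h2 h3
    have h4 : (1 + (P : ℤ) * t).natAbs ≠ 1 := by
      intro h5
      rcases Int.natAbs_eq (1 + (P : ℤ) * t) with h6 | h6
      · rw [h5] at h6
        apply h1
        rw [h6]; simp
      · rw [h5] at h6
        apply h2
        rw [h6]; simp
    obtain ⟨q, hq, hqd⟩ := Nat.exists_prime_and_dvd h4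
    have hqd' : (q : ℤ) ∣ 1 + (P : ℤ) * t := Int.natCast_dvd.mpr hqd
    have hqS : q ∈ hfin.toFinset := by
      rw [Set.Finite.mem_toFinset]
      exact ⟨hq, a * (P : ℤ) * m, by rw [hdec]; exact hqd'.mul_left a⟩
    have hqP : (q : ℤ) ∣ (P : ℤ) := by
      have : q ∣ P := Finset.dvd_prod_of_mem _ hqS
      exact_mod_cast this
    have h7 : (q : ℤ) ∣ 1 := (dvd_add_left (hqP.mul_right t)).mp hqd'
    have h8 : q ∣ 1 := by exact_mod_cast h7
    exact hq.one_lt.ne' (Nat.dvd_one.mp h8)

end Pool.Agent.Helper59.DML
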