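import Pool.Agent.Helper59.DML.AlgInd
import Pool.Agent.Helper59.DML.PrimeDiv

/-!
# DML-EMBED (Cassels): a finitely generated field of characteristic zero embeds into `ℚ_p` for infinitely many `p`

Proof. `L = IntermediateField.adjoin ℚ s`. Let `t` be a transcendence basis of `L` over `ℚ`, finite, and `K` the fraction field of `ℤ[t]`.
`L / K` is finite and separable; `θ` a primitive element, `m` its minimal polynomial over `K`, `m'` its derivative,
`u m + v m' = 1`. Clear denominators with elements of `ℤ[t]`. Choose an integral point `r` at which the denominator does not vanish, a prime `p`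
modulo which the specialised polynomial has a root, algebraically independent `τ` in `ℤ_p` close to `r`, and use Hensel's lemma.
-/

set_option autoImplicit false

open Polynomial

namespace Pool.Agent.Helper59.DML

/-- Hensel step: specialise at a point `τ` close to the integral point `r`. -/
theorem hensel_step {κ : Type} {p : ℕ} [Fact p.Prime] (r : κ → ℤ) (τ : κ → ℤ_[p])
    (hτ : ∀ j, ‖τ j - (r j : ℤ_[p])‖ < 1) (m₁ U V : (MvPolynomial κ ℤ)[X]) (D : MvPolynomial κ ℤ)
    (hD : U * m₁ + V * derivative m₁ = C D) (hDr : ¬ (p : ℤ) ∣ MvPolynomial.eval r D)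
    (n : ℤ) (hn : (p : ℤ) ∣ (m₁.map (MvPolynomial.eval r)).eval n) :
    ∃ b : ℤ_[p], (m₁.map (MvPolynomial.eval₂Hom (Int.castRingHom ℤ_[p]) τ)).eval b = 0 := by
  set ετ : MvPolynomial κ ℤ →+* ℤ_[p] := MvPolynomial.eval₂Hom (Int.castRingHom ℤ_[p]) τ with hετ
  have hcomp : (PadicInt.toZMod : ℤ_[p] →+* ZMod p).comp ετ
      = (Int.castRingHom (ZMod p)).comp (MvPolynomial.eval r) := by
    apply MvPolynomial.ringHom_ext
    · intro a; simp [ετ]
    · intro j
      simp only [RingHom.comp_apply, ετ, MvPolynomial.eval₂Hom_X', MvPolynomial.eval_X]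
      have h1 : τ j - (r j : ℤ_[p]) ∈ RingHom.ker (PadicInt.toZMod : ℤ_[p] →+* ZMod p) := by
        rw [PadicInt.ker_toZMod]
        exact PadicInt.mem_nonunits.2 (hτ j)
      rw [RingHom.mem_ker, map_sub, sub_eq_zero] at h1
      rw [h1]; simp
  have key : ∀ P : (MvPolynomial κ ℤ)[X], PadicInt.toZMod ((P.map ετ).eval (n : ℤ_[p]))
      = (((P.map (MvPolynomial.eval r)).eval n : ℤ) : ZMod p) := by
    intro P
    have e1 : PadicInt.toZMod ((P.map ετ).eval (n : ℤ_[p]))
        = P.eval₂ ((PadicInt.toZMod : ℤ_[p] →+* ZMod p).comp ετ) (PadicInt.toZMod (n : ℤ_[p])) := by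
      rw [Polynomial.eval_map, Polynomial.hom_eval₂]
    have e2 : (((P.map (MvPolynomial.eval r)).eval n : ℤ) : ZMod p)
        = P.eval₂ ((Int.castRingHom (ZMod p)).comp (MvPolynomial.eval r)) (Int.castRingHom (ZMod p) n) := by
      rw [Polynomial.eval_map]
      exact Polynomial.hom_eval₂ P (MvPolynomial.eval r) (Int.castRingHom (ZMod p)) n
    rw [e1, e2, hcomp]; simp
  have hlt : ∀ a : ℤ_[p], PadicInt.toZMod a = 0 ↔ ‖a‖ < 1 := by
    intro a
    rw [← RingHom.mem_ker, PadicInt.ker_toZMod]
    exact PadicInt.mem_nonunits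
  set G := m₁.map ετ with hG
  have hG0 : ‖G.eval (n : ℤ_[p])‖ < 1 := by
    rw [← hlt, hG, key, ZMod.intCast_zmod_eq_zero_iff_dvd]
    exact hn
  have hGd : PadicInt.toZMod ((derivative G).eval (n : ℤ_[p])) ≠ 0 := by
    intro h0
    have h2 : (U * m₁ + V * derivative m₁).map ετ = (C D).map ετ := by rw [hD]
    rw [Polynomial.map_add, Polynomial.map_mul, Polynomial.map_mul, ← Polynomial.derivative_map,
      Polynomial.map_C] at h2
    have h3 := congrArg (fun Q => PadicInt.toZMod (Q.eval (n : ℤ_[p]))) h2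
    simp only [Polynomial.eval_add, Polynomial.eval_mul, map_add, map_mul, Polynomial.eval_C] at h3
    rw [← hG, h0, (hlt _).2 hG0, mul_zero, mul_zero, add_zero] at h3
    have h4 : PadicInt.toZMod (ετ D) = ((MvPolynomial.eval r D : ℤ) : ZMod p) :=
      congrArg (fun f : MvPolynomial κ ℤ →+* ZMod p => f D) hcomp
    rw [h4] at h3
    exact hDr ((ZMod.intCast_zmod_eq_zero_iff_dvd _ _).1 h3.symm)
  have hGd1 : ‖(derivative G).eval (n : ℤ_[p])‖ = 1 := by
    have h5 : ¬ ‖(derivative G).eval (n : ℤ_[p])‖ < 1 := fun h => hGd ((hlt _).2 h)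
    exact le_antisymm (PadicInt.norm_le_one _) (not_lt.1 h5)
  obtain ⟨z, hz, -⟩ := hensels_lemma (p := p) (R := ℤ_[p]) (F := G) (a := (n : ℤ_[p])) (by
    simp only [Polynomial.coe_aeval_eq_eval]
    rw [hGd1]; simpa using hG0)
  exact ⟨z, by simpa [Polynomial.coe_aeval_eq_eval] using hz⟩

/-- the core: a finite extension of the fraction field of `ℤ[t]`. -/
theorem embed_core {κ : Type} [Finite κ] {E : Type} [Field E]
    [Algebra (FractionRing (MvPolynomial κ ℤ)) E]
    [FiniteDimensional (FractionRing (MvPolynomial κ ℤ)) E] :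
    {p : ℕ | ∃ _ : Fact p.Prime, Nonempty (E →+* ℚ_[p])}.Infinite := by
  classical
  set B := MvPolynomial κ ℤ with hB
  set K := FractionRing B with hK
  haveI : CharZero B := charZero_of_injective_algebraMap (R := ℤ) (A := B)
    (by rw [MvPolynomial.algebraMap_eq]; exact MvPolynomial.C_injective κ ℤ)
  haveI : CharZero K := charZero_of_injective_algebraMap (R := B) (A := K) (IsFractionRing.injective B K)
  obtain ⟨θ, hθ⟩ := Field.exists_primitive_element K E
  have hint : IsIntegral K θ := Algebra.IsIntegral.isIntegral θ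
  set m := minpoly K θ with hm
  have hsep : m.Separable := (minpoly.irreducible hint).separable
  obtain ⟨u, v, huv⟩ := hsep
  obtain ⟨bm, hbm, hbm1⟩ := IsLocalization.integerNormalization_spec (nonZeroDivisors B) m
  obtain ⟨bu, hbu, hbu1⟩ := IsLocalization.integerNormalization_spec (nonZeroDivisors B) u
  obtain ⟨bv, hbv, hbv1⟩ := IsLocalization.integerNormalization_spec (nonZeroDivisors B) v
  set m₁ := IsLocalization.integerNormalization (nonZeroDivisors B) m with hm₁
  set u₁ := IsLocalization.integerNormalization (nonZeroDivisors B) u with hu₁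
  set v₁ := IsLocalization.integerNormalization (nonZeroDivisors B) v with hv₁
  have hmapinj : Function.Injective (Polynomial.map (algebraMap B K)) :=
    Polynomial.map_injective _ (IsFractionRing.injective B K)
  have hm₁' : m₁.map (algebraMap B K) = C (algebraMap B K bm) * m := by
    rw [hbm1, Algebra.smul_def]; rfl
  have hu₁' : u₁.map (algebraMap B K) = C (algebraMap B K bu) * u := by
    rw [hbu1, Algebra.smul_def]; rfl
  have hv₁' : v₁.map (algebraMap B K) = C (algebraMap B K bv) * v := by
    rw [hbv1, Algebra.smul_def]; rfl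
  set D : B := bu * bv * bm with hD
  have hD0 : D ≠ 0 := mul_ne_zero (mul_ne_zero (nonZeroDivisors.ne_zero hbu) (nonZeroDivisors.ne_zero hbv))
    (nonZeroDivisors.ne_zero hbm)
  have hrel : (C bv * u₁) * m₁ + (C bu * v₁) * derivative m₁ = C D := by
    apply hmapinj
    rw [Polynomial.map_add, Polynomial.map_mul, Polynomial.map_mul, Polynomial.map_mul,
      Polynomial.map_mul, ← Polynomial.derivative_map, Polynomial.map_C, Polynomial.map_C,
      Polynomial.map_C, hm₁', hu₁', hv₁', derivative_mul, derivative_C, zero_mul, zero_add, hD]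
    have : C (algebraMap B K (bu * bv * bm))
        = C (algebraMap B K bu) * C (algebraMap B K bv) * C (algebraMap B K bm) := by
      simp only [map_mul]
    rw [this, ← mul_one (C (algebraMap B K bu) * C (algebraMap B K bv) * C (algebraMap B K bm)), ← huv]
    ring
  -- an integral point
  obtain ⟨r, hr⟩ : ∃ r : κ → ℤ, MvPolynomial.eval r D ≠ 0 := by
    by_contra hcon
    push Not at hcon
    exact hD0 (MvPolynomial.funext (fun x => by rw [hcon x, map_zero]))
  have hbmr : MvPolynomial.eval r bm ≠ 0 := by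
    intro h0; apply hr; rw [hD, map_mul, h0, mul_zero]
  -- the specialised polynomial
  set g : ℤ[X] := m₁.map (MvPolynomial.eval r) with hg
  have hdeg1 : m₁.natDegree = m.natDegree := by
    have h1 : (m₁.map (algebraMap B K)).natDegree = m₁.natDegree :=
      Polynomial.natDegree_map_eq_of_injective (IsFractionRing.injective B K) _
    rw [← h1, hm₁', Polynomial.natDegree_C_mul]
    exact fun h => (nonZeroDivisors.ne_zero hbm) (IsFractionRing.injective B K (by rw [h, map_zero]))
  have hcoeff : m₁.coeff m.natDegree = bm := by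
    apply IsFractionRing.injective B K
    have h2 : (m₁.map (algebraMap B K)).coeff m.natDegree = algebraMap B K bm := by
      rw [hm₁', coeff_C_mul]
      have : m.coeff m.natDegree = 1 := (minpoly.monic hint).coeff_natDegree
      rw [this, mul_one]
    rwa [coeff_map] at h2
  have hgdeg : 0 < g.natDegree := by
    have h3 : g.coeff m.natDegree ≠ 0 := by
      rw [hg, coeff_map, hcoeff]; exact hbmr
    exact lt_of_lt_of_le (minpoly.natDegree_pos hint) (le_natDegree_of_ne_zero h3)
  have hinf := exists_root_mod_infinite hgdeg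
  have hfin : {p : ℕ | (p : ℤ) ∣ MvPolynomial.eval r D}.Finite := by
    apply Set.Finite.subset (Set.finite_Icc 0 (MvPolynomial.eval r D).natAbs)
    intro p hp
    refine ⟨Nat.zero_le _, ?_⟩
    exact Nat.le_of_dvd (Int.natAbs_pos.2 hr) (Int.natCast_dvd.1 hp)
  refine (hinf.diff hfin).mono ?_
  rintro p ⟨⟨hp, n, hn⟩, hpD⟩
  haveI : Fact p.Prime := ⟨hp⟩
  refine ⟨⟨hp⟩, ?_⟩
  obtain ⟨τ, hind, hclose⟩ := exists_algInd (p := p) (κ := κ) (fun j => (r j : ℤ_[p]))
  obtain ⟨b, hb⟩ := hensel_step r τ hclose m₁ (C bv * u₁) (C bu * v₁) D hrel hpD n hn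
  -- the embedding of `K`
  set ετ : B →+* ℤ_[p] := MvPolynomial.eval₂Hom (Int.castRingHom ℤ_[p]) τ with hετ
  set ε' : B →+* ℚ_[p] := (PadicInt.Coe.ringHom).comp ετ with hε'
  have hε'inj : Function.Injective ε' := by
    have h4 : AlgebraicIndependent ℤ (fun j => ((τ j : ℤ_[p]) : ℚ_[p])) :=
      hind.restrictScalars (RingHom.injective_int (algebraMap ℤ ℚ))
    have h5 : (ε' : B →+* ℚ_[p]) = (MvPolynomial.aeval (fun j => ((τ j : ℤ_[p]) : ℚ_[p])) :
        MvPolynomial κ ℤ →ₐ[ℤ] ℚ_[p]).toRingHom := by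
      apply MvPolynomial.ringHom_ext
      · intro a; simp [ε', ετ]
      · intro j; simp [ε', ετ]
    rw [h5]
    exact h4
  set φ : K →+* ℚ_[p] := IsFractionRing.lift hε'inj with hφ
  have hφB : ∀ x : B, φ (algebraMap B K x) = ε' x := fun x => IsFractionRing.lift_algebraMap hε'inj x
  have hroot : m.eval₂ φ (b : ℚ_[p]) = 0 := by
    have h6 : (m₁.map (algebraMap B K)).eval₂ φ (b : ℚ_[p]) = 0 := by
      rw [Polynomial.eval₂_map]
      have h7 : φ.comp (algebraMap B K) = (PadicInt.Coe.ringHom).comp ετ := RingHom.ext hφB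
      rw [h7]
      have h8 := Polynomial.hom_eval₂ m₁ ετ (PadicInt.Coe.ringHom (p := p)) b
      rw [Polynomial.eval_map] at hb
      rw [hb, map_zero] at h8
      exact h8.symm
    rw [hm₁', Polynomial.eval₂_mul, Polynomial.eval₂_C, hφB] at h6
    rcases mul_eq_zero.1 h6 with h9 | h9
    · exfalso
      exact (nonZeroDivisors.ne_zero hbm) (hε'inj (by rw [h9, map_zero]))
    · exact h9
  refine ⟨?_⟩
  let f1 : AdjoinRoot m →+* ℚ_[p] := AdjoinRoot.lift φ (b : ℚ_[p]) hroot
  let f2 : AdjoinRoot m ≃ₐ[K] IntermediateField.adjoin K {θ} :=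
    IntermediateField.adjoinRootEquivAdjoin K hint
  let f3 : IntermediateField.adjoin K {θ} ≃ₐ[K] (⊤ : IntermediateField K E) :=
    IntermediateField.equivOfEq hθ
  let f4 : (⊤ : IntermediateField K E) ≃ₐ[K] E := IntermediateField.topEquiv
  exact f1.comp (((f2.trans f3).trans f4).symm : E →+* AdjoinRoot m)

theorem embed_infinite (s : Finset ℂ) :
    {p : ℕ | ∃ _ : Fact p.Prime,
      Nonempty ((IntermediateField.adjoin ℚ (s : Set ℂ)) →+* ℚ_[p])}.Infinite := by
  classical
  set E := IntermediateField.adjoin ℚ (s : Set ℂ) with hE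
  haveI : Algebra.EssFiniteType ℚ E :=
    IntermediateField.essFiniteType_iff.2 ⟨s, rfl⟩
  obtain ⟨t, ht⟩ : ∃ t : Finset E, IsTranscendenceBasis ℚ ((↑) : t → E) := by
    obtain ⟨t0, ht0⟩ := IntermediateField.fg_top ℚ E
    haveI : Algebra.IsAlgebraic (Algebra.adjoin ℚ (t0 : Set E)) E := by
      rw [← IntermediateField.isAlgebraic_adjoin_iff_top, ht0, Algebra.isAlgebraic_iff_isIntegral]
      refine Algebra.isIntegral_of_surjective IntermediateField.topEquiv.surjective
    have ⟨t, hts, ht⟩ := exists_isTranscendenceBasis_subset (R := ℚ) (t0 : Set E)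
    lift t to Finset E using t0.finite_toSet.subset hts
    exact ⟨t, ht⟩
  let κ : Type := (t : Set E)
  let x : κ → E := fun i => i.1
  haveI : Finite κ := t.finite_toSet
  have hx : IsTranscendenceBasis ℚ x := ht
  have hxZ : AlgebraicIndependent ℤ x :=
    hx.1.restrictScalars (RingHom.injective_int (algebraMap ℤ ℚ))
  let ι : MvPolynomial κ ℤ →+* E := (MvPolynomial.aeval x : MvPolynomial κ ℤ →ₐ[ℤ] E).toRingHom
  have hι : Function.Injective ι := hxZ
  let ψ : FractionRing (MvPolynomial κ ℤ) →+* E := IsFractionRing.lift hι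
  letI : Algebra (FractionRing (MvPolynomial κ ℤ)) E := ψ.toAlgebra
  haveI hchar : CharZero (FractionRing (MvPolynomial κ ℤ)) := ψ.charZero_iff ψ.injective |>.2 inferInstance
  letI : Algebra ℚ (FractionRing (MvPolynomial κ ℤ)) := DivisionRing.toRatAlgebra
  haveI : IsScalarTower ℚ (FractionRing (MvPolynomial κ ℤ)) E :=
    IsScalarTower.of_algebraMap_eq' (Subsingleton.elim _ _)
  haveI : Algebra.IsAlgebraic (FractionRing (MvPolynomial κ ℤ)) E := by
    refine (hx.isAlgebraic_iff (S := FractionRing (MvPolynomial κ ℤ))).2 (fun i => ?_)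
    have h1 : x i = algebraMap (FractionRing (MvPolynomial κ ℤ)) E
        (algebraMap (MvPolynomial κ ℤ) _ (MvPolynomial.X i)) := by
      change x i = ψ _
      rw [IsFractionRing.lift_algebraMap hι]
      simp [ι]
    rw [h1]
    exact isAlgebraic_algebraMap _
  haveI : Algebra.EssFiniteType (FractionRing (MvPolynomial κ ℤ)) E :=
    Algebra.EssFiniteType.of_comp ℚ _ _
  haveI : FiniteDimensional (FractionRing (MvPolynomial κ ℤ)) E :=
    Algebra.finite_of_essFiniteType_of_isAlgebraic
  exact embed_core (κ := κ) (E := E)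

end Pool.Agent.Helper59.DML
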