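import Mathlib

/-!
# DML: binary forms, homogeneous lifts of rational maps of the projective line
-/

set_option autoImplicit false
set_option linter.unusedSectionVars false

namespace Pool.Agent.Helper59.DML

open Finset Function

/-- value at `v` of the binary form `∑ a_i X^i Y^(d-i)`. -/
def form {R : Type*} [CommRing R] {d : ℕ} (a : Fin (d + 1) → R) (v : Fin 2 → R) : R :=
  ∑ i : Fin (d + 1), a i * v 0 ^ (i : ℕ) * v 1 ^ (d - (i : ℕ))

/-- the homogeneous lift `(X,Y) ↦ (A(X,Y), B(X,Y))` of the rational map `[A : B]`, where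
`A = ∑ c_{0,i} X^i Y^(d-i)`, `B = ∑ c_{1,i} X^i Y^(d-i)`. -/
def hlift {R : Type*} [CommRing R] {d : ℕ} (c : Fin 2 → Fin (d + 1) → R) (v : Fin 2 → R) :
    Fin 2 → R := fun k => form (c k) v

section
variable {R : Type*} [CommRing R] {d : ℕ}

/-- derivative of a form at `v` in the direction `w`. -/
def dform (a : Fin (d + 1) → R) (v w : Fin 2 → R) : R :=
  ∑ i : Fin (d + 1), a i * (((i : ℕ) : R) * v 0 ^ ((i : ℕ) - 1) * w 0 * v 1 ^ (d - (i : ℕ)) +
    v 0 ^ (i : ℕ) * (((d - (i : ℕ) : ℕ) : R) * v 1 ^ (d - (i : ℕ) - 1) * w 1))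

def dlift (c : Fin 2 → Fin (d + 1) → R) (v w : Fin 2 → R) : Fin 2 → R := fun k => dform (c k) v w

def det2 (v w : Fin 2 → R) : R := v 0 * w 1 - v 1 * w 0

/-- the reduced Jacobian of `[A : B]`: the Jacobian determinant divided by `d`, up to sign. -/
def jac (c : Fin 2 → Fin (d + 1) → R) (v : Fin 2 → R) : R :=
  ∑ i : Fin (d + 1), ∑ j : Fin (d + 1), c 0 i * c 1 j * (((i : ℕ) : R) - ((j : ℕ) : R)) *
    (v 0 ^ ((i : ℕ) + (j : ℕ) - 1) * v 1 ^ ((d - (i : ℕ)) + (d - (j : ℕ)) - 1))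

theorem mono_det (i i' j j' : ℕ) (h : i + i' = j + j') (X Y w0 w1 : R) :
    X ^ i * Y ^ i' * ((j : R) * X ^ (j - 1) * w0 * Y ^ j' + X ^ j * ((j' : R) * Y ^ (j' - 1) * w1)) -
      X ^ j * Y ^ j' * ((i : R) * X ^ (i - 1) * w0 * Y ^ i' + X ^ i * ((i' : R) * Y ^ (i' - 1) * w1)) =
    (X * w1 - Y * w0) * (((i : R) - (j : R)) * (X ^ (i + j - 1) * Y ^ (i' + j' - 1))) := by
  have h1 : (i : R) * (X ^ j * X ^ (i - 1)) = (i : R) * X ^ (i + j - 1) := by
    rcases i with _ | i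
    · simp
    · rw [← pow_add]; congr 2; omega
  have h2 : (j : R) * (X ^ i * X ^ (j - 1)) = (j : R) * X ^ (i + j - 1) := by
    rcases j with _ | j
    · simp
    · rw [← pow_add]; congr 2
  have h3 : (i' : R) * (Y ^ j' * Y ^ (i' - 1)) = (i' : R) * Y ^ (i' + j' - 1) := by
    rcases i' with _ | i'
    · simp
    · rw [← pow_add]; congr 2; omega
  have h4 : (j' : R) * (Y ^ i' * Y ^ (j' - 1)) = (j' : R) * Y ^ (i' + j' - 1) := by
    rcases j' with _ | j'
    · simp
    · rw [← pow_add]; congr 2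
  have h5 : (i : R) + (i' : R) = (j : R) + (j' : R) := by exact_mod_cast congrArg (Nat.cast (R := R)) h
  -- powers of `X`
  have h6 : ((i : R) - j) * (X ^ (i + j - 1) * X) = ((i : R) - j) * (X ^ i * X ^ j) := by
    rcases Nat.eq_zero_or_pos (i + j) with h0 | h0
    · have : i = 0 ∧ j = 0 := by omega
      rw [this.1, this.2]; simp
    · rw [← pow_succ, ← pow_add]; congr 2; omega
  have h7 : ((i : R) - j) * (Y ^ (i' + j' - 1) * Y) = ((i : R) - j) * (Y ^ i' * Y ^ j') := by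
    rcases Nat.eq_zero_or_pos (i' + j') with h0 | h0
    · have h8 : i' = 0 ∧ j' = 0 := by omega
      have h9 : (i : R) - j = 0 := by
        rw [h8.1, h8.2] at h5; simp only [Nat.cast_zero, add_zero] at h5; rw [h5]; simp
      rw [h9]; simp
    · rw [← pow_succ, ← pow_add]; congr 2; omega
  linear_combination (w0 * Y ^ i' * Y ^ j') * (h2 - h1) + (w1 * X ^ i * X ^ j) * (h4 - h3) -
    w1 * Y ^ (i' + j' - 1) * h6 + w0 * X ^ (i + j - 1) * h7 -
    (w1 * X ^ i * X ^ j * Y ^ (i' + j' - 1)) * h5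

theorem det_dlift (c : Fin 2 → Fin (d + 1) → R) (v w : Fin 2 → R) :
    det2 (hlift c v) (dlift c v w) = det2 v w * jac c v := by
  have h1 : det2 (hlift c v) (dlift c v w) = ∑ i : Fin (d + 1), ∑ j : Fin (d + 1),
      c 0 i * c 1 j * (v 0 ^ (i : ℕ) * v 1 ^ (d - (i : ℕ)) * (((j : ℕ) : R) * v 0 ^ ((j : ℕ) - 1) * w 0 *
        v 1 ^ (d - (j : ℕ)) + v 0 ^ (j : ℕ) * (((d - (j : ℕ) : ℕ) : R) * v 1 ^ (d - (j : ℕ) - 1) * w 1)) -
        v 0 ^ (j : ℕ) * v 1 ^ (d - (j : ℕ)) * (((i : ℕ) : R) * v 0 ^ ((i : ℕ) - 1) * w 0 *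
        v 1 ^ (d - (i : ℕ)) + v 0 ^ (i : ℕ) * (((d - (i : ℕ) : ℕ) : R) * v 1 ^ (d - (i : ℕ) - 1) * w 1))) := by
    simp only [det2, hlift, dlift, form, dform]
    rw [Finset.sum_mul_sum, Finset.sum_mul_sum]
    rw [Finset.sum_comm (s := univ) (t := univ) (f := fun (i j : Fin (d + 1)) => c 1 i * v 0 ^ (i : ℕ) *
      v 1 ^ (d - (i : ℕ)) * _)]
    rw [← Finset.sum_sub_distrib]
    refine Finset.sum_congr rfl fun i _ => ?_
    rw [← Finset.sum_sub_distrib]
    refine Finset.sum_congr rfl fun j _ => ?_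
    ring
  rw [h1, jac, Finset.mul_sum]
  refine Finset.sum_congr rfl fun i _ => ?_
  rw [Finset.mul_sum]
  refine Finset.sum_congr rfl fun j _ => ?_
  rw [mono_det (i : ℕ) (d - (i : ℕ)) (j : ℕ) (d - (j : ℕ)) (by omega)]
  simp only [det2]
  ring

theorem form_smul (a : Fin (d + 1) → R) (l : R) (v : Fin 2 → R) :
    form a (fun k => l * v k) = l ^ d * form a v := by
  simp only [form, Finset.mul_sum]
  refine Finset.sum_congr rfl fun i _ => ?_
  have h : l ^ d = l ^ (i : ℕ) * l ^ (d - (i : ℕ)) := by rw [← pow_add]; congr 1; omega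
  rw [mul_pow, mul_pow, h]
  ring

theorem hlift_smul (c : Fin 2 → Fin (d + 1) → R) (l : R) (v : Fin 2 → R) :
    hlift c (fun k => l * v k) = fun k => l ^ d * hlift c v k := by
  funext k
  exact form_smul (c k) l v

theorem hlift_iter_smul (c : Fin 2 → Fin (d + 1) → R) (l : R) (v : Fin 2 → R) (n : ℕ) :
    (hlift c)^[n] (fun k => l * v k) = fun k => l ^ (d ^ n) * (hlift c)^[n] v k := by
  induction n with
  | zero => simp
  | succ n ih =>
    rw [iterate_succ_apply', ih, hlift_smul, iterate_succ_apply']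
    funext k
    rw [← pow_mul, ← pow_succ]

theorem map_form {S : Type*} [CommRing S] (f : R →+* S) (a : Fin (d + 1) → R) (v : Fin 2 → R) :
    f (form a v) = form (fun i => f (a i)) (fun k => f (v k)) := by
  simp [form, map_sum]

theorem map_hlift {S : Type*} [CommRing S] (f : R →+* S) (c : Fin 2 → Fin (d + 1) → R)
    (v : Fin 2 → R) : (fun k => f (hlift c v k)) = hlift (fun k i => f (c k i)) (fun k => f (v k)) := by
  funext k
  exact map_form f (c k) v

theorem map_hlift_iter {S : Type*} [CommRing S] (f : R →+* S) (c : Fin 2 → Fin (d + 1) → R)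
    (v : Fin 2 → R) (n : ℕ) : (fun k => f ((hlift c)^[n] v k)) =
      (hlift (fun k i => f (c k i)))^[n] (fun k => f (v k)) := by
  induction n with
  | zero => simp
  | succ n ih => rw [iterate_succ_apply', iterate_succ_apply', ← ih, map_hlift]

theorem map_jac {S : Type*} [CommRing S] (f : R →+* S) (c : Fin 2 → Fin (d + 1) → R)
    (v : Fin 2 → R) : f (jac c v) = jac (fun k i => f (c k i)) (fun k => f (v k)) := by
  simp [jac, map_sum]

end

end Pool.Agent.Helper59.DML
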