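import Pool.Agent.Helper59.DML.Transfer

/-!
# DML: the residue field; orbits avoiding the periodic critical residue classes
-/

set_option autoImplicit false
set_option linter.unusedSectionVars false

namespace Pool.Agent.Helper59.DML

open Finset Function Filter Topology

section
variable {K : Type*} [NontriviallyNormedField K] [IsUltrametricDist K]

/-- the ring of integers and the residue field, abstractly. -/
theorem exists_residue (K : Type) [NontriviallyNormedField K] [IsUltrametricDist K] :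
    ∃ (O : Subring K) (k : Type) (_ : Field k) (π : O →+* k), (∀ x, x ∈ O ↔ ‖x‖ ≤ 1) ∧
      ∀ x : O, π x = 0 ↔ ‖(x : K)‖ < 1 := by
  set V := (NormedField.valuation (K := K)).valuationSubring with hV
  have hmem : ∀ x, x ∈ V ↔ ‖x‖ ≤ 1 := fun x => Iff.rfl
  refine ⟨V.toSubring, IsLocalRing.ResidueField ↥V, inferInstance, IsLocalRing.residue ↥V, hmem, ?_⟩
  intro x
  have h1 : IsLocalRing.residue ↥V (x : ↥V) = 0 ↔ ¬ IsUnit (x : ↥V) := by
    rw [← RingHom.mem_ker, IsLocalRing.ker_residue, IsLocalRing.mem_maximalIdeal, mem_nonunits_iff]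
  refine h1.trans ?_
  have hx : ‖(x : K)‖ ≤ 1 := (hmem x).1 x.2
  constructor
  · intro h
    by_contra hlt
    push Not at hlt
    have h2 : ‖(x : K)‖ = 1 := le_antisymm hx hlt
    have hne : (x : K) ≠ 0 := by intro h0; rw [h0] at h2; simp at h2
    apply h
    refine IsUnit.of_mul_eq_one ⟨(x : K)⁻¹, (hmem _).2 (by rw [norm_inv, h2]; simp)⟩ ?_
    exact Subtype.ext (mul_inv_cancel₀ hne)
  · intro h hu
    obtain ⟨y, hy⟩ := hu.exists_right_inv
    have h2 : (x : K) * (y : K) = 1 := congrArg Subtype.val hy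
    have h3 : ‖(x : K)‖ * ‖(y : K)‖ = 1 := by rw [← norm_mul, h2, norm_one]
    have h4 : ‖(y : K)‖ ≤ 1 := (hmem y).1 y.2
    have := mul_lt_one_of_nonneg_of_lt_one_left (norm_nonneg (x : K)) h h4
    linarith

/-- the core theorem in terms of the reduction: good reduction, and no periodic vector over the
residue field is critical. -/
theorem core_res [ProperSpace K] [CharZero K] {p : ℕ} (hp : p.Prime) (hp1 : ‖(p : K)‖ < 1)
    {k : Type*} [Field k] {O : Subring K} (hO : ∀ x, x ∈ O ↔ ‖x‖ ≤ 1) (π : O →+* k)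
    (hπ : ∀ x : O, π x = 0 ↔ ‖(x : K)‖ < 1)
    {ι : Type*} [Fintype ι] {d : ι → ℕ} (c : (i : ι) → Fin 2 → Fin (d i + 1) → O)
    (hred : ∀ i, ∀ u : Fin 2 → k, u ≠ 0 → hlift (fun a j => π (c i a j)) u ≠ 0)
    (hper : ∀ i, ∀ u : Fin 2 → k, u ≠ 0 → ∀ l, 0 < l →
      (hlift (fun a j => π (c i a j)))^[l] u = u → jac (fun a j => π (c i a j)) u ≠ 0)
    {v : ι → Fin 2 → K} (hv : ∀ i, v i ≠ 0) {H : MvPolynomial (ι × Fin 2) K} (hH : MHom H) :
    EP (fun n => MvPolynomial.eval (fun x => (hlift (fun a j => ((c x.1 a j : O) : K)))^[n]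
      (v x.1) x.2) H = 0) := by
  have hc1 : ∀ i a j, ‖((c i a j : O) : K)‖ ≤ 1 := fun i a j => (hO _).1 (c i a j).2
  have hOn : ∀ x : O, ‖(x : K)‖ ≤ 1 := fun x => (hO _).1 x.2
  -- a primitive vector is the image of an `O`-vector with nonzero reduction
  have hlift1 : ∀ u : Fin 2 → K, ‖u‖ = 1 → ∃ x : Fin 2 → O, (∀ a, ((x a : O) : K) = u a) ∧
      (fun a => π (x a)) ≠ 0 := by
    intro u hu
    refine ⟨fun a => ⟨u a, (hO _).2 ((norm_le_pi_norm u a).trans hu.le)⟩, fun _ => rfl, fun h0 => ?_⟩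
    have h4 : ∀ a, ‖u a‖ < 1 := fun a => (hπ _).1 (congrFun h0 a)
    have := (pi_norm_lt_iff one_pos).2 h4
    linarith
  have hone : ∀ x : Fin 2 → O, (fun a => π (x a)) ≠ 0 → ‖(fun a => ((x a : O) : K))‖ = 1 := by
    intro x hx
    refine le_antisymm ((pi_norm_le_iff_of_nonneg zero_le_one).2 fun a => hOn _) ?_
    by_contra hlt
    push Not at hlt
    apply hx
    funext a
    exact (hπ _).2 ((norm_le_pi_norm (fun a => ((x a : O) : K)) a).trans_lt hlt)
  have hliftO : ∀ i (x : Fin 2 → O) (n : ℕ), (fun a => (((hlift (c i))^[n] x a : O) : K)) =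
      (hlift (fun a j => ((c i a j : O) : K)))^[n] (fun a => ((x a : O) : K)) :=
    fun i x n => map_hlift_iter O.subtype (c i) x n
  have hliftk : ∀ i (x : Fin 2 → O) (n : ℕ), (fun a => π ((hlift (c i))^[n] x a)) =
      (hlift (fun a j => π (c i a j)))^[n] (fun a => π (x a)) :=
    fun i x n => map_hlift_iter π (c i) x n
  have hred' : ∀ i, ∀ u : Fin 2 → K, ‖u‖ = 1 → ‖hlift (fun a j => ((c i a j : O) : K)) u‖ = 1 := by
    intro i u hu
    obtain ⟨x, hx, hx2⟩ := hlift1 u hu
    have e1 : u = fun a => ((x a : O) : K) := funext fun a => (hx a).symm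
    have e2 := hliftO i x 1
    simp only [iterate_one] at e2
    rw [e1, ← e2]
    refine hone _ ?_
    have e3 := hliftk i x 1
    simp only [iterate_one] at e3
    rw [e3]
    exact hred i _ hx2
  refine core' hp hp1 hc1 hred' (fun i u hu => ?_) hv hH
  -- periodicity modulo `p`
  obtain ⟨x, hx, hx2⟩ := hlift1 u hu
  have e1 : u = fun a => ((x a : O) : K) := funext fun a => (hx a).symm
  have hiter : ∀ n, ‖(hlift (fun a j => ((c i a j : O) : K)))^[n] u‖ = 1 := by
    intro n
    induction n with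
    | zero => exact hu
    | succ n ih => rw [iterate_succ_apply']; exact hred' i _ ih
  obtain ⟨n₁, m, -, hnm, hd⟩ := pigeon (x := fun n => (hlift (fun a j => ((c i a j : O) : K)))^[n] u)
    (c := (0 : Fin 2 → K)) (r := 1) (fun n => by
      rw [mem_closedBall_zero_iff]; exact (hiter n).le) one_pos 0
  set y : ℕ → Fin 2 → k := fun n => (hlift (fun a j => π (c i a j)))^[n] (fun a => π (x a)) with hy
  have hyn : ∀ n, y n = fun a => π ((hlift (c i))^[n] x a) := fun n => (hliftk i x n).symm
  have hyeq : y n₁ = y m := by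
    rw [hyn, hyn]
    funext a
    rw [← sub_eq_zero, ← map_sub, hπ]
    have e2 := congrFun (hliftO i x n₁) a
    have e3 := congrFun (hliftO i x m) a
    have e8 : (((hlift (c i))^[n₁] x a - (hlift (c i))^[m] x a : O) : K) =
        ((((hlift (c i))^[n₁] x a : O) : K) - (((hlift (c i))^[m] x a : O) : K)) := rfl
    rw [e8, e2, e3, ← e1, ← dist_eq_norm]
    exact (dist_le_pi_dist _ _ a).trans_lt hd
  have hper' : ∀ n, n₁ ≤ n → (hlift (fun a j => π (c i a j)))^[m - n₁] (y n) = y n := by
    intro n hn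
    have e4 : y n = (hlift (fun a j => π (c i a j)))^[n - n₁] (y n₁) := by
      rw [hy]; simp only
      rw [← iterate_add_apply]; congr 2; omega
    have e5 : (hlift (fun a j => π (c i a j)))^[m - n₁] (y n₁) = y m := by
      rw [hy]; simp only
      rw [← iterate_add_apply]; congr 2; omega
    rw [e4, ← iterate_add_apply, add_comm (m - n₁) (n - n₁), iterate_add_apply, e5, ← hyeq]
  have hyne : ∀ n, y n ≠ 0 := by
    intro n
    induction n with
    | zero => exact hx2
    | succ n ih =>
      have : y (n + 1) = hlift (fun a j => π (c i a j)) (y n) := by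
        rw [hy]; simp only [iterate_succ_apply']
      rw [this]
      exact hred i _ ih
  refine ⟨n₁, fun n hn => ?_⟩
  have h1 := hper i (y n) (hyne n) (m - n₁) (by omega) (hper' n hn)
  have e6 : jac (fun a j => π (c i a j)) (y n) = π (jac (c i) ((hlift (c i))^[n] x)) := by
    rw [map_jac, hyn]
  have e7 : jac (fun a j => ((c i a j : O) : K)) ((hlift (fun a j => ((c i a j : O) : K)))^[n] u) =
      ((jac (c i) ((hlift (c i))^[n] x) : O) : K) := by
    have := map_jac O.subtype (c i) ((hlift (c i))^[n] x)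
    rw [e1, ← hliftO]
    exact this.symm
  rw [e6] at h1
  rw [e7]
  refine le_antisymm (hOn _) ?_
  by_contra hlt
  push Not at hlt
  exact h1 ((hπ _).2 hlt)

end

end Pool.Agent.Helper59.DML
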