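import Pool.Agent.Helper59.DML.Forms

/-!
# DML: maps of every degree without periodic critical points modulo `p`
-/

set_option autoImplicit false

namespace Pool.Agent.Helper59.DML

open Finset Function

section
variable {k : Type*} [Field k] {d : ℕ}

/-- the pair `(X^d + b Y^d, X^d)`, i.e. the map `z ↦ 1 + b z^{-d}`. -/
def spec (R : Type*) [CommRing R] (d : ℕ) (b : R) : Fin 2 → Fin (d + 1) → R :=
  fun i j => if i = 0 then (if j = 0 then b else if j = Fin.last d then 1 else 0)
    else (if j = Fin.last d then 1 else 0)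

theorem spec_one_form {R : Type*} [CommRing R] (b : R) (u : Fin 2 → R) :
    form (spec R d b 1) u = u 0 ^ d := by
  rw [form, Finset.sum_eq_single (Fin.last d)]
  · simp [spec]
  · intro j _ hj
    simp [spec, hj]
  · simp

theorem spec_zero_form {R : Type*} [CommRing R] (hd : 1 ≤ d) (b : R) (u : Fin 2 → R) :
    form (spec R d b 0) u = u 0 ^ d + b * u 1 ^ d := by
  have h0 : (Fin.last d) ≠ 0 := by
    intro h; have := congrArg Fin.val h; simp at this; omega
  have h1 : ∀ j : Fin (d + 1), spec R d b 0 j = (if j = 0 then b else 0) +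
      (if j = Fin.last d then 1 else 0) := by
    intro j
    by_cases hj : j = 0
    · subst hj
      simp [spec, h0.symm]
    · simp [spec, hj]
  simp only [form, h1, add_mul, Finset.sum_add_distrib]
  rw [Finset.sum_eq_single (0 : Fin (d + 1)), Finset.sum_eq_single (Fin.last d)]
  · simp; ring
  · intro j _ hj; simp [hj]
  · simp
  · intro j _ hj; simp [hj]
  · simp

theorem spec_jac {R : Type*} [CommRing R] (hd : 1 ≤ d) (b : R) (u : Fin 2 → R) :
    jac (spec R d b) u = -((d : R) * b * (u 0 ^ (d - 1) * u 1 ^ (d - 1))) := by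
  have h0 : (Fin.last d) ≠ 0 := by
    intro h; have := congrArg Fin.val h; simp at this; omega
  have hin : ∀ i : Fin (d + 1), ∑ j : Fin (d + 1), spec R d b 0 i * spec R d b 1 j *
      (((i : ℕ) : R) - ((j : ℕ) : R)) *
      (u 0 ^ ((i : ℕ) + (j : ℕ) - 1) * u 1 ^ ((d - (i : ℕ)) + (d - (j : ℕ)) - 1)) =
      spec R d b 0 i * (((i : ℕ) : R) - (d : R)) *
      (u 0 ^ ((i : ℕ) + d - 1) * u 1 ^ ((d - (i : ℕ)) - 1)) := by
    intro i
    rw [Finset.sum_eq_single (Fin.last d)]
    · simp [spec]
    · intro j _ hj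
      simp [spec, hj]
    · simp
  rw [jac]
  simp only [hin]
  rw [Finset.sum_eq_single (0 : Fin (d + 1))]
  · simp [spec]; ring
  · intro i _ hi
    by_cases h : i = Fin.last d
    · subst h; simp
    · simp [spec, hi, h]
  · simp

/-- no critical vector is periodic. -/
theorem spec_good (hd : 2 ≤ d) (hdk : (d : k) ≠ 0) {z b : k} (hz : z ^ d = 1) (hz1 : z ≠ 1)
    (hb : b = z - 1) :
    (∀ u : Fin 2 → k, u ≠ 0 → hlift (spec k d b) u ≠ 0) ∧
      ∀ u : Fin 2 → k, u ≠ 0 → ∀ l, 0 < l → (hlift (spec k d b))^[l] u = u →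
        jac (spec k d b) u ≠ 0 := by
  have hd1 : 1 ≤ d := by omega
  have hz0 : z ≠ 0 := by
    intro h; rw [h, zero_pow (by omega)] at hz; exact zero_ne_one hz
  have hb0 : b ≠ 0 := by rw [hb]; exact sub_ne_zero.2 hz1
  have hf0 : ∀ u : Fin 2 → k, hlift (spec k d b) u 0 = u 0 ^ d + b * u 1 ^ d :=
    fun u => spec_zero_form hd1 b u
  have hf1 : ∀ u : Fin 2 → k, hlift (spec k d b) u 1 = u 0 ^ d := fun u => spec_one_form b u
  refine ⟨fun u hu h => ?_, fun u hu l hl hper hj => ?_⟩
  · have h1 := congrFun h 1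
    rw [hf1] at h1
    have h2 : u 0 = 0 := (pow_eq_zero_iff (by omega)).1 h1
    have h3 := congrFun h 0
    rw [hf0, h2, zero_pow (by omega), zero_add] at h3
    rcases mul_eq_zero.1 h3 with h4 | h4
    · exact hb0 h4
    · apply hu
      funext a
      fin_cases a
      · exact h2
      · exact (pow_eq_zero_iff (by omega)).1 h4
  · -- the orbit ends in the fixed point `z`
    set G : Set (Fin 2 → k) := {w | w 1 ≠ 0 ∧ w 0 = z * w 1} with hG
    have hGs : ∀ w ∈ G, hlift (spec k d b) w ∈ G := by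
      rintro w ⟨h1, h2⟩
      have h3 : w 0 ≠ 0 := by rw [h2]; exact mul_ne_zero hz0 h1
      refine ⟨by rw [hf1]; exact pow_ne_zero _ h3, ?_⟩
      rw [hf0, hf1, h2, mul_pow, hz, hb]; ring
    have hGm : ∀ n, ∀ w ∈ G, (hlift (spec k d b))^[n] w ∈ G := by
      intro n
      induction n with
      | zero => intro w hw; exact hw
      | succ n ih => intro w hw; rw [iterate_succ_apply']; exact hGs _ (ih w hw)
    have hdiag : ∀ w : Fin 2 → k, w 1 ≠ 0 → w 0 = w 1 → hlift (spec k d b) w ∈ G := by
      intro w h1 h2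
      refine ⟨by rw [hf1, h2]; exact pow_ne_zero _ h1, ?_⟩
      rw [hf0, hf1, h2, hb]; ring
    have hinf : ∀ w : Fin 2 → k, w 0 ≠ 0 → w 1 = 0 → (hlift (spec k d b))^[2] w ∈ G := by
      intro w h1 h2
      have e1 : hlift (spec k d b) w 1 = w 0 ^ d := hf1 w
      have e2 : hlift (spec k d b) w 0 = w 0 ^ d := by
        rw [hf0, h2, zero_pow (by omega)]; ring
      exact hdiag _ (by rw [e1]; exact pow_ne_zero _ h1) (by rw [e1, e2])
    have hzero : ∀ w : Fin 2 → k, w 1 ≠ 0 → w 0 = 0 → (hlift (spec k d b))^[3] w ∈ G := by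
      intro w h1 h2
      have e1 : hlift (spec k d b) w 1 = 0 := by rw [hf1, h2, zero_pow (by omega)]
      have e2 : hlift (spec k d b) w 0 ≠ 0 := by
        rw [hf0, h2, zero_pow (by omega), zero_add]
        exact mul_ne_zero hb0 (pow_ne_zero _ h1)
      exact hinf _ e2 e1
    have hj0 : u 0 = 0 ∨ u 1 = 0 := by
      rw [spec_jac hd1] at hj
      have h1 := neg_eq_zero.1 hj
      rcases mul_eq_zero.1 h1 with h2 | h2
      · exact absurd h2 (mul_ne_zero hdk hb0)
      · rcases mul_eq_zero.1 h2 with h3 | h3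
        · exact Or.inl ((pow_eq_zero_iff (by omega)).1 h3)
        · exact Or.inr ((pow_eq_zero_iff (by omega)).1 h3)
    have hmem3 : (hlift (spec k d b))^[3] u ∈ G := by
      rcases hj0 with h0 | h0
      · refine hzero u (fun h1 => hu ?_) h0
        funext a
        fin_cases a
        · exact h0
        · exact h1
      · have h1 : u 0 ≠ 0 := fun h1 => hu (by
          funext a
          fin_cases a
          · exact h1
          · exact h0)
        have := hinf u h1 h0
        have e : (hlift (spec k d b))^[3] u = hlift (spec k d b) ((hlift (spec k d b))^[2] u) :=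
          iterate_succ_apply' _ 2 u
        rw [e]
        exact hGs _ this
    have hper3 : (hlift (spec k d b))^[3 * l] u = u := by
      have h1 : IsPeriodicPt (hlift (spec k d b)) l u := hper
      exact (h1.const_mul 3)
    obtain ⟨m, hm⟩ : ∃ m, 3 * l = m + 3 := ⟨3 * l - 3, by omega⟩
    rw [hm, iterate_add_apply] at hper3
    have hu2 := hGm m _ hmem3
    rw [hper3] at hu2
    rcases hj0 with h0 | h0
    · have := hu2.2
      rw [h0] at this
      exact mul_ne_zero hz0 hu2.1 this.symm
    · exact hu2.1 h0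

/-- the identity as a pair of linear forms. -/
def idc (R : Type*) [CommRing R] : Fin 2 → Fin (1 + 1) → R :=
  fun i j => if i = 0 then (if j = 0 then 0 else 1) else (if j = 0 then 1 else 0)

theorem idc_good : (∀ u : Fin 2 → k, u ≠ 0 → hlift (idc k) u ≠ 0) ∧
      ∀ u : Fin 2 → k, jac (idc k) u ≠ 0 := by
  have h1 : ∀ u : Fin 2 → k, hlift (idc k) u = u := by
    intro u
    funext a
    fin_cases a <;> simp [hlift, form, idc, Fin.sum_univ_two]
  refine ⟨fun u hu => by rw [h1]; exact hu, fun u => ?_⟩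
  simp [jac, idc, Fin.sum_univ_two]

end

/-- for `d ∣ p - 1` there is an integer map of degree `d` whose reductions have no periodic
critical point. -/
theorem exists_special {d : ℕ} (hd : 1 ≤ d) {p : ℕ} (hp : p.Prime) (hdp : d ∣ p - 1) :
    ∃ r : Fin 2 → Fin (d + 1) → ℤ, ∀ (k : Type) [Field k], (p : k) = 0 →
      (∀ u : Fin 2 → k, u ≠ 0 → hlift (fun a j => ((r a j : ℤ) : k)) u ≠ 0) ∧
      ∀ u : Fin 2 → k, u ≠ 0 → ∀ l, 0 < l → (hlift (fun a j => ((r a j : ℤ) : k)))^[l] u = u →
        jac (fun a j => ((r a j : ℤ) : k)) u ≠ 0 := by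
  rcases Nat.lt_or_ge d 2 with h | h
  · interval_cases d
    refine ⟨idc ℤ, fun k _ _ => ?_⟩
    have e : (fun a j => ((idc ℤ a j : ℤ) : k)) = idc k := by
      funext a j
      simp only [idc]
      split_ifs <;> simp
    rw [e]
    exact ⟨idc_good.1, fun u _ l _ _ => idc_good.2 u⟩
  · have : Fact p.Prime := ⟨hp⟩
    -- a nontrivial `d`-th root of unity modulo `p`
    obtain ⟨g, hg⟩ := IsCyclic.exists_generator (α := (ZMod p)ˣ)
    have hord : orderOf g = p - 1 := by
      rw [orderOf_eq_card_of_forall_mem_zpowers hg, Nat.card_eq_fintype_card, ZMod.card_units]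
    obtain ⟨m, hm⟩ := hdp
    have hp1 : 0 < p - 1 := by have := hp.two_le; omega
    have hm0 : 0 < m := by
      rcases Nat.eq_zero_or_pos m with h0 | h0
      · rw [h0] at hm; omega
      · exact h0
    have hz : (g ^ m) ^ d = 1 := by
      rw [← pow_mul, mul_comm, ← hm, ← hord, pow_orderOf_eq_one]
    have hz1 : g ^ m ≠ 1 := by
      intro h1
      have h2 := orderOf_dvd_of_pow_eq_one h1
      rw [hord, hm] at h2
      have h3 := Nat.le_of_dvd hm0 h2
      nlinarith
    have hpd : ¬ p ∣ d := by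
      intro h1
      have h2 : d ≤ p - 1 := Nat.le_of_dvd hp1 ⟨m, hm⟩
      have h3 := Nat.le_of_dvd (by omega) h1
      have := hp.two_le
      omega
    set zi : ℤ := (((g ^ m : (ZMod p)ˣ) : ZMod p).val : ℤ) with hzi
    have hzc : ((zi : ℤ) : ZMod p) = ((g ^ m : (ZMod p)ˣ) : ZMod p) := by
      rw [hzi]; simp
    refine ⟨spec ℤ d (zi - 1), fun k _ hpk => ?_⟩
    have hchar : ∀ x : ℤ, ((x : ℤ) : ZMod p) = 0 → ((x : ℤ) : k) = 0 := by
      intro x hx
      rw [ZMod.intCast_zmod_eq_zero_iff_dvd] at hx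
      obtain ⟨y, rfl⟩ := hx
      push_cast
      rw [hpk, zero_mul]
    have hchar2 : ∀ x : ℤ, ((x : ℤ) : ZMod p) ≠ 0 → ((x : ℤ) : k) ≠ 0 := by
      intro x hx h0
      have h1 : ((x : ℤ) : ZMod p) * ((x : ℤ) : ZMod p)⁻¹ = 1 := mul_inv_cancel₀ hx
      set y : ℤ := (((x : ℤ) : ZMod p)⁻¹.val : ℤ) with hy
      have h2 : ((x * y - 1 : ℤ) : ZMod p) = 0 := by
        have hyc : ((y : ℤ) : ZMod p) = ((x : ℤ) : ZMod p)⁻¹ := by
          rw [hy, Int.cast_natCast, ZMod.natCast_zmod_val]
        push_cast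
        rw [hyc, h1, sub_self]
      have h3 := hchar _ h2
      push_cast at h3
      rw [h0, zero_mul, zero_sub, neg_eq_zero] at h3
      exact one_ne_zero h3
    have e : (fun a j => ((spec ℤ d (zi - 1) a j : ℤ) : k)) = spec k d ((zi : k) - 1) := by
      funext a j
      simp only [spec]
      split_ifs <;> simp
    rw [e]
    refine spec_good h ?_ (z := (zi : k)) ?_ ?_ rfl
    · have h1 : (((d : ℕ) : ℤ) : ZMod p) ≠ 0 := by
        rw [Int.cast_natCast, Ne, ZMod.natCast_eq_zero_iff]; exact hpd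
      have := hchar2 _ h1
      simpa using this
    · have h1 : ((zi ^ d - 1 : ℤ) : ZMod p) = 0 := by
        push_cast
        rw [hzc, ← Units.val_pow_eq_pow_val, hz]; simp
      have := hchar _ h1
      push_cast at this
      exact sub_eq_zero.1 this
    · intro h1
      have h2 : ((zi - 1 : ℤ) : ZMod p) ≠ 0 := by
        push_cast
        rw [hzc]
        intro h3
        apply hz1
        ext
        rw [sub_eq_zero] at h3
        simpa using h3
      have h4 := hchar2 _ h2
      push_cast at h4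
      exact h4 (by rw [h1, sub_self])

end Pool.Agent.Helper59.DML
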