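import Pool.Agent.Helper59.DML.LocalExt
import Pool.Agent.Helper59.DML.Residue
import Pool.Agent.Helper59.DML.Special

/-!
# DML for fields embedded into finite extensions of `ℚ_p`
-/

set_option autoImplicit false

namespace Pool.Agent.Helper59.DML

open Finset Function Filter Topology

/-- dynamical Mordell-Lang over a finitely generated field `L`, where the coefficients of the maps
are given by algebraically independent elements congruent to a good reduction, and constants. -/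
theorem dml_reduction {p : ℕ} [hp : Fact p.Prime] {L : Type} [Field L] [Algebra ℚ L] {E : Type*}
    [Field E] [Algebra L E] (S : Set L) (hSf : S.Finite) (hS : IntermediateField.adjoin ℚ S = ⊤)
    {κ : Type} [Finite κ] (a : κ → L) (ha : AlgebraicIndependent ℚ a) (r : κ → ℤ)
    {ι : Type} [Fintype ι] {d : ι → ℕ} (c : (i : ι) → Fin 2 → Fin (d i + 1) → L)
    (c₀ : (i : ι) → Fin 2 → Fin (d i + 1) → ℤ)
    (hc : ∀ i b j, c i b j = ((c₀ i b j : ℤ) : L) ∨ ∃ x, c i b j = a x ∧ c₀ i b j = r x)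
    (hgood : ∀ i, ∀ (k : Type) [Field k], (p : k) = 0 →
      (∀ u : Fin 2 → k, u ≠ 0 → hlift (fun b j => ((c₀ i b j : ℤ) : k)) u ≠ 0) ∧
      ∀ u : Fin 2 → k, u ≠ 0 → ∀ l, 0 < l → (hlift (fun b j => ((c₀ i b j : ℤ) : k)))^[l] u = u →
        jac (fun b j => ((c₀ i b j : ℤ) : k)) u ≠ 0)
    (v : ι → Fin 2 → L) (hv : ∀ i, v i ≠ 0) (Hs : Finset (MvPolynomial (ι × Fin 2) E))
    (hH : ∀ H ∈ Hs, MultiHom H) :
    EP (fun n => ∀ H ∈ Hs, MvPolynomial.eval (fun x => algebraMap L E
      ((hlift (c x.1))^[n] (v x.1) x.2)) H = 0) := by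
  obtain ⟨K, hfin, f, hf⟩ := exists_localField (p := p) S hSf hS a ha (fun x => ((r x : ℤ) : ℤ_[p]))
  have hprop : ProperSpace K := FiniteDimensional.proper ℚ_[p] K
  have hp1 : ‖((p : ℕ) : K)‖ < 1 := by
    have h1 : ((p : ℕ) : K) = algebraMap ℚ_[p] K ((p : ℕ) : ℚ_[p]) := by simp
    rw [h1, norm_algebraMap']
    exact Padic.norm_p_lt_one
  have hf' : ∀ x, ‖f (a x) - ((r x : ℤ) : K)‖ < 1 := by
    intro x
    have := hf x
    simpa using this
  obtain ⟨O, k, hk, π, hO, hπ⟩ := exists_residue K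
  have hint : ∀ x : ℤ, ‖(x : K)‖ ≤ 1 := fun x => norm_intCast_le_one' x
  -- the coefficients are integral and have the right reduction
  have hcoef : ∀ i b j, ∃ y : O, (y : K) = f (c i b j) ∧ π y = ((c₀ i b j : ℤ) : k) := by
    intro i b j
    rcases hc i b j with h | ⟨x, h1, h2⟩
    · refine ⟨((c₀ i b j : ℤ) : O), ?_, ?_⟩
      · rw [h]; simp
      · simp
    · have h3 : ‖f (a x)‖ ≤ 1 := by
        have h4 : f (a x) = (f (a x) - ((r x : ℤ) : K)) + ((r x : ℤ) : K) := by ring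
        rw [h4]
        exact norm_add_le_one (hf' x).le (hint _)
      refine ⟨⟨f (a x), (hO _).2 h3⟩, by rw [h1], ?_⟩
      rw [h2]
      have h5 : π (⟨f (a x), (hO _).2 h3⟩ - ((r x : ℤ) : O)) = 0 := by
        rw [hπ]
        have h6 : (((⟨f (a x), (hO _).2 h3⟩ - ((r x : ℤ) : O) : O)) : K) = f (a x) - ((r x : ℤ) : K) := by
          push_cast
          rfl
        rw [h6]
        exact hf' x
      rw [map_sub, sub_eq_zero, map_intCast] at h5
      exact h5
  choose y hy hy2 using hcoef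
  have hpk : ((p : ℕ) : k) = 0 := by
    have h1 : π ((p : ℕ) : O) = 0 := by
      rw [hπ]
      push_cast
      exact hp1
    simpa using h1
  refine transfer f c v Hs hH fun H hH => ?_
  have h2 := core_res hp.out hp1 hO π hπ y
    (fun i u hu => by
      have := (hgood i k hpk).1 u hu
      simpa only [hy2] using this)
    (fun i u hu l hl hper => by
      simp only [hy2] at hper ⊢
      exact (hgood i k hpk).2 u hu l hl hper)
    (v := fun i b => f (v i b)) (fun i h0 => hv i (by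
      funext b
      have := congrFun h0 b
      simpa using this)) hH
  simp only [hy] at h2
  exact h2

theorem adjoin_eq_top_of_closure {L : Type} [Field L] [Algebra ℚ L] (i : L →+* ℂ) (G : Set ℂ)
    (hG : G ⊆ Set.range i) (hi : ∀ x, i x ∈ Subfield.closure G) :
    IntermediateField.adjoin ℚ (i ⁻¹' G) = ⊤ := by
  rw [eq_top_iff]
  intro x _
  have h1 : Subfield.closure G ≤ (IntermediateField.adjoin ℚ (i ⁻¹' G)).toSubfield.map i := by
    rw [Subfield.closure_le]
    intro y hy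
    obtain ⟨z, rfl⟩ := hG hy
    exact ⟨z, IntermediateField.subset_adjoin ℚ _ hy, rfl⟩
  obtain ⟨z, hz, hz2⟩ := h1 (hi x)
  rw [← i.injective hz2]
  exact hz

/-- an abstract finitely generated field inside `ℂ`. -/
theorem exists_fg_field (G : Set ℂ) (hG : G.Finite) :
    ∃ (L : Type) (_ : Field L) (_ : CharZero L) (i : L →+* ℂ) (S : Set L), S.Finite ∧
      (∀ (inst : Algebra ℚ L), @IntermediateField.adjoin ℚ _ L _ inst S = ⊤) ∧ G ⊆ Set.range i := by
  have hr : G ⊆ Set.range (Subfield.closure G).subtype := fun x hx =>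
    ⟨⟨x, Subfield.subset_closure hx⟩, rfl⟩
  exact ⟨Subfield.closure G, inferInstance, inferInstance, (Subfield.closure G).subtype,
    (Subfield.closure G).subtype ⁻¹' G, hG.preimage (Subfield.closure G).subtype.injective.injOn,
    fun inst => adjoin_eq_top_of_closure _ G hr (fun x => x.2), hr⟩

/-- The complex version: all points. -/
theorem dml_complex {p : ℕ} [hp : Fact p.Prime]
    {κ : Type} [Finite κ] (a : κ → ℂ) (ha : AlgebraicIndependent ℚ a) (r : κ → ℤ)
    {ι : Type} [Fintype ι] {d : ι → ℕ} (c : (i : ι) → Fin 2 → Fin (d i + 1) → ℂ)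
    (c₀ : (i : ι) → Fin 2 → Fin (d i + 1) → ℤ)
    (hc : ∀ i b j, c i b j = ((c₀ i b j : ℤ) : ℂ) ∨ ∃ x, c i b j = a x ∧ c₀ i b j = r x)
    (hgood : ∀ i, ∀ (k : Type) [Field k], (p : k) = 0 →
      (∀ u : Fin 2 → k, u ≠ 0 → hlift (fun b j => ((c₀ i b j : ℤ) : k)) u ≠ 0) ∧
      ∀ u : Fin 2 → k, u ≠ 0 → ∀ l, 0 < l → (hlift (fun b j => ((c₀ i b j : ℤ) : k)))^[l] u = u →
        jac (fun b j => ((c₀ i b j : ℤ) : k)) u ≠ 0)
    (v : ι → Fin 2 → ℂ) (hv : ∀ i, v i ≠ 0) (Hs : Finset (MvPolynomial (ι × Fin 2) ℂ))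
    (hH : ∀ H ∈ Hs, MultiHom H) :
    EP (fun n => ∀ H ∈ Hs, MvPolynomial.eval (fun x => (hlift (c x.1))^[n] (v x.1) x.2) H = 0) := by
  classical
  set G : Set ℂ := Set.range a ∪ Set.range (fun x : ι × Fin 2 => v x.1 x.2) with hG
  have hGf : G.Finite := (Set.finite_range _).union (Set.finite_range _)
  obtain ⟨L, iL, iC, φ, S, hSf, hS, hGL⟩ := exists_fg_field G hGf
  have haL : ∀ x, ∃ y : L, φ y = a x := fun x => hGL (Or.inl ⟨x, rfl⟩)
  have hvL : ∀ i b, ∃ y : L, φ y = v i b := fun i b => hGL (Or.inr ⟨(i, b), rfl⟩)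
  choose a' ha' using haL
  choose v' hv' using hvL
  have hcL : ∀ i b j, ∃ y : L, φ y = c i b j ∧
      (y = ((c₀ i b j : ℤ) : L) ∨ ∃ x, y = a' x ∧ c₀ i b j = r x) := by
    intro i b j
    rcases hc i b j with h | ⟨x, h, h'⟩
    · exact ⟨((c₀ i b j : ℤ) : L), by rw [h, map_intCast], Or.inl rfl⟩
    · exact ⟨a' x, by rw [h, ha'], Or.inr ⟨x, rfl, h'⟩⟩
  choose c' hc' hc'2 using hcL
  have haind : AlgebraicIndependent ℚ a' := by
    have h1 : AlgebraicIndependent ℚ (φ.toRatAlgHom ∘ a') := by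
      have : (φ.toRatAlgHom ∘ a') = a := funext fun x => ha' x
      rw [this]; exact ha
    exact h1.of_comp φ.toRatAlgHom
  let _ : Algebra L ℂ := φ.toAlgebra
  have h1 := dml_reduction (p := p) (E := ℂ) S hSf (hS _) a' haind r c' c₀ hc'2 hgood v'
    (fun i h0 => hv i (by
      funext b
      rw [← hv', h0]; simp)) Hs hH
  have h2 : ∀ (i : ι) (n : ℕ) (b : Fin 2), algebraMap L ℂ ((hlift (c' i))^[n] (v' i) b) =
      (hlift (c i))^[n] (v i) b := by
    intro i n b
    have h3 := congrFun (map_hlift_iter φ (c' i) (v' i) n) b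
    simp only [hc', hv'] at h3
    exact h3
  simp only [h2] at h1
  exact h1

end Pool.Agent.Helper59.DML
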