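import Mathlib

/-!
# DML core, part 1: the algebra of good functions and the iteration

`K` an ultrametric normed field, functions on the closed unit polydisc.
-/

set_option autoImplicit false
set_option linter.unusedSectionVars false

namespace Pool.Agent.Helper59.DML

open Finset Function

variable {K : Type*} [NormedField K] {ι : Type*}

/-- closed unit polydisc -/
def Dsc (K : Type*) [NormedField K] (ι : Type*) : Set (ι → K) := {t | ∀ i, ‖t i‖ ≤ 1}

/-- functions obtained from constants of norm at most one and coordinates by addition,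
multiplication and inversion of functions of norm one. -/
inductive Good : ((ι → K) → K) → Prop
  | const (c : K) (hc : ‖c‖ ≤ 1) : Good (fun _ => c)
  | proj (i : ι) : Good (fun t => t i)
  | add {R S : (ι → K) → K} : Good R → Good S → Good (fun t => R t + S t)
  | mul {R S : (ι → K) → K} : Good R → Good S → Good (fun t => R t * S t)
  | inv {R : (ι → K) → K} : Good R → (∀ t ∈ Dsc K ι, ‖R t‖ = 1) → Good (fun t => (R t)⁻¹)

/-- maps with good components. -/
def GMap (g : (ι → K) → (ι → K)) : Prop := ∀ i, Good (fun t => g t i)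

section
variable [IsUltrametricDist K]

theorem norm_add_le_one {a b : K} (ha : ‖a‖ ≤ 1) (hb : ‖b‖ ≤ 1) : ‖a + b‖ ≤ 1 :=
  (IsUltrametricDist.norm_add_le_max a b).trans (max_le ha hb)

theorem norm_mul_le_one {a b : K} (ha : ‖a‖ ≤ 1) (hb : ‖b‖ ≤ 1) : ‖a * b‖ ≤ 1 := by
  rw [norm_mul]; exact mul_le_one₀ ha (norm_nonneg _) hb

theorem norm_natCast_le_one' (n : ℕ) : ‖(n : K)‖ ≤ 1 := by
  induction n with
  | zero => simp
  | succ n ih => push_cast; exact norm_add_le_one ih (by simp)

theorem norm_intCast_le_one' (n : ℤ) : ‖(n : K)‖ ≤ 1 := by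
  obtain ⟨m, rfl | rfl⟩ := n.eq_nat_or_neg
  · simpa using norm_natCast_le_one' (K := K) m
  · simpa using norm_natCast_le_one' (K := K) m

theorem Good.norm_le {R : (ι → K) → K} (hR : Good R) : ∀ t ∈ Dsc K ι, ‖R t‖ ≤ 1 := by
  induction hR with
  | const c hc => intro t _; exact hc
  | proj i => intro t ht; exact ht i
  | add _ _ ih1 ih2 => intro t ht; exact norm_add_le_one (ih1 t ht) (ih2 t ht)
  | mul _ _ ih1 ih2 => intro t ht; exact norm_mul_le_one (ih1 t ht) (ih2 t ht)
  | inv _ h _ => intro t ht; rw [norm_inv, h t ht]; simp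

theorem GMap.mem {g : (ι → K) → (ι → K)} (hg : GMap g) {t : ι → K} (ht : t ∈ Dsc K ι) :
    g t ∈ Dsc K ι := fun i => (hg i).norm_le t ht

theorem GMap.iter_mem {g : (ι → K) → (ι → K)} (hg : GMap g) {t : ι → K} (ht : t ∈ Dsc K ι)
    (n : ℕ) : g^[n] t ∈ Dsc K ι := by
  induction n with
  | zero => exact ht
  | succ n ih => rw [iterate_succ_apply']; exact hg.mem ih

theorem Good.comp {R : (ι → K) → K} (hR : Good R) {g : (ι → K) → (ι → K)} (hg : GMap g) :
    Good (fun t => R (g t)) := by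
  induction hR with
  | const c hc => exact Good.const c hc
  | proj i => exact hg i
  | add _ _ ih1 ih2 => exact Good.add ih1 ih2
  | mul _ _ ih1 ih2 => exact Good.mul ih1 ih2
  | inv _ h ih => exact Good.inv ih (fun t ht => h _ (hg.mem ht))

theorem GMap.id : GMap (fun t : ι → K => t) := fun i => Good.proj i

theorem GMap.iter {g : (ι → K) → (ι → K)} (hg : GMap g) (n : ℕ) : GMap (g^[n]) := by
  induction n with
  | zero => exact GMap.id
  | succ n ih =>
    intro i
    have : (fun t => g^[n + 1] t i) = fun t => (fun s => g s i) (g^[n] t) := by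
      funext t; rw [iterate_succ_apply']
    rw [this]
    exact (hg i).comp ih

theorem Good.smul {R : (ι → K) → K} (hR : Good R) {c : K} (hc : ‖c‖ ≤ 1) :
    Good (fun t => c * R t) := (Good.const c hc).mul hR

theorem Good.neg {R : (ι → K) → K} (hR : Good R) : Good (fun t => -R t) := by
  have := hR.smul (c := -1) (by simp)
  simpa using this

theorem Good.sub {R S : (ι → K) → K} (hR : Good R) (hS : Good S) : Good (fun t => R t - S t) := by
  have := hR.add hS.neg
  simpa [sub_eq_add_neg] using this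

theorem Good.pow {R : (ι → K) → K} (hR : Good R) (n : ℕ) : Good (fun t => R t ^ n) := by
  induction n with
  | zero => simpa using Good.const (ι := ι) (1 : K) (by simp)
  | succ n ih => simpa [pow_succ] using ih.mul hR

theorem Good.sum {α : Type*} (s : Finset α) {R : α → (ι → K) → K} (hR : ∀ a ∈ s, Good (R a)) :
    Good (fun t => ∑ a ∈ s, R a t) := by
  classical
  induction s using Finset.induction_on with
  | empty => simpa using Good.const (ι := ι) (0 : K) (by simp)
  | insert a s ha ih =>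
    have h1 := (hR a (by simp)).add (ih (fun b hb => hR b (by simp [hb])))
    simpa [Finset.sum_insert ha] using h1

theorem Good.prod {α : Type*} (s : Finset α) {R : α → (ι → K) → K} (hR : ∀ a ∈ s, Good (R a)) :
    Good (fun t => ∏ a ∈ s, R a t) := by
  classical
  induction s using Finset.induction_on with
  | empty => simpa using Good.const (ι := ι) (1 : K) (by simp)
  | insert a s ha ih =>
    have h1 := (hR a (by simp)).mul (ih (fun b hb => hR b (by simp [hb])))
    simpa [Finset.prod_insert ha] using h1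

/-- first order expansion. -/
theorem Good.expand {R : (ι → K) → K} (hR : Good R) {g r : (ι → K) → (ι → K)} (hg : GMap g)
    (hr : GMap r) {x : K} (hx : ‖x‖ ≤ 1) :
    ∃ S : (ι → K) → K, Good S ∧ ∀ t ∈ Dsc K ι, R (fun i => g t i + x * r t i) = R (g t) + x * S t := by
  have hgr : GMap (fun t i => g t i + x * r t i) := fun i => (hg i).add ((hr i).smul hx)
  induction hR with
  | const c hc => exact ⟨fun _ => 0, Good.const 0 (by simp), fun t _ => by simp⟩
  | proj i => exact ⟨fun t => r t i, hr i, fun t _ => rfl⟩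
  | add _ _ ih1 ih2 =>
    obtain ⟨S1, h1, e1⟩ := ih1
    obtain ⟨S2, h2, e2⟩ := ih2
    refine ⟨fun t => S1 t + S2 t, h1.add h2, fun t ht => ?_⟩
    simp only [e1 t ht, e2 t ht]; ring
  | @mul R1 R2 hR1 hR2 ih1 ih2 =>
    obtain ⟨S1, h1, e1⟩ := ih1
    obtain ⟨S2, h2, e2⟩ := ih2
    refine ⟨fun t => S1 t * R2 (g t) + R1 (g t) * S2 t + x * (S1 t * S2 t),
      ((h1.mul (hR2.comp hg)).add ((hR1.comp hg).mul h2)).add ((h1.mul h2).smul hx), fun t ht => ?_⟩
    simp only [e1 t ht, e2 t ht]; ring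
  | @inv R1 hR1 hu ih =>
    obtain ⟨S, h1, e1⟩ := ih
    refine ⟨fun t => -S t * ((R1 (fun i => g t i + x * r t i))⁻¹ * (R1 (g t))⁻¹),
      h1.neg.mul (((hR1.comp hgr).inv (fun t ht => hu _ (hgr.mem ht))).mul
        ((hR1.comp hg).inv (fun t ht => hu _ (hg.mem ht)))), fun t ht => ?_⟩
    have n1 : R1 (fun i => g t i + x * r t i) ≠ 0 := by
      have := hu _ (hgr.mem ht)
      intro h0; rw [h0] at this; simp at this
    have n2 : R1 (g t) ≠ 0 := by
      have := hu _ (hg.mem ht)
      intro h0; rw [h0] at this; simp at this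
    have e2 := e1 t ht
    field_simp
    rw [e2]; ring

/-- `f = g` modulo `x` on the polydisc. -/
def Cong (x : K) (f g : (ι → K) → (ι → K)) : Prop :=
  ∃ S : (ι → K) → (ι → K), GMap S ∧ ∀ t ∈ Dsc K ι, ∀ i, f t i = g t i + x * S t i

/-- the sequence of iterated differences of `R` along `h = id mod x`. -/
theorem diff_seq {h : (ι → K) → (ι → K)} {x : K} (hx : ‖x‖ ≤ 1)
    (hc : Cong x h (fun t => t)) {R : (ι → K) → K} (hR : Good R) :
    ∃ S : ℕ → (ι → K) → K, S 0 = R ∧ (∀ k, Good (S k)) ∧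
      ∀ k, ∀ t ∈ Dsc K ι, S k (h t) = S k t + x * S (k + 1) t := by
  obtain ⟨r, hr, he⟩ := hc
  have step : ∀ R : {R : (ι → K) → K // Good R}, ∃ S : {R : (ι → K) → K // Good R},
      ∀ t ∈ Dsc K ι, R.1 (h t) = R.1 t + x * S.1 t := by
    intro R
    obtain ⟨S, hS, e⟩ := R.2.expand GMap.id hr hx
    refine ⟨⟨S, hS⟩, fun t ht => ?_⟩
    have h1 : h t = fun i => t i + x * r t i := funext (he t ht)
    rw [← e t ht, h1]
  choose F hF using step
  refine ⟨fun k => (F^[k] ⟨R, hR⟩).1, rfl, fun k => (F^[k] ⟨R, hR⟩).2, fun k t ht => ?_⟩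
  show (F^[k] ⟨R, hR⟩).1 (h t) = (F^[k] ⟨R, hR⟩).1 t + x * (F^[k + 1] ⟨R, hR⟩).1 t
  rw [iterate_succ_apply']
  exact hF _ t ht

theorem fwdDiff_seq {h : (ι → K) → (ι → K)} {x : K} (hg : GMap h) (hx : ‖x‖ ≤ 1)
    (hc : Cong x h (fun t => t)) {R : (ι → K) → K} (hR : Good R) :
    ∃ S : ℕ → (ι → K) → K, S 0 = R ∧ (∀ k, Good (S k)) ∧
      ∀ k, ∀ t ∈ Dsc K ι, ∀ n, ((fwdDiff (1 : ℕ))^[k] (fun n => R (h^[n] t))) n =
        x ^ k * S k (h^[n] t) := by
  obtain ⟨S, h0, hS, he⟩ := diff_seq hx hc hR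
  refine ⟨S, h0, hS, ?_⟩
  intro k t ht
  induction k with
  | zero => intro n; simp [h0]
  | succ k ih =>
    intro n
    rw [iterate_succ_apply', fwdDiff, ih, ih, iterate_succ_apply', he k _ (hg.iter_mem ht n)]
    ring

/-- values along the iteration. -/
theorem iter_expand {h : (ι → K) → (ι → K)} {x : K} (hg : GMap h) (hx : ‖x‖ ≤ 1)
    (hc : Cong x h (fun t => t)) {R : (ι → K) → K} (hR : Good R) (n : ℕ) :
    ∃ S : ℕ → (ι → K) → K, S 0 = R ∧ (∀ k, Good (S k)) ∧ ∀ t ∈ Dsc K ι,
      R (h^[n] t) = ∑ k ∈ range (n + 1), (n.choose k : K) * (x ^ k * S k t) := by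
  obtain ⟨S, h0, hS, he⟩ := fwdDiff_seq hg hx hc hR
  refine ⟨S, h0, hS, fun t ht => ?_⟩
  have := shift_eq_sum_fwdDiff_iter (1 : ℕ) (fun n => R (h^[n] t)) n 0
  simp only [zero_add, smul_eq_mul, mul_one] at this
  rw [this]
  refine Finset.sum_congr rfl fun k _ => ?_
  rw [he k t ht 0]
  simp

/-- `h = id mod p` implies `h^p = id mod p^2`. -/
theorem cong_iter_p {h : (ι → K) → (ι → K)} {p : ℕ} (hp : 1 ≤ p) (hg : GMap h)
    (hc : Cong (p : K) h (fun t => t)) : Cong ((p : K) ^ 2) (h^[p]) (fun t => t) := by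
  have hx : ‖(p : K)‖ ≤ 1 := norm_natCast_le_one' p
  have key : ∀ i, ∃ S : (ι → K) → K, Good S ∧ ∀ t ∈ Dsc K ι, h^[p] t i = t i + (p : K) ^ 2 * S t := by
    intro i
    obtain ⟨S, h0, hS, he⟩ := iter_expand hg hx hc (Good.proj (K := K) i) p
    refine ⟨fun t => S 1 t + ∑ k ∈ range (p - 1), (p.choose (k + 2) : K) * ((p : K) ^ k * S (k + 2) t),
      (hS 1).add (Good.sum _ fun k _ => ((hS (k + 2)).smul (c := (p : K) ^ k)
        (by rw [norm_pow]; exact pow_le_one₀ (norm_nonneg _) hx)).smul (norm_natCast_le_one' _)),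
      fun t ht => ?_⟩
    have e := he t ht
    obtain ⟨q, rfl⟩ : ∃ q, p = q + 1 := ⟨p - 1, by omega⟩
    rw [Finset.sum_range_succ', Finset.sum_range_succ'] at e
    rw [e, h0, mul_add, Finset.mul_sum]
    simp only [Nat.add_sub_cancel, zero_add, Nat.choose_one_right, pow_one, Nat.choose_zero_right,
      Nat.cast_one, pow_zero, one_mul]
    have e2 : ∀ k, ((q + 1).choose (k + 1 + 1) : K) * (((q + 1 : ℕ) : K) ^ (k + 1 + 1) * S (k + 1 + 1) t) =
        ((q + 1 : ℕ) : K) ^ 2 * (((q + 1).choose (k + 2) : K) * (((q + 1 : ℕ) : K) ^ k * S (k + 2) t)) := by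
      intro k; ring
    rw [Finset.sum_congr rfl fun k _ => e2 k]
    ring
  choose S hS he using key
  exact ⟨fun t i => S i t, hS, fun t ht i => he i t ht⟩

end

end Pool.Agent.Helper59.DML
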