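import Pool.Agent.Helper59.DML.AlgInd

/-!
# DML: embeddings of finitely generated fields into finite extensions of `ℚ_p`
-/

set_option autoImplicit false

namespace Pool.Agent.Helper59.DML

open Function

theorem isAlgebraic_adjoin {L : Type*} [Field L] [Algebra ℚ L] (S : Set L)
    (hS : IntermediateField.adjoin ℚ S = ⊤) : Algebra.IsAlgebraic (Algebra.adjoin ℚ S) L := by
  refine ⟨fun x => ?_⟩
  have hx : x ∈ IntermediateField.adjoin ℚ S := by rw [hS]; trivial
  obtain ⟨r, hr, q, hq, e⟩ := IntermediateField.mem_adjoin_iff_div.1 hx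
  have h1 : IsAlgebraic (Algebra.adjoin ℚ S) (r : L) :=
    isAlgebraic_algebraMap (⟨r, hr⟩ : Algebra.adjoin ℚ S)
  have h2 : IsAlgebraic (Algebra.adjoin ℚ S) (q : L) :=
    isAlgebraic_algebraMap (⟨q, hq⟩ : Algebra.adjoin ℚ S)
  rw [e, div_eq_mul_inv]
  exact h1.mul h2.inv

theorem exists_embedding {p : ℕ} [Fact p.Prime] {L : Type} [Field L] [Algebra ℚ L] (S : Set L)
    (hSf : S.Finite) (hS : IntermediateField.adjoin ℚ S = ⊤) {κ : Type} [Finite κ] (a : κ → L)
    (ha : AlgebraicIndependent ℚ a) (r : κ → ℤ_[p]) :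
    ∃ f : L →+* PadicAlgCl p,
      ∀ j, ‖f (a j) - algebraMap ℚ_[p] (PadicAlgCl p) ((r j : ℤ_[p]) : ℚ_[p])‖ < 1 := by
  classical
  set t : Set L := Set.range a ∪ S with ht
  have htf : t.Finite := (Set.finite_range a).union hSf
  have htt : IntermediateField.adjoin ℚ t = ⊤ :=
    top_le_iff.1 (hS ▸ IntermediateField.adjoin.mono ℚ _ _ Set.subset_union_right)
  have := isAlgebraic_adjoin t htt
  have hind : AlgebraicIndepOn ℚ id (Set.range a) := ha.coe_range
  obtain ⟨u, hau, hut, hu⟩ := exists_isTranscendenceBasis_between (Set.range a) t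
    Set.subset_union_left hind
  have : Finite u := (htf.subset hut).to_subtype
  -- prescribed residues on the basis
  have hainj : Injective a := ha.injective
  let a' : κ → u := fun j => ⟨a j, hau ⟨j, rfl⟩⟩
  have ha' : Injective a' := fun i j h => hainj (congrArg Subtype.val h)
  let r' : u → ℤ_[p] := Function.extend a' r (fun _ => 0)
  obtain ⟨τ, hτ, hτr⟩ := exists_algInd (p := p) (κ := u) r'
  set R := Algebra.adjoin ℚ (Set.range (Subtype.val : u → L)) with hR
  have hRalg : Algebra.IsAlgebraic R L := hu.isAlgebraic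
  let e : MvPolynomial u ℚ ≃ₐ[ℚ] R := hu.1.aevalEquiv
  have hτ2 : AlgebraicIndependent ℚ (fun j => algebraMap ℚ_[p] (PadicAlgCl p) ((τ j : ℤ_[p]) : ℚ_[p])) := by
    exact hτ.map' (f := (algebraMap ℚ_[p] (PadicAlgCl p)).toRatAlgHom)
      (algebraMap ℚ_[p] (PadicAlgCl p)).injective
  let g : R →ₐ[ℚ] PadicAlgCl p :=
    (MvPolynomial.aeval (fun j => algebraMap ℚ_[p] (PadicAlgCl p) ((τ j : ℤ_[p]) : ℚ_[p]))).comp
      (e.symm : R →ₐ[ℚ] MvPolynomial u ℚ)
  have hg : Injective g :=
    (algebraicIndependent_iff_injective_aeval.1 hτ2).comp e.symm.injective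
  letI : Algebra R (PadicAlgCl p) := g.toRingHom.toAlgebra
  have hgmap : ∀ x : R, algebraMap R (PadicAlgCl p) x = g x := fun _ => rfl
  have : FaithfulSMul R (PadicAlgCl p) := (faithfulSMul_iff_algebraMap_injective R _).2 hg
  let F : L →ₐ[R] PadicAlgCl p := IsAlgClosed.lift
  refine ⟨F.toRingHom, fun j => ?_⟩
  have h1 : F (a j) = algebraMap ℚ_[p] (PadicAlgCl p) ((τ (a' j) : ℤ_[p]) : ℚ_[p]) := by
    have h2 : a j = algebraMap R L (e (MvPolynomial.X (a' j))) := by
      have h3 := hu.1.algebraMap_aevalEquiv (MvPolynomial.X (a' j))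
      rw [MvPolynomial.aeval_X] at h3
      exact h3.symm
    rw [h2, AlgHom.commutes, hgmap]
    simp [g]
  show ‖F (a j) - _‖ < 1
  rw [h1, ← map_sub, norm_algebraMap']
  have h3 := hτr (a' j)
  have h4 : r' (a' j) = r j := ha'.extend_apply r _ j
  rw [h4] at h3
  rw [← PadicInt.coe_sub]
  exact h3

theorem exists_localField {p : ℕ} [Fact p.Prime] {L : Type} [Field L] [Algebra ℚ L] (S : Set L)
    (hSf : S.Finite) (hS : IntermediateField.adjoin ℚ S = ⊤) {κ : Type} [Finite κ] (a : κ → L)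
    (ha : AlgebraicIndependent ℚ a) (r : κ → ℤ_[p]) :
    ∃ (K : IntermediateField ℚ_[p] (PadicAlgCl p)) (_ : FiniteDimensional ℚ_[p] K) (f : L →+* K),
      ∀ j, ‖f (a j) - algebraMap ℚ_[p] K ((r j : ℤ_[p]) : ℚ_[p])‖ < 1 := by
  obtain ⟨f, hf⟩ := exists_embedding S hSf hS a ha r
  set K : IntermediateField ℚ_[p] (PadicAlgCl p) := IntermediateField.adjoin ℚ_[p] (f '' S) with hK
  have : Finite (f '' S) := (hSf.image f).to_subtype
  have hfin : FiniteDimensional ℚ_[p] K := IntermediateField.finiteDimensional_adjoin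
    fun x _ => (Algebra.IsAlgebraic.isAlgebraic x).isIntegral
  have hmem : ∀ x : L, f x ∈ K := by
    intro x
    have hx : x ∈ IntermediateField.adjoin ℚ S := by rw [hS]; trivial
    induction hx using IntermediateField.adjoin_induction with
    | mem x hx => exact IntermediateField.subset_adjoin _ _ ⟨x, hx, rfl⟩
    | algebraMap q =>
      have h1 : f (algebraMap ℚ L q) = algebraMap ℚ (PadicAlgCl p) q :=
        congrFun (congrArg DFunLike.coe (RingHom.ext_rat (f.comp (algebraMap ℚ L))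
          (algebraMap ℚ (PadicAlgCl p)))) q
      rw [h1]
      have h2 : algebraMap ℚ (PadicAlgCl p) q =
          algebraMap ℚ_[p] (PadicAlgCl p) (algebraMap ℚ ℚ_[p] q) :=
        congrFun (congrArg DFunLike.coe (RingHom.ext_rat (algebraMap ℚ (PadicAlgCl p))
          ((algebraMap ℚ_[p] (PadicAlgCl p)).comp (algebraMap ℚ ℚ_[p])))) q
      rw [h2]
      exact K.algebraMap_mem _
    | add x y _ _ hx hy => rw [map_add]; exact K.add_mem hx hy
    | inv x _ hx => rw [map_inv₀]; exact K.inv_mem hx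
    | mul x y _ _ hx hy => rw [map_mul]; exact K.mul_mem hx hy
  refine ⟨K, hfin, f.codRestrict K hmem, fun j => hf j⟩

end Pool.Agent.Helper59.DML
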