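import Pool.Agent.Helper59.DML.Transfer

/-!
# DML over `ℚ_p`: maps without critical points modulo `p`
-/

set_option autoImplicit false

namespace Pool.Agent.Helper59.DML

open Finset Function Filter Topology

theorem jac_padic_unit {p : ℕ} [Fact p.Prime] {d : ℕ} {c : Fin 2 → Fin (d + 1) → ℤ}
    (hc : ∀ u : Fin 2 → ZMod p, u ≠ 0 → jac (fun k j => ((c k j : ℤ) : ZMod p)) u ≠ 0)
    {u : Fin 2 → ℚ_[p]} (hu : ‖u‖ = 1) : ‖jac (fun k j => ((c k j : ℤ) : ℚ_[p])) u‖ = 1 := by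
  have hk : ∀ k, ‖u k‖ ≤ 1 := fun k => (norm_le_pi_norm u k).trans hu.le
  set x : Fin 2 → ℤ_[p] := fun k => ⟨u k, hk k⟩ with hx
  have h1 : jac (fun k j => ((c k j : ℤ) : ℚ_[p])) u =
      ((jac (fun k j => ((c k j : ℤ) : ℤ_[p])) x : ℤ_[p]) : ℚ_[p]) := by
    have := map_jac (PadicInt.Coe.ringHom (p := p)) (fun k j => ((c k j : ℤ) : ℤ_[p])) x
    simp only [map_intCast] at this
    exact this.symm
  have h2 : PadicInt.toZMod (jac (fun k j => ((c k j : ℤ) : ℤ_[p])) x) =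
      jac (fun k j => ((c k j : ℤ) : ZMod p)) (fun k => PadicInt.toZMod (x k)) := by
    rw [map_jac]; simp only [map_intCast]
  have hz : ∀ y : ℤ_[p], PadicInt.toZMod y = 0 ↔ ‖y‖ < 1 := by
    intro y
    rw [← RingHom.mem_ker, PadicInt.ker_toZMod, IsLocalRing.mem_maximalIdeal, PadicInt.mem_nonunits]
  have h3 : (fun k => PadicInt.toZMod (x k)) ≠ 0 := by
    intro h0
    have h4 : ∀ k, ‖u k‖ < 1 := fun k => by
      have := (hz (x k)).1 (congrFun h0 k)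
      exact this
    have := (pi_norm_lt_iff one_pos).2 h4
    linarith
  have h5 := hc _ h3
  rw [← h2] at h5
  rw [h1]
  have h6 : ¬ ‖jac (fun k j => ((c k j : ℤ) : ℤ_[p])) x‖ < 1 := fun h => h5 ((hz _).2 h)
  have h7 := PadicInt.norm_le_one (jac (fun k j => ((c k j : ℤ) : ℤ_[p])) x)
  push Not at h6
  exact le_antisymm h7 h6

/-- dynamical Mordell-Lang for points over a field embedded in `ℚ_p`. -/
theorem dml_padic {p : ℕ} [hp : Fact p.Prime] {L E : Type*} [Field L] [Field E] [Algebra L E]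
    (f : L →+* ℚ_[p]) {ι : Type*} [Fintype ι] {d : ι → ℕ} (c : (i : ι) → Fin 2 → Fin (d i + 1) → ℤ)
    (hc : ∀ i, ∀ u : Fin 2 → ZMod p, u ≠ 0 → jac (fun k j => ((c i k j : ℤ) : ZMod p)) u ≠ 0)
    (v : ι → Fin 2 → L) (hv : ∀ i, v i ≠ 0) (Hs : Finset (MvPolynomial (ι × Fin 2) E))
    (hH : ∀ H ∈ Hs, MultiHom H) :
    EP (fun n => ∀ H ∈ Hs, MvPolynomial.eval (fun x => algebraMap L E
      ((hlift (fun k j => ((c x.1 k j : ℤ) : L)))^[n] (v x.1) x.2)) H = 0) := by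
  refine transfer f (fun i k j => ((c i k j : ℤ) : L)) v Hs hH fun H hH => ?_
  simp only [map_intCast]
  have hc1 : ∀ i k j, ‖((c i k j : ℤ) : ℚ_[p])‖ ≤ 1 := fun i k j => Padic.norm_int_le_one _
  have hj : ∀ i, ∀ u : Fin 2 → ℚ_[p], ‖u‖ = 1 →
      ‖jac (fun k j => ((c i k j : ℤ) : ℚ_[p])) u‖ = 1 := fun i u hu => jac_padic_unit (hc i) hu
  have hred : ∀ i, ∀ u : Fin 2 → ℚ_[p], ‖u‖ = 1 →
      ‖hlift (fun k j => ((c i k j : ℤ) : ℚ_[p])) u‖ = 1 := fun i u hu =>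
    norm_hlift_eq_one (hc1 i) hu (hj i u hu)
  have hp1 : ‖((p : ℕ) : ℚ_[p])‖ < 1 := Padic.norm_p_lt_one
  have hiter : ∀ i, ∀ u : Fin 2 → ℚ_[p], ‖u‖ = 1 → ∀ n,
      ‖(hlift (fun k j => ((c i k j : ℤ) : ℚ_[p])))^[n] u‖ = 1 := by
    intro i u hu n
    induction n with
    | zero => exact hu
    | succ n ih => rw [iterate_succ_apply']; exact hred i _ ih
  refine core' hp.out hp1 (c := fun i k j => ((c i k j : ℤ) : ℚ_[p])) hc1 hred
    (fun i u hu => ⟨0, fun n _ => hj i _ (hiter i u hu n)⟩)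
    (v := fun i k => f (v i k)) (fun i h0 => hv i ?_) hH
  · funext k
    have := congrFun h0 k
    simpa using this

end Pool.Agent.Helper59.DML
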