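import Pool.Agent.Helper1.SP.Mert
import Pool.Agent.Helper1.SP.Step

/-!
# DML: primes modulo which given integers are nonsquares
-/

set_option autoImplicit false

namespace Pool.Agent.Helper59.DML

open Finset Polynomial Pool.Agent.Helper1.SP Pool.Agent.Helper83.TW

/-- mean value of the Legendre symbol of a nonsquare. -/
theorem mean_legendre {m : ℤ} (hm : ¬ IsSquare m) : ∀ ε : ℝ, 0 < ε → ∃ n₀ : ℕ, ∀ n : ℕ, n₀ ≤ n →
    |∑ p ∈ prm 0 n, ((rho (X ^ 2 - C m) p : ℝ) - 1) * (Real.log (p : ℝ) / (p : ℝ))| ≤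
      ε * Real.log n := by
  have hrep1 := rep_one
  have hmon : (X ^ 2 - C m : ℤ[X]).Monic := monic_X_pow_sub_C m (by norm_num)
  have hdeg : (X ^ 2 - C m : ℤ[X]).natDegree = 2 := natDegree_X_pow_sub_C
  have hirr : Irreducible ((X ^ 2 - C m : ℤ[X]).map (Int.castRingHom ℚ)) := by
    have e : (X ^ 2 - C m : ℤ[X]).map (Int.castRingHom ℚ) = X ^ 2 - C ((m : ℤ) : ℚ) := by simp
    rw [e, X_pow_sub_C_irreducible_iff_of_prime Nat.prime_two]
    intro b hb
    apply hm
    rw [← Rat.isSquare_intCast_iff]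
    exact ⟨b, by rw [← hb]; ring⟩
  have hrep2 := rep_step _ _ rep_one (X ^ 2 - C m) hmon hirr (Nat.coprime_one_left _)
  intro ε hε
  obtain ⟨n₁, h₁⟩ := mean_rep _ _ rep_one (ε / 2) (by positivity)
  obtain ⟨n₂, h₂⟩ := mean_rep _ _ hrep2 (ε / 2) (by positivity)
  refine ⟨max n₁ n₂, fun n hn => ?_⟩
  have a1 := h₁ n ((le_max_left _ _).trans hn)
  have a2 := h₂ n ((le_max_right _ _).trans hn)
  have e : ∑ p ∈ prm 0 n, ((rho (X ^ 2 - C m) p : ℝ) - 1) * (Real.log (p : ℝ) / (p : ℝ)) =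
      (∑ p ∈ prm 0 n, ((1 * rho (X ^ 2 - C m) p : ℕ) : ℝ) * (Real.log (p : ℝ) / (p : ℝ)) - Real.log n) -
      (∑ p ∈ prm 0 n, ((1 : ℕ) : ℝ) * (Real.log (p : ℝ) / (p : ℝ)) - Real.log n) := by
    simp only [sub_mul, Finset.sum_sub_distrib]
    push_cast
    simp only [one_mul]
    ring
  rw [e]
  refine (abs_sub _ _).trans ?_
  linarith

/-- for odd `p` the number of square roots of `m` is `1` plus the quadratic character. -/
theorem rho_eq {p : ℕ} [hp : Fact p.Prime] (hp2 : p ≠ 2) (m : ℤ) :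
    (rho (X ^ 2 - C m) p : ℤ) = 1 + quadraticChar (ZMod p) ((m : ℤ) : ZMod p) := by
  have h2 : ringChar (ZMod p) ≠ 2 := by rw [ZMod.ringChar_zmod_n]; exact hp2
  have h := quadraticChar_card_sqrts h2 ((m : ℤ) : ZMod p)
  rw [add_comm, ← h]
  norm_cast
  have e1 : rho (X ^ 2 - C m) p = Nat.card {x : ZMod p | x ^ 2 = ((m : ℤ) : ZMod p)} := by
    rw [rho]
    exact Nat.card_congr (Equiv.subtypeEquivRight fun x => by simp [sub_eq_zero])
  rw [e1, Nat.card_eq_fintype_card, Set.toFinset_card]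

theorem weight_nonneg (p : ℕ) : 0 ≤ Real.log (p : ℝ) / (p : ℝ) :=
  div_nonneg (Real.log_natCast_nonneg p) (Nat.cast_nonneg p)

/-- there are arbitrarily large primes modulo which all `m i` are nonsquares, if no product of an odd
number of them is a square. -/
theorem primes_nonsquare {κ : Type*} [Fintype κ] [DecidableEq κ] (m : κ → ℤ)
    (hm : ∀ S : Finset κ, Odd S.card → ¬ IsSquare (∏ i ∈ S, m i)) (P₀ : ℕ) :
    ∃ p : ℕ, p.Prime ∧ P₀ < p ∧ ∀ i, ¬ IsSquare ((m i : ℤ) : ZMod p) := by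
  by_contra hcon
  push Not at hcon
  have hm0 : ∀ i, m i ≠ 0 := by
    intro i h
    refine hm {i} (by simp) ?_
    rw [Finset.prod_singleton, h]
    exact ⟨0, by simp⟩
  -- the bound
  set P₁ : ℕ := max (max P₀ 2) (Finset.univ.sup fun i => (m i).natAbs) with hP₁
  set r : Finset κ → ℕ → ℝ := fun S p => (rho (X ^ 2 - C (∏ i ∈ S, m i)) p : ℝ) - 1 with hr
  set w : ℕ → ℝ := fun p => Real.log (p : ℝ) / (p : ℝ) with hw
  set f : ℕ → ℝ := fun p => ∑ S : Finset κ, (-1 : ℝ) ^ S.card * r S p with hf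
  have hzero : ∀ p, p.Prime → P₁ < p → f p = 0 := by
    intro p hp hlt
    have hfact : Fact p.Prime := ⟨hp⟩
    have hp2 : p ≠ 2 := by
      have : 2 ≤ P₁ := (le_max_right _ _).trans (le_max_left _ _)
      omega
    have h1 : ∀ S : Finset κ, r S p = ∏ i ∈ S, ((quadraticChar (ZMod p) ((m i : ℤ) : ZMod p) : ℤ) : ℝ) := by
      intro S
      have h2 := rho_eq hp2 (∏ i ∈ S, m i)
      have h3 : ((rho (X ^ 2 - C (∏ i ∈ S, m i)) p : ℤ) : ℝ) =
          ((1 + quadraticChar (ZMod p) (((∏ i ∈ S, m i : ℤ)) : ZMod p) : ℤ) : ℝ) := by rw [h2]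
      rw [hr]
      simp only
      push_cast at h3
      rw [h3, map_prod]
      push_cast
      ring
    have h4 : f p = ∏ i, (-((quadraticChar (ZMod p) ((m i : ℤ) : ZMod p) : ℤ) : ℝ) + 1) := by
      rw [Finset.prod_add_one, Finset.powerset_univ, hf]
      refine Finset.sum_congr rfl fun S _ => ?_
      rw [h1]
      rw [Finset.prod_neg]
    obtain ⟨i, hi⟩ := hcon p hp (lt_of_le_of_lt ((le_max_left _ _).trans (le_max_left _ _)) hlt)
    have hi0 : ((m i : ℤ) : ZMod p) ≠ 0 := by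
      intro h
      rw [ZMod.intCast_zmod_eq_zero_iff_dvd] at h
      have h5 := Int.natAbs_dvd_natAbs.2 h
      rw [Int.natAbs_natCast] at h5
      have h6 := Nat.le_of_dvd (Int.natAbs_pos.2 (hm0 i)) h5
      have h7 : (m i).natAbs ≤ P₁ := (Finset.le_sup (f := fun i => (m i).natAbs)
        (Finset.mem_univ i)).trans (le_max_right _ _)
      omega
    rw [h4]
    refine Finset.prod_eq_zero (Finset.mem_univ i) ?_
    rw [(quadraticChar_one_iff_isSquare hi0).2 hi]
    simp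
  -- upper bound for the sum
  set A : ℝ := ∑ p ∈ prm 0 P₁, |f p * w p| with hA
  have hup : ∀ n, ∑ p ∈ prm 0 n, f p * w p ≤ A := by
    intro n
    have h1 : ∑ p ∈ prm 0 n, f p * w p = ∑ p ∈ (prm 0 n).filter (fun p => p ≤ P₁), f p * w p := by
      rw [Finset.sum_filter]
      refine Finset.sum_congr rfl fun p hp => ?_
      split_ifs with h
      · rfl
      · rw [hzero p (mem_prm.1 hp).2.2 (not_le.1 h), zero_mul]
    rw [h1]
    refine (Finset.sum_le_sum fun p _ => le_abs_self _).trans ?_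
    refine Finset.sum_le_sum_of_subset_of_nonneg ?_ (fun _ _ _ => abs_nonneg _)
    intro p hp
    have h2 := Finset.mem_filter.1 hp
    have h3 := mem_prm.1 h2.1
    exact mem_prm.2 ⟨h3.1, h2.2, h3.2.2⟩
  -- lower bound
  set M : ℝ := (Fintype.card (Finset κ) : ℝ) + 1 with hM
  have hMpos : 0 < M := by positivity
  set ε : ℝ := 1 / (2 * M) with hε
  have hεpos : 0 < ε := by positivity
  have hns : ∀ S : Finset κ, ∃ n₀ : ℕ, ∀ n : ℕ, n₀ ≤ n → ¬ IsSquare (∏ i ∈ S, m i) →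
      |∑ p ∈ prm 0 n, r S p * w p| ≤ ε * Real.log n := by
    intro S
    by_cases h : IsSquare (∏ i ∈ S, m i)
    · exact ⟨0, fun n _ h' => absurd h h'⟩
    · obtain ⟨n₀, h₀⟩ := mean_legendre h ε hεpos
      exact ⟨n₀, fun n hn _ => h₀ n hn⟩
  choose N hN using hns
  obtain ⟨n₁, hn₁⟩ := mean_rep _ _ rep_one ε hεpos
  -- the part with square products
  have hr2 : ∀ (S : Finset κ) (p : ℕ), -1 ≤ r S p := by
    intro S p
    have h : (0 : ℝ) ≤ (rho (X ^ 2 - C (∏ i ∈ S, m i)) p : ℝ) := Nat.cast_nonneg _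
    rw [hr]
    simp only
    linarith
  have hlow : ∀ (S : Finset κ) (a : ℝ), a ≤ 1 →
      (∀ p : ℕ, p.Prime → p ≠ 2 → a ≤ r S p) → ∀ n : ℕ,
      a * (∑ p ∈ prm 0 n, w p) - 2 * w 2 ≤ ∑ p ∈ prm 0 n, r S p * w p := by
    intro S a ha h n
    have h1 : ∀ p ∈ prm 0 n, a * w p - (if p = 2 then 2 * w 2 else 0) ≤ r S p * w p := by
      intro p hp
      have hwp : 0 ≤ w p := weight_nonneg p
      split_ifs with h2
      · have h3 := hr2 S p
        rw [← h2]
        nlinarith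
      · have h3 := h p (mem_prm.1 hp).2.2 h2
        nlinarith
    refine le_trans ?_ (Finset.sum_le_sum h1)
    rw [Finset.sum_sub_distrib, ← Finset.mul_sum, Finset.sum_ite_eq' (prm 0 n) 2]
    have hw2 : 0 ≤ w 2 := weight_nonneg 2
    split_ifs <;> linarith
  have hsq : ∀ S : Finset κ, IsSquare (∏ i ∈ S, m i) → ∀ n : ℕ,
      - (2 * w 2) ≤ (-1 : ℝ) ^ S.card * ∑ p ∈ prm 0 n, r S p * w p := by
    intro S hS n
    have hev : Even S.card := by
      rw [← Nat.not_odd_iff_even]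
      exact fun ho => hm S ho hS
    rw [hev.neg_one_pow, one_mul]
    have h1 := hlow S 0 zero_le_one ?_ n
    · linarith
    intro p hp hp2
    have hfact : Fact p.Prime := ⟨hp⟩
    have h2 := rho_eq hp2 (∏ i ∈ S, m i)
    have h3 : ((rho (X ^ 2 - C (∏ i ∈ S, m i)) p : ℤ) : ℝ) =
        ((1 + quadraticChar (ZMod p) (((∏ i ∈ S, m i : ℤ)) : ZMod p) : ℤ) : ℝ) := by rw [h2]
    have h4 : 0 ≤ quadraticChar (ZMod p) (((∏ i ∈ S, m i : ℤ)) : ZMod p) := by
      obtain ⟨b, hb⟩ := hS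
      rw [hb]
      push_cast
      rw [map_mul]
      exact mul_self_nonneg _
    have h5 : (0 : ℝ) ≤ ((quadraticChar (ZMod p) (((∏ i ∈ S, m i : ℤ)) : ZMod p) : ℤ) : ℝ) := by
      exact_mod_cast h4
    rw [hr]
    simp only
    push_cast at h3 h5
    rw [h3]
    linarith
  have hem : ∀ n : ℕ, (∑ p ∈ prm 0 n, w p) - 2 * w 2 ≤ ∑ p ∈ prm 0 n, r ∅ p * w p := by
    intro n
    have h1 := hlow ∅ 1 le_rfl ?_ n
    · linarith
    intro p hp hp2
    have hfact : Fact p.Prime := ⟨hp⟩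
    have h2 := rho_eq hp2 (∏ i ∈ (∅ : Finset κ), m i)
    have h3 : ((rho (X ^ 2 - C (∏ i ∈ (∅ : Finset κ), m i)) p : ℤ) : ℝ) = 2 := by
      rw [h2, Finset.prod_empty]
      simp
    rw [hr]
    simp only
    push_cast at h3
    rw [h3]
    norm_num
  -- choose n
  have hlim : ∀ᶠ n : ℕ in Filter.atTop, 2 * A + 4 * M * w 2 + 1 ≤ Real.log (n : ℝ) :=
    (Real.tendsto_log_atTop.comp tendsto_natCast_atTop_atTop).eventually_ge_atTop _
  obtain ⟨n₃, hn₃⟩ := Filter.eventually_atTop.mp hlim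
  obtain ⟨n, hn1, hn2, hn3, hn4⟩ : ∃ n : ℕ, n₁ ≤ n ∧ n₃ ≤ n ∧ (∀ S, N S ≤ n) ∧ 1 ≤ n := by
    refine ⟨max (max n₁ n₃) (max (Finset.univ.sup N) 1), ?_, ?_, ?_, ?_⟩
    · exact (le_max_left _ _).trans (le_max_left _ _)
    · exact (le_max_right _ _).trans (le_max_left _ _)
    · intro S
      exact (Finset.le_sup (Finset.mem_univ S)).trans ((le_max_left _ _).trans (le_max_right _ _))
    · exact (le_max_right _ _).trans (le_max_right _ _)
  have hbig := hn₃ n hn2
  have hlog : 0 ≤ Real.log (n : ℝ) := Real.log_natCast_nonneg n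
  have hw2 : 0 ≤ w 2 := weight_nonneg 2
  have hS : ∀ S : Finset κ, - (ε * Real.log n + 2 * w 2) ≤
      (-1 : ℝ) ^ S.card * ∑ p ∈ prm 0 n, r S p * w p := by
    intro S
    by_cases h : IsSquare (∏ i ∈ S, m i)
    · have h1 := hsq S h n
      have h2 : 0 ≤ ε * Real.log n := by positivity
      linarith
    · have h1 := hN S n (hn3 S) h
      have h2 : |(-1 : ℝ) ^ S.card * ∑ p ∈ prm 0 n, r S p * w p| ≤ ε * Real.log n := by
        rw [abs_mul, abs_pow, abs_neg, abs_one, one_pow, one_mul]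
        exact h1
      have h3 := neg_abs_le ((-1 : ℝ) ^ S.card * ∑ p ∈ prm 0 n, r S p * w p)
      linarith
  have hsum : ∑ p ∈ prm 0 n, f p * w p =
      ∑ S : Finset κ, (-1 : ℝ) ^ S.card * ∑ p ∈ prm 0 n, r S p * w p := by
    simp only [hf, Finset.sum_mul, Finset.mul_sum]
    rw [Finset.sum_comm]
    refine Finset.sum_congr rfl fun S _ => Finset.sum_congr rfl fun p _ => by ring
  have hemp : Real.log n - ε * Real.log n - 2 * w 2 ≤
      (-1 : ℝ) ^ (∅ : Finset κ).card * ∑ p ∈ prm 0 n, r ∅ p * w p := by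
    have h1 := hn₁ n hn1
    have h2 := hem n
    have h3 := (abs_le.1 h1).1
    have h4 : ∑ p ∈ prm 0 n, ((1 : ℕ) : ℝ) * (Real.log (p : ℝ) / (p : ℝ)) = ∑ p ∈ prm 0 n, w p := by
      simp [hw]
    rw [h4] at h3
    rw [Finset.card_empty, pow_zero, one_mul]
    linarith
  have hfin : Real.log n - ε * Real.log n - 2 * w 2 +
      (Fintype.card (Finset κ) : ℝ) * (- (ε * Real.log n + 2 * w 2)) ≤ ∑ p ∈ prm 0 n, f p * w p := by
    rw [hsum, ← Finset.add_sum_erase _ _ (Finset.mem_univ (∅ : Finset κ))]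
    refine add_le_add hemp ?_
    have h1 : ((Finset.univ.erase (∅ : Finset κ)).card : ℝ) * (- (ε * Real.log n + 2 * w 2)) ≤
        ∑ S ∈ Finset.univ.erase (∅ : Finset κ), (-1 : ℝ) ^ S.card * ∑ p ∈ prm 0 n, r S p * w p := by
      rw [← nsmul_eq_mul]
      exact Finset.card_nsmul_le_sum _ _ _ fun S _ => hS S
    refine le_trans ?_ h1
    have h2 : ((Finset.univ.erase (∅ : Finset κ)).card : ℝ) ≤ (Fintype.card (Finset κ) : ℝ) := by
      exact_mod_cast Finset.card_le_univ _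
    have h3 : 0 ≤ ε * Real.log n + 2 * w 2 := by positivity
    nlinarith
  have hup' := hup n
  have hMε : M * ε = 1 / 2 := by
    rw [hε]
    field_simp
  have h5 : Real.log n - ε * Real.log n - 2 * w 2 +
      (Fintype.card (Finset κ) : ℝ) * (- (ε * Real.log n + 2 * w 2)) =
      Real.log n - (M * ε) * Real.log n - 2 * M * w 2 := by
    rw [hM]
    ring
  rw [h5, hMε] at hfin
  linarith

end Pool.Agent.Helper59.DML
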