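import Pool.Agent.Helper59.DML.Forms

/-!
# DML: quadratic maps without periodic critical points over the algebraic closure of `F_p`
-/

set_option autoImplicit false

namespace Pool.Agent.Helper59.DML

open Finset Function

section
variable {R : Type*} [CommRing R]

/-- resultant of the two quadratic forms. -/
def quadRes (c : Fin 2 → Fin 3 → R) : R :=
  (c 0 0 * c 1 2 - c 0 2 * c 1 0) ^ 2 -
    (c 0 0 * c 1 1 - c 0 1 * c 1 0) * (c 0 1 * c 1 2 - c 0 2 * c 1 1)

def w0 (c : Fin 2 → Fin 3 → R) : R := c 0 1 * c 1 0 - c 0 0 * c 1 1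
def w1 (c : Fin 2 → Fin 3 → R) : R := 2 * (c 0 2 * c 1 0 - c 0 0 * c 1 2)
def w2 (c : Fin 2 → Fin 3 → R) : R := c 0 2 * c 1 1 - c 0 1 * c 1 2
def al (c : Fin 2 → Fin 3 → R) : R := c 0 1 ^ 2 - 4 * c 0 0 * c 0 2
def be (c : Fin 2 → Fin 3 → R) : R := -2 * c 0 1 * c 1 1 + 4 * (c 0 0 * c 1 2 + c 0 2 * c 1 0)
def ga (c : Fin 2 → Fin 3 → R) : R := c 1 1 ^ 2 - 4 * c 1 0 * c 1 2

/-- resultant of the Jacobian form `w0 Y^2 + w1 X Y + w2 X^2`, whose zeros are the critical points,
and of the form `al Y^2 + be X Y + ga X^2`, the discriminant of `Y A - X B`, whose zeros are the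
critical values. -/
def critRes (c : Fin 2 → Fin 3 → R) : R :=
  al c ^ 2 * w2 c ^ 2 - al c * be c * w1 c * w2 c + al c * ga c * (w1 c ^ 2 - 2 * w0 c * w2 c) +
    be c ^ 2 * w0 c * w2 c - be c * ga c * w0 c * w1 c + ga c ^ 2 * w0 c ^ 2

theorem quad_form (a : Fin 3 → R) (u : Fin 2 → R) :
    form (d := 2) a u = a 0 * u 1 ^ 2 + a 1 * u 0 * u 1 + a 2 * u 0 ^ 2 := by
  simp [form, Fin.sum_univ_three]

theorem quad_jac (c : Fin 2 → Fin 3 → R) (u : Fin 2 → R) :
    jac (d := 2) c u = w0 c * u 1 ^ 2 + w1 c * u 0 * u 1 + w2 c * u 0 ^ 2 := by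
  simp [jac, Fin.sum_univ_three, w0, w1, w2]
  ring

theorem disc_jac (c : Fin 2 → Fin 3 → R) : w1 c ^ 2 - 4 * w0 c * w2 c = 4 * quadRes c := by
  simp only [w0, w1, w2, quadRes]; ring

end

theorem quad_good {p : ℕ} (hp : p.Prime) (hp2 : p ≠ 2) (c : Fin 2 → Fin 3 → ℤ)
    (hR : ¬ IsSquare ((quadRes c : ℤ) : ZMod p)) (hT : ¬ IsSquare ((critRes c : ℤ) : ZMod p))
    (k : Type) [Field k] (hk : (p : k) = 0) :
    (∀ u : Fin 2 → k, u ≠ 0 → hlift (d := 2) (fun b j => ((c b j : ℤ) : k)) u ≠ 0) ∧
      ∀ u : Fin 2 → k, u ≠ 0 → ∀ l, 0 < l → (hlift (d := 2) (fun b j => ((c b j : ℤ) : k)))^[l] u = u →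
        jac (d := 2) (fun b j => ((c b j : ℤ) : k)) u ≠ 0 := by
  have : Fact p.Prime := ⟨hp⟩
  have hchar : CharP k p := by
    obtain ⟨q, hq⟩ := CharP.exists k
    have h1 : q ∣ p := (CharP.cast_eq_zero_iff k q p).1 hk
    rcases (Nat.dvd_prime hp).1 h1 with h2 | h2
    · subst h2
      have h3 := (CharP.cast_eq_zero_iff k 1 1).2 dvd_rfl
      rw [Nat.cast_one] at h3
      exact absurd h3 one_ne_zero
    · subst h2; exact hq
  set ck : Fin 2 → Fin 3 → k := fun b j => ((c b j : ℤ) : k) with hck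
  have hint : ∀ m : ℤ, ((m : ℤ) : k) = 0 ↔ ((m : ℤ) : ZMod p) = 0 := by
    intro m
    rw [CharP.intCast_eq_zero_iff k p, ZMod.intCast_zmod_eq_zero_iff_dvd]
  have hsq : ∀ m n : ℤ, ((m : ℤ) : k) = ((n : ℤ) : k) ^ 2 → IsSquare ((m : ℤ) : ZMod p) := by
    intro m n h
    have h1 : (((m - n ^ 2 : ℤ)) : k) = 0 := by push_cast; rw [h, sub_self]
    have h2 := (hint _).1 h1
    push_cast at h2
    rw [sub_eq_zero] at h2
    rw [h2]
    exact ⟨_, sq _⟩
  have h2k : (2 : k) ≠ 0 := by
    intro h
    have h1 : (((2 : ℕ)) : k) = 0 := by exact_mod_cast h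
    have h3 := (CharP.cast_eq_zero_iff k p 2).1 h1
    exact hp2 ((Nat.prime_dvd_prime_iff_eq hp Nat.prime_two).1 h3)
  have e0 : w0 ck = ((w0 c : ℤ) : k) := by simp [w0, hck]
  have e1 : w1 ck = ((w1 c : ℤ) : k) := by simp [w1, hck]
  have e2 : w2 ck = ((w2 c : ℤ) : k) := by simp [w2, hck]
  have eR : quadRes ck = ((quadRes c : ℤ) : k) := by simp [quadRes, hck]
  have eT : critRes ck = ((critRes c : ℤ) : k) := by simp [critRes, al, be, ga, w0, w1, w2, hck]
  have hR0 : quadRes ck ≠ 0 := by
    rw [eR]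
    intro h
    apply hR
    rw [(hint _).1 h]
    exact ⟨0, by simp⟩
  -- a solution of `4 R = (integer)^2` is impossible
  have h4R : ∀ n : ℤ, 4 * quadRes ck ≠ ((n : ℤ) : k) ^ 2 := by
    intro n h
    have h1 : ((4 * quadRes c : ℤ) : k) = ((n : ℤ) : k) ^ 2 := by push_cast; rw [← eR]; exact h
    obtain ⟨y, hy⟩ := hsq _ _ h1
    apply hR
    have h2p : (2 : ZMod p) ≠ 0 := by
      intro h
      have h1 : (((2 : ℕ)) : ZMod p) = 0 := by exact_mod_cast h
      rw [ZMod.natCast_eq_zero_iff] at h1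
      exact hp2 ((Nat.prime_dvd_prime_iff_eq hp Nat.prime_two).1 h1)
    refine ⟨y / 2, ?_⟩
    push_cast at hy
    field_simp
    linear_combination hy
  have hF0 : ∀ u : Fin 2 → k, hlift (d := 2) ck u 0 = ck 0 0 * u 1 ^ 2 + ck 0 1 * u 0 * u 1 + ck 0 2 * u 0 ^ 2 :=
    fun u => quad_form (ck 0) u
  have hF1 : ∀ u : Fin 2 → k, hlift (d := 2) ck u 1 = ck 1 0 * u 1 ^ 2 + ck 1 1 * u 0 * u 1 + ck 1 2 * u 0 ^ 2 :=
    fun u => quad_form (ck 1) u
  refine ⟨fun u hu h => ?_, fun u hu l hl hper hj => ?_⟩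
  · have h0 := congrFun h 0
    have h1 := congrFun h 1
    rw [hF0] at h0
    rw [hF1] at h1
    simp only [Pi.zero_apply] at h0 h1
    apply hR0
    by_cases hy : u 1 = 0
    · have hx : u 0 ≠ 0 := fun hx => hu (by
        funext a
        fin_cases a
        · exact hx
        · exact hy)
      rw [hy] at h0 h1
      have h3 : ck 0 2 = 0 := by
        have : ck 0 2 * u 0 ^ 2 = 0 := by linear_combination h0
        exact (mul_eq_zero.1 this).resolve_right (pow_ne_zero _ hx)
      have h4 : ck 1 2 = 0 := by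
        have : ck 1 2 * u 0 ^ 2 = 0 := by linear_combination h1
        exact (mul_eq_zero.1 this).resolve_right (pow_ne_zero _ hx)
      simp [quadRes, h3, h4]
    · obtain ⟨t, ht⟩ : ∃ t, u 0 = t * u 1 := ⟨u 0 / u 1, by field_simp⟩
      rw [ht] at h0 h1
      have h3 : ck 0 0 = -(ck 0 1 * t) - ck 0 2 * t ^ 2 := by
        have : (ck 0 0 + ck 0 1 * t + ck 0 2 * t ^ 2) * u 1 ^ 2 = 0 := by linear_combination h0
        have := (mul_eq_zero.1 this).resolve_right (pow_ne_zero _ hy)
        linear_combination this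
      have h4 : ck 1 0 = -(ck 1 1 * t) - ck 1 2 * t ^ 2 := by
        have : (ck 1 0 + ck 1 1 * t + ck 1 2 * t ^ 2) * u 1 ^ 2 = 0 := by linear_combination h1
        have := (mul_eq_zero.1 this).resolve_right (pow_ne_zero _ hy)
        linear_combination this
      rw [quadRes, h3, h4]; ring
  · rw [quad_jac] at hj
    -- the affine coordinate of the critical point
    have hy : u 1 ≠ 0 := by
      intro hy
      have hx : u 0 ≠ 0 := fun hx => hu (by
        funext a
        fin_cases a
        · exact hx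
        · exact hy)
      rw [hy] at hj
      have h3 : w2 ck = 0 := by
        have : w2 ck * u 0 ^ 2 = 0 := by linear_combination hj
        exact (mul_eq_zero.1 this).resolve_right (pow_ne_zero _ hx)
      have h4 := disc_jac ck
      rw [h3, e1] at h4
      exact h4R (w1 c) (by linear_combination -h4)
    obtain ⟨t, ht⟩ : ∃ t, u 0 = t * u 1 := ⟨u 0 / u 1, by field_simp⟩
    have ht0 : w0 ck + w1 ck * t + w2 ck * t ^ 2 = 0 := by
      rw [ht] at hj
      have : (w0 ck + w1 ck * t + w2 ck * t ^ 2) * u 1 ^ 2 = 0 := by linear_combination hj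
      exact (mul_eq_zero.1 this).resolve_right (pow_ne_zero _ hy)
    -- Frobenius
    set σ := frobenius k p with hσ
    have hσint : ∀ m : ℤ, σ ((m : ℤ) : k) = ((m : ℤ) : k) := fun m => map_intCast σ m
    have hfix : ∀ x : k, σ x = x → ∃ m : ℤ, ((m : ℤ) : k) = x := by
      intro x hx
      have h1 : x ∈ (⊥ : Subfield k) := by
        rw [Subfield.mem_bot_iff_pow_eq_self k p]
        exact hx
      rwa [mem_bot_iff_intCast p k] at h1
    have hσt : σ t ≠ t := by
      intro h
      obtain ⟨m, hm⟩ := hfix t h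
      refine h4R (w1 c + 2 * w2 c * m) ?_
      push_cast
      rw [← e1, ← e2, hm, ← disc_jac]
      linear_combination (-4 * w2 ck) * ht0
    -- the conjugate root
    set t' := σ t with ht'
    have hσw : ∀ x : k, σ (w0 ck + w1 ck * x + w2 ck * x ^ 2) =
        w0 ck + w1 ck * σ x + w2 ck * (σ x) ^ 2 := by
      intro x
      rw [e0, e1, e2]
      simp only [map_add, map_mul, map_pow, hσint]
    have ht'0 : w0 ck + w1 ck * t' + w2 ck * t' ^ 2 = 0 := by
      rw [ht', ← hσw, ht0, map_zero]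
    have hne : t - t' ≠ 0 := sub_ne_zero.2 (Ne.symm hσt)
    have v1 : w1 ck = -(w2 ck * (t + t')) := by
      have : (w1 ck + w2 ck * (t + t')) * (t - t') = 0 := by linear_combination ht0 - ht'0
      have := (mul_eq_zero.1 this).resolve_right hne
      linear_combination this
    have v0 : w0 ck = w2 ck * (t * t') := by
      linear_combination ht0 - t * v1
    have hw2 : w2 ck ≠ 0 := by
      intro h
      have h4 := disc_jac ck
      rw [h, e1] at h4
      exact h4R (w1 c) (by linear_combination -h4)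
    have hστ : σ t' = t := by
      have h5 : w0 ck + w1 ck * σ t' + w2 ck * (σ t') ^ 2 = 0 := by
        rw [← hσw, ht'0, map_zero]
      have h6 : (σ t' - t) * (σ t' - t') = 0 := by
        have : w2 ck * ((σ t' - t) * (σ t' - t')) = 0 := by
          linear_combination h5 - v1 * σ t' - v0
        exact (mul_eq_zero.1 this).resolve_left hw2
      rcases mul_eq_zero.1 h6 with h7 | h7
      · exact sub_eq_zero.1 h7
      · exfalso
        have h8 : σ t' = σ t := by rw [← ht']; exact sub_eq_zero.1 h7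
        exact hσt (σ.injective h8)
    -- the periodic vector
    set U : Fin 2 → k := fun b => if b = 0 then t else 1 with hU
    have hUu : u = fun b => u 1 * U b := by
      funext b
      fin_cases b
      · simp [hU, ht, mul_comm]
      · simp [hU]
    obtain ⟨m, rfl⟩ : ∃ m, l = m + 1 := ⟨l - 1, by omega⟩
    set z : Fin 2 → k := (hlift (d := 2) ck)^[m] U with hz
    -- its coordinates are fixed by the square of the Frobenius
    have hσσ : ∀ n, ∀ b, σ (σ ((hlift (d := 2) ck)^[n] U b)) = (hlift (d := 2) ck)^[n] U b := by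
      intro n b
      have h1 := map_hlift_iter (d := 2) (σ.comp σ) ck U n
      have h2 : (fun b j => (σ.comp σ) (ck b j)) = ck := by
        funext b j
        simp only [RingHom.comp_apply, hck, hσint]
      have h3 : (fun b => (σ.comp σ) (U b)) = U := by
        funext b
        simp only [RingHom.comp_apply, hU]
        split_ifs
        · rw [← ht', hστ]
        · simp
      rw [h2, h3] at h1
      exact congrFun h1 b
    have hzz : ∀ b, σ (σ (z b)) = z b := fun b => hσσ m b
    -- `A(z) = t B(z)`, not both zero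
    have hzt : hlift (d := 2) ck z 0 = t * hlift (d := 2) ck z 1 ∧ hlift (d := 2) ck z 1 ≠ 0 := by
      have h1 : hlift (d := 2) ck z = (hlift (d := 2) ck)^[m + 1] U := by
        rw [hz, iterate_succ_apply']
      rw [hUu, hlift_iter_smul] at hper
      have h2 := congrFun hper 0
      have h3 := congrFun hper 1
      simp only [hU, if_true, one_ne_zero, if_false, mul_one] at h2 h3
      rw [← hU, ← h1] at h2 h3
      have h4 : hlift (d := 2) ck z 1 ≠ 0 := by
        intro h0
        rw [h0, mul_zero] at h3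
        exact hy h3.symm
      refine ⟨?_, h4⟩
      have h5 : u 1 ^ (2 ^ (m + 1)) ≠ 0 := pow_ne_zero _ hy
      apply mul_left_cancel₀ h5
      linear_combination h2 - t * h3
    rw [hF0, hF1] at hzt
    obtain ⟨hz1, hz2⟩ := hzt
    by_cases hzy : z 1 = 0
    · -- `t` would be rational
      rw [hzy] at hz1 hz2
      have h6 : z 0 ^ 2 ≠ 0 := by
        intro h; apply hz2; rw [h]; ring
      have h7 : ck 0 2 = t * ck 1 2 := by
        have : (ck 0 2 - t * ck 1 2) * z 0 ^ 2 = 0 := by linear_combination hz1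
        exact sub_eq_zero.1 ((mul_eq_zero.1 this).resolve_right h6)
      have h8 : ck 1 2 ≠ 0 := by
        intro h; apply hz2; rw [h]; ring
      apply hσt
      have h9 : σ (ck 0 2) = σ t * σ (ck 1 2) := by rw [h7, map_mul]
      simp only [hck, hσint] at h9
      have h10 : t' * ck 1 2 = t * ck 1 2 := by rw [← h7]; exact h9.symm
      exact mul_right_cancel₀ h8 h10
    · obtain ⟨q, hq⟩ : ∃ q, z 0 = q * z 1 := ⟨z 0 / z 1, by field_simp⟩
      have hqq : σ (σ q) = q := by
        have h1 := hzz 0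
        rw [hq, map_mul, map_mul, hzz 1] at h1
        exact mul_right_cancel₀ hzy h1
      have hq0 : (ck 0 0 - t * ck 1 0) + (ck 0 1 - t * ck 1 1) * q + (ck 0 2 - t * ck 1 2) * q ^ 2 = 0 := by
        rw [hq] at hz1
        have : ((ck 0 0 - t * ck 1 0) + (ck 0 1 - t * ck 1 1) * q + (ck 0 2 - t * ck 1 2) * q ^ 2) *
            z 1 ^ 2 = 0 := by linear_combination hz1
        exact (mul_eq_zero.1 this).resolve_right (pow_ne_zero _ hzy)
      set Y : k := (ck 0 1 - t * ck 1 1) + 2 * (ck 0 2 - t * ck 1 2) * q with hY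
      have hYY : σ (σ Y) = Y := by
        have hc1 : ∀ b j, σ (ck b j) = ck b j := fun b j => by simp only [hck, hσint]
        have h2' : σ (2 : k) = 2 := by have := hσint 2; exact_mod_cast this
        rw [hY]
        simp only [map_add, map_sub, map_mul, hc1, h2', hqq]
        rw [← ht', hστ]
      have hYd : Y ^ 2 = al ck + be ck * t + ga ck * t ^ 2 := by
        rw [hY]
        simp only [al, be, ga]
        linear_combination (4 * (ck 0 2 - t * ck 1 2)) * hq0
      have hYd' : (σ Y) ^ 2 = al ck + be ck * t' + ga ck * t' ^ 2 := by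
        rw [← map_pow, hYd]
        have hc1 : ∀ b j, σ (ck b j) = ck b j := fun b j => by simp only [hck, hσint]
        have h2' : σ (2 : k) = 2 := by have := hσint 2; exact_mod_cast this
        have h4' : σ (4 : k) = 4 := by have := hσint 4; exact_mod_cast this
        simp only [al, be, ga, map_add, map_sub, map_mul, map_pow, map_neg, hc1, h2', h4', ← ht']
      obtain ⟨n, hn⟩ := hfix (Y * σ Y) (by rw [map_mul, hYY, mul_comm])
      apply hT
      refine hsq (critRes c) (w2 c * n) ?_
      rw [← eT]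
      push_cast
      rw [← e2, hn]
      have h11 : (w2 ck * (Y * σ Y)) ^ 2 = w2 ck ^ 2 * (Y ^ 2 * (σ Y) ^ 2) := by ring
      rw [h11, hYd, hYd', critRes, v1, v0]
      ring

end Pool.Agent.Helper59.DML
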