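import Mathlib

/-!
# DML-SIEVE: a set of integer vectors avoiding a positive proportion of the residues modulo
infinitely many primes has density zero in boxes

Proof. Let `n = card ι`. We may take `δ ≤ 1` (replace `δ` by `min δ 1`). Given `ε > 0` choose `k` with
`(1-δ)^k < ε` and `k` distinct primes `p_1..p_k ∈ PP` (a finset `T ⊆ PP` of card `k`, `hPP.exists_subset_card_eq`),
`Q = ∏_{p ∈ T} p`. The vectors `c ∈ Bad` in the box `[-B,B]^n` map by reduction to the finite type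
`∀ p : T, (ι → ZMod p)` into the product of the complements of `R p`, which has
`∏ (p^n - |R p|) ≤ (1-δ)^k Q^n` elements. The fibre over a given family of residues: for each coordinate the
integers in `[-B,B]` with given residues modulo all `p ∈ T` are congruent modulo `Q` (coprime primes,
`Finset.prod` / `Nat.Coprime.prod_dvd` etc.), so there are at most `2B/Q + 1` of them (injection
`m ↦ (m + B) / Q` into `Finset.range (2B/Q+1)`), total `≤ ((2B+Q)/Q)^n`. So the number of bad vectors in the box is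
at most `(1-δ)^k (2B+Q)^n` and the ratio is at most `(1-δ)^k ((2B+Q)/(2B+1))^n → (1-δ)^k < ε`.
(`Nat.card`/`Set.ncard` bound of a set by the fibres of a map into a finite set:
`Finset.card_le_mul_card_image` / `Finset.card_eq_sum_card_fiberwise`.)
-/

set_option autoImplicit false

namespace Pool.Agent.Helper59.DML

open Filter Topology

/-- the count in a box for a finite set `T` of primes. -/
theorem count_le {ι : Type*} [Fintype ι] (T : Finset ℕ) (hprime : ∀ p ∈ T, p.Prime)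
    (R : ∀ p : ℕ, Set (ι → ZMod p)) {Bad : Set (ι → ℤ)}
    (hBad : ∀ c ∈ Bad, ∀ p ∈ T, (fun i => ((c i : ℤ) : ZMod p)) ∉ R p) (B : ℕ) :
    {c : ι → ℤ | c ∈ Bad ∧ ∀ i, |c i| ≤ (B : ℤ)}.ncard ≤
      (∏ p ∈ T, (R p)ᶜ.ncard) * (2 * B / (∏ p ∈ T, p) + 1) ^ (Fintype.card ι) := by
  classical
  set Q : ℕ := ∏ p ∈ T, p with hQ
  have hQpos : 0 < Q := Finset.prod_pos fun p hp => (hprime p hp).pos
  let S : Set (ι → ℤ) := {c : ι → ℤ | c ∈ Bad ∧ ∀ i, |c i| ≤ (B : ℤ)}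
  have : ∀ p : T, NeZero (p : ℕ) := fun p => ⟨(hprime p.1 p.2).ne_zero⟩
  let f : S → (∀ p : T, ((R p)ᶜ : Set (ι → ZMod p))) × (ι → Fin (2 * B / Q + 1)) := fun c =>
    (fun p => ⟨fun i => ((c.1 i : ℤ) : ZMod p), hBad c.1 c.2.1 p.1 p.2⟩,
     fun i => ⟨(c.1 i + B).toNat / Q, by
      have h := abs_le.mp (c.2.2 i)
      refine Nat.lt_succ_of_le (Nat.div_le_div_right ?_)
      omega⟩)
  have hf : Function.Injective f := by
    intro c d hcd
    apply Subtype.ext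
    funext i
    have h1 : ∀ p : T, ((c.1 i : ℤ) : ZMod p) = ((d.1 i : ℤ) : ZMod p) := by
      intro p
      have := congrArg (fun z => (z.1 p).1 i) hcd
      exact this
    have h2 : (c.1 i + B).toNat / Q = (d.1 i + B).toNat / Q := by
      have := congrArg (fun z => ((z.2 i : Fin _) : ℕ)) hcd
      exact this
    have h3 : (Q : ℤ) ∣ c.1 i - d.1 i := by
      rw [hQ]
      push_cast
      refine Finset.prod_dvd_of_coprime ?_ ?_
      · intro p hp q hq hpq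
        exact Nat.isCoprime_iff_coprime.mpr
          ((Nat.coprime_primes (hprime p hp) (hprime q hq)).mpr hpq)
      · intro p hp
        have := h1 ⟨p, hp⟩
        rw [ZMod.intCast_eq_intCast_iff] at this
        exact this.symm.dvd
    have hc := abs_le.mp (c.2.2 i)
    have hd := abs_le.mp (d.2.2 i)
    obtain ⟨a, ha⟩ : ∃ a : ℕ, (a : ℤ) = c.1 i + B := ⟨(c.1 i + B).toNat, by omega⟩
    obtain ⟨b, hb⟩ : ∃ b : ℕ, (b : ℤ) = d.1 i + B := ⟨(d.1 i + B).toNat, by omega⟩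
    rw [← ha, ← hb] at h2
    simp only [Int.toNat_natCast] at h2
    have h4 : (a : ℤ) ≡ b [ZMOD Q] := by
      apply Int.ModEq.symm
      rw [Int.modEq_iff_dvd, ha, hb]
      have : c.1 i + (B : ℤ) - (d.1 i + B) = c.1 i - d.1 i := by ring
      rw [this]
      exact h3
    have h5 : a ≡ b [MOD Q] := by exact_mod_cast h4
    have h6 : a = b := by
      rw [← Nat.div_add_mod a Q, ← Nat.div_add_mod b Q, h2, h5]
    have : c.1 i + (B : ℤ) = d.1 i + B := by rw [← ha, ← hb, h6]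
    linarith
  have hcard := Nat.card_le_card_of_injective f hf
  rw [Nat.card_prod, Nat.card_pi, Nat.card_pi] at hcard
  have e1 : ∏ p : T, Nat.card ((R p)ᶜ : Set (ι → ZMod p)) = ∏ p ∈ T, (R p)ᶜ.ncard := by
    rw [← Finset.prod_coe_sort T (fun p => (R p)ᶜ.ncard)]
    rfl
  rw [e1] at hcard
  simpa using hcard

theorem density_zero {ι : Type*} [Fintype ι] {PP : Set ℕ} (hPP : PP.Infinite)
    (hprime : ∀ p ∈ PP, p.Prime) (R : ∀ p : ℕ, Set (ι → ZMod p)) {δ : ℝ} (hδ : 0 < δ)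
    (hR : ∀ p ∈ PP, δ * (p : ℝ) ^ (Fintype.card ι) ≤ ((R p).ncard : ℝ)) {Bad : Set (ι → ℤ)}
    (hBad : ∀ c ∈ Bad, ∀ p ∈ PP, (fun i => ((c i : ℤ) : ZMod p)) ∉ R p) :
    Tendsto (fun B : ℕ => (({c : ι → ℤ | c ∈ Bad ∧ ∀ i, |c i| ≤ (B : ℤ)}.ncard : ℕ) : ℝ) /
      (2 * (B : ℝ) + 1) ^ (Fintype.card ι)) atTop (𝓝 0) := by
  classical
  set n := Fintype.card ι with hn
  have hcompl : ∀ p ∈ PP, (((R p)ᶜ.ncard : ℕ) : ℝ) ≤ (1 - δ) * (p : ℝ) ^ n := by
    intro p hp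
    have : NeZero p := ⟨(hprime p hp).ne_zero⟩
    have h1 : (R p).ncard + (R p)ᶜ.ncard = p ^ n := by
      rw [Set.ncard_add_ncard_compl, Nat.card_pi]
      simp [hn]
    have h2 : ((R p).ncard : ℝ) + ((R p)ᶜ.ncard : ℝ) = (p : ℝ) ^ n := by exact_mod_cast h1
    have h3 := hR p hp
    linarith
  obtain ⟨p₀, hp₀⟩ := hPP.nonempty
  have hδ1 : 0 ≤ 1 - δ := by
    have h1 := hcompl p₀ hp₀
    have h2 : (0 : ℝ) < (p₀ : ℝ) ^ n := pow_pos (by exact_mod_cast (hprime p₀ hp₀).pos) _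
    by_contra hneg
    push Not at hneg
    have h3 : (1 - δ) * (p₀ : ℝ) ^ n < 0 := mul_neg_of_neg_of_pos hneg h2
    have h4 : (0 : ℝ) ≤ (((R p₀)ᶜ.ncard : ℕ) : ℝ) := Nat.cast_nonneg _
    linarith
  have hnonneg : ∀ B : ℕ, 0 ≤ (({c : ι → ℤ | c ∈ Bad ∧ ∀ i, |c i| ≤ (B : ℤ)}.ncard : ℕ) : ℝ) /
      (2 * (B : ℝ) + 1) ^ n := fun B => by positivity
  rw [tendsto_order]
  refine ⟨fun a ha => Eventually.of_forall fun B => lt_of_lt_of_le ha (hnonneg B), fun ε hε => ?_⟩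
  obtain ⟨k, hk⟩ := exists_pow_lt_of_lt_one hε (show 1 - δ < 1 by linarith)
  obtain ⟨T, hT, hTk⟩ := hPP.exists_subset_card_eq k
  set Q : ℕ := ∏ p ∈ T, p with hQ
  have hTp : ∀ p ∈ T, p.Prime := fun p hp => hprime p (hT hp)
  have hQpos : 0 < Q := Finset.prod_pos fun p hp => (hTp p hp).pos
  have hQR : (0 : ℝ) < Q := by exact_mod_cast hQpos
  have hlim : Tendsto (fun B : ℕ => (1 - δ) ^ k * ((2 * (B : ℝ) + Q) / (2 * (B : ℝ) + 1)) ^ n)
      atTop (𝓝 ((1 - δ) ^ k * 1 ^ n)) := by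
    refine Tendsto.const_mul _ (Tendsto.pow ?_ n)
    have h1 : ∀ B : ℕ, (2 * (B : ℝ) + Q) / (2 * (B : ℝ) + 1) =
        1 + (Q - 1) * (2 * (B : ℝ) + 1)⁻¹ := by
      intro B
      have : (2 * (B : ℝ) + 1) ≠ 0 := by positivity
      field_simp
      ring
    simp_rw [h1]
    have h2 : Tendsto (fun B : ℕ => (2 * (B : ℝ) + 1)⁻¹) atTop (𝓝 0) := by
      apply Tendsto.inv_tendsto_atTop
      exact tendsto_atTop_add_const_right _ _
        (tendsto_natCast_atTop_atTop.const_mul_atTop (by norm_num))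
    simpa using (h2.const_mul ((Q : ℝ) - 1)).const_add 1
  rw [one_pow, mul_one] at hlim
  filter_upwards [(tendsto_order.mp hlim).2 ε hk] with B hB
  refine lt_of_le_of_lt ?_ hB
  have hcount := count_le T hTp R (fun c hc p hp => hBad c hc p (hT hp)) B
  have hprod : ((∏ p ∈ T, (R p)ᶜ.ncard : ℕ) : ℝ) ≤ (1 - δ) ^ k * (Q : ℝ) ^ n := by
    push_cast
    calc ∏ p ∈ T, (((R p)ᶜ.ncard : ℕ) : ℝ) ≤ ∏ p ∈ T, ((1 - δ) * (p : ℝ) ^ n) :=
          Finset.prod_le_prod (fun p _ => Nat.cast_nonneg _) fun p hp => hcompl p (hT hp)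
      _ = (1 - δ) ^ k * (Q : ℝ) ^ n := by
          rw [Finset.prod_mul_distrib, Finset.prod_const, hTk, Finset.prod_pow, hQ]
          push_cast
          rfl
  have hfloor : (((2 * B / Q + 1 : ℕ)) : ℝ) * Q ≤ 2 * (B : ℝ) + Q := by
    have h1 : (2 * B / Q) * Q ≤ 2 * B := Nat.div_mul_le_self _ _
    have h2 : (((2 * B / Q : ℕ)) : ℝ) * Q ≤ 2 * (B : ℝ) := by exact_mod_cast h1
    push_cast
    nlinarith
  have hreal : (({c : ι → ℤ | c ∈ Bad ∧ ∀ i, |c i| ≤ (B : ℤ)}.ncard : ℕ) : ℝ) ≤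
      (1 - δ) ^ k * (2 * (B : ℝ) + Q) ^ n := by
    calc (({c : ι → ℤ | c ∈ Bad ∧ ∀ i, |c i| ≤ (B : ℤ)}.ncard : ℕ) : ℝ)
        ≤ (((∏ p ∈ T, (R p)ᶜ.ncard) * (2 * B / Q + 1) ^ n : ℕ) : ℝ) := by
          exact_mod_cast hcount
      _ = ((∏ p ∈ T, (R p)ᶜ.ncard : ℕ) : ℝ) * (((2 * B / Q + 1 : ℕ)) : ℝ) ^ n := by
          push_cast; ring
      _ ≤ ((1 - δ) ^ k * (Q : ℝ) ^ n) * (((2 * B / Q + 1 : ℕ)) : ℝ) ^ n :=
          mul_le_mul_of_nonneg_right hprod (by positivity)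
      _ = (1 - δ) ^ k * ((((2 * B / Q + 1 : ℕ)) : ℝ) * Q) ^ n := by
          rw [mul_pow]; ring
      _ ≤ (1 - δ) ^ k * (2 * (B : ℝ) + Q) ^ n :=
          mul_le_mul_of_nonneg_left (pow_le_pow_left₀ (by positivity) hfloor n)
            (pow_nonneg hδ1 k)
  rw [div_pow, ← mul_div_assoc]
  exact div_le_div_of_nonneg_right hreal (by positivity)

end Pool.Agent.Helper59.DML
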