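import Pool.Agent.Helper59.DML.Core

/-!
# DML: transfer from a field `E ⊇ L` to a local field containing `L`
-/

set_option autoImplicit false
set_option linter.unusedSectionVars false

namespace Pool.Agent.Helper59.DML

open Finset Function Filter Topology

/-- For every `i` all monomials of `H` have the same total degree in the two variables `(i, 0)`
and `(i, 1)`, i.e. `H` is homogeneous in each pair of variables. -/
def MultiHom {R : Type*} [CommSemiring R] {ι : Type*} (H : MvPolynomial (ι × Fin 2) R) : Prop :=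
  ∀ i : ι, ∃ e : ℕ, ∀ m ∈ H.support, m (i, 0) + m (i, 1) = e

theorem MultiHom.mhom {R : Type*} [CommRing R] {ι : Type*} [Fintype ι]
    {H : MvPolynomial (ι × Fin 2) R} (hH : MultiHom H) : MHom H := by
  choose e he using hH
  refine ⟨e, fun l u => ?_⟩
  rw [MvPolynomial.eval_eq', MvPolynomial.eval_eq', Finset.mul_sum]
  refine Finset.sum_congr rfl fun m hm => ?_
  have h1 : ∏ x : ι × Fin 2, (l x.1 * u x.1 x.2) ^ m x =
      (∏ i, l i ^ e i) * ∏ x : ι × Fin 2, u x.1 x.2 ^ m x := by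
    simp only [mul_pow, Finset.prod_mul_distrib]
    congr 1
    rw [Fintype.prod_prod_type]
    refine Finset.prod_congr rfl fun i _ => ?_
    rw [Fin.prod_univ_two, ← he i m hm, pow_add]
  rw [h1]; ring

theorem MultiHom.of_support {R S : Type*} [CommSemiring R] [CommSemiring S] {ι : Type*}
    {H : MvPolynomial (ι × Fin 2) R} {G : MvPolynomial (ι × Fin 2) S} (hH : MultiHom H)
    (hs : G.support ⊆ H.support) : MultiHom G := fun i => by
  obtain ⟨e, he⟩ := hH i
  exact ⟨e, fun m hm => he m (hs hm)⟩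

section coords

variable {L E : Type*} [Field L] [Field E] [Algebra L E] {σ κ : Type*}

/-- the coordinates of a polynomial with respect to a basis of the field of coefficients. -/
noncomputable def coord (b : Module.Basis κ L E) (H : MvPolynomial σ E) (k : κ) : MvPolynomial σ L :=
  ∑ m ∈ H.support, MvPolynomial.monomial m (b.repr (H.coeff m) k)

theorem coeff_coord (b : Module.Basis κ L E) (H : MvPolynomial σ E) (k : κ) (m : σ →₀ ℕ) :
    (coord b H k).coeff m = b.repr (H.coeff m) k := by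
  classical
  rw [coord, MvPolynomial.coeff_sum]
  simp only [MvPolynomial.coeff_monomial]
  rw [Finset.sum_ite_eq']
  split_ifs with h
  · rfl
  · rw [MvPolynomial.notMem_support_iff.1 h]; simp

theorem support_coord (b : Module.Basis κ L E) (H : MvPolynomial σ E) (k : κ) :
    (coord b H k).support ⊆ H.support := by
  intro m hm
  rw [MvPolynomial.mem_support_iff, coeff_coord] at hm
  rw [MvPolynomial.mem_support_iff]
  intro h; rw [h] at hm; simp at hm

theorem repr_eval (b : Module.Basis κ L E) (H : MvPolynomial σ E) (k : κ) (u : σ → L) :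
    b.repr (MvPolynomial.eval (fun x => algebraMap L E (u x)) H) k =
      MvPolynomial.eval u (coord b H k) := by
  rw [MvPolynomial.eval_eq, coord, map_sum, map_sum, Finsupp.finsetSum_apply]
  refine Finset.sum_congr rfl fun m _ => ?_
  rw [MvPolynomial.eval_monomial]
  have h1 : H.coeff m * ∏ i ∈ m.support, algebraMap L E (u i) ^ m i =
      (m.prod fun n e => u n ^ e) • H.coeff m := by
    rw [Algebra.smul_def, Finsupp.prod, map_prod, mul_comm]
    simp only [map_pow]
  rw [h1, map_smul, Finsupp.smul_apply, smul_eq_mul, mul_comm]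

theorem eval_eq_zero_iff (b : Module.Basis κ L E) (H : MvPolynomial σ E) :
    ∃ T : Finset κ, ∀ u : σ → L, MvPolynomial.eval (fun x => algebraMap L E (u x)) H = 0 ↔
      ∀ k ∈ T, MvPolynomial.eval u (coord b H k) = 0 := by
  classical
  refine ⟨H.support.biUnion fun m => (b.repr (H.coeff m)).support, fun u => ?_⟩
  constructor
  · intro h k _
    rw [← repr_eval, h]; simp
  · intro h
    apply b.repr.injective
    rw [map_zero]
    ext k
    rw [repr_eval, Finsupp.zero_apply]
    by_cases hk : k ∈ H.support.biUnion fun m => (b.repr (H.coeff m)).support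
    · exact h k hk
    · have h0 : coord b H k = 0 := by
        rw [coord]
        refine Finset.sum_eq_zero fun m hm => ?_
        have : (b.repr (H.coeff m)) k = 0 := by
          by_contra hne
          exact hk (Finset.mem_biUnion.2 ⟨m, hm, Finsupp.mem_support_iff.2 hne⟩)
        rw [this, map_zero]
      rw [h0, map_zero]

end coords

/-- transfer: it is enough to have the result for a field `K` containing `L`. -/
theorem transfer {L E K : Type*} [Field L] [Field E] [Algebra L E] [Field K] (f : L →+* K)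
    {ι : Type*} [Fintype ι] {d : ι → ℕ} (c : (i : ι) → Fin 2 → Fin (d i + 1) → L)
    (v : ι → Fin 2 → L) (Hs : Finset (MvPolynomial (ι × Fin 2) E)) (hH : ∀ H ∈ Hs, MultiHom H)
    (hcore : ∀ H : MvPolynomial (ι × Fin 2) K, MHom H → EP (fun n => MvPolynomial.eval
      (fun x => (hlift (fun k j => f (c x.1 k j)))^[n] (fun k => f (v x.1 k)) x.2) H = 0)) :
    EP (fun n => ∀ H ∈ Hs, MvPolynomial.eval
      (fun x => algebraMap L E ((hlift (c x.1))^[n] (v x.1) x.2)) H = 0) := by
  refine EP.forall_mem Hs fun H hHs => ?_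
  have b := Module.Basis.ofVectorSpace L E
  obtain ⟨T, hT⟩ := eval_eq_zero_iff b H
  have h1 : EP (fun n => ∀ k ∈ T, MvPolynomial.eval (fun x : ι × Fin 2 =>
      (hlift (c x.1))^[n] (v x.1) x.2) (coord b H k) = 0) := by
    refine EP.forall_mem T fun k _ => ?_
    have h2 : MultiHom (MvPolynomial.map f (coord b H k)) :=
      ((hH H hHs).of_support (support_coord b H k)).of_support (MvPolynomial.support_map_subset _ _)
    refine (hcore _ h2.mhom).congr fun n => ?_
    have h3 : MvPolynomial.eval (fun x : ι × Fin 2 => (hlift (fun k j => f (c x.1 k j)))^[n]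
        (fun k => f (v x.1 k)) x.2) (MvPolynomial.map f (coord b H k)) =
        f (MvPolynomial.eval (fun x : ι × Fin 2 => (hlift (c x.1))^[n] (v x.1) x.2) (coord b H k)) := by
      rw [MvPolynomial.eval_map, MvPolynomial.eval₂_comp]
      have h4 : ∀ x : ι × Fin 2, (hlift (fun k j => f (c x.1 k j)))^[n] (fun k => f (v x.1 k)) x.2 =
          f ((hlift (c x.1))^[n] (v x.1) x.2) := fun x =>
        (congrFun (map_hlift_iter f (c x.1) (v x.1) n) x.2).symm
      simp only [h4]
      rfl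
    rw [h3, map_eq_zero]
  exact h1.congr fun n => (hT _).symm

section local_field

variable {K : Type*} [NontriviallyNormedField K] [IsUltrametricDist K]

theorem norm_det2_le {a b : Fin 2 → K} : ‖det2 a b‖ ≤ ‖a‖ * ‖b‖ := by
  rw [det2, sub_eq_add_neg]
  refine (IsUltrametricDist.norm_add_le_max _ _).trans (max_le ?_ ?_)
  · rw [norm_mul]
    exact mul_le_mul (norm_le_pi_norm a 0) (norm_le_pi_norm b 1) (norm_nonneg _) (norm_nonneg _)
  · rw [norm_neg, norm_mul]
    exact mul_le_mul (norm_le_pi_norm a 1) (norm_le_pi_norm b 0) (norm_nonneg _) (norm_nonneg _)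

theorem norm_eq_one_cases {u : Fin 2 → K} (hu : ‖u‖ = 1) : ‖u 0‖ = 1 ∨ ‖u 1‖ = 1 := by
  by_contra hcon
  push Not at hcon
  have h3 : ∀ k, ‖u k‖ < 1 := by
    intro k
    fin_cases k
    · exact lt_of_le_of_ne ((norm_le_pi_norm u 0).trans hu.le) hcon.1
    · exact lt_of_le_of_ne ((norm_le_pi_norm u 1).trans hu.le) hcon.2
  have := (pi_norm_lt_iff one_pos).2 h3
  linarith

theorem exists_compl {u : Fin 2 → K} (hu : ‖u‖ = 1) : ∃ w : Fin 2 → K, ‖w‖ ≤ 1 ∧ det2 u w = 1 := by
  rcases norm_eq_one_cases hu with h2 | h2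
  · have hne : u 0 ≠ 0 := by intro h; rw [h] at h2; simp at h2
    refine ⟨![0, (u 0)⁻¹], (pi_norm_le_iff_of_nonneg zero_le_one).2 fun k => ?_, ?_⟩
    · fin_cases k <;> simp [h2]
    · simp [det2, hne]
  · have hne : u 1 ≠ 0 := by intro h; rw [h] at h2; simp at h2
    refine ⟨![-(u 1)⁻¹, 0], (pi_norm_le_iff_of_nonneg zero_le_one).2 fun k => ?_, ?_⟩
    · fin_cases k <;> simp [h2]
    · simp [det2, hne]

theorem norm_form_le {d : ℕ} {a : Fin (d + 1) → K} (ha : ∀ j, ‖a j‖ ≤ 1) {u : Fin 2 → K}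
    (hu : ‖u‖ ≤ 1) : ‖form a u‖ ≤ 1 := by
  have hk : ∀ k, ‖u k‖ ≤ 1 := fun k => (norm_le_pi_norm u k).trans hu
  refine IsUltrametricDist.norm_sum_le_of_forall_le_of_nonneg zero_le_one fun j _ => ?_
  exact norm_mul_le_one (norm_mul_le_one (ha j) (norm_pow_le_one' (hk 0) _)) (norm_pow_le_one' (hk 1) _)

theorem norm_dform_le {d : ℕ} {a : Fin (d + 1) → K} (ha : ∀ j, ‖a j‖ ≤ 1) {u w : Fin 2 → K}
    (hu : ‖u‖ ≤ 1) (hw : ‖w‖ ≤ 1) : ‖dform a u w‖ ≤ 1 := by
  have hk : ∀ k, ‖u k‖ ≤ 1 := fun k => (norm_le_pi_norm u k).trans hu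
  have hl : ∀ k, ‖w k‖ ≤ 1 := fun k => (norm_le_pi_norm w k).trans hw
  refine IsUltrametricDist.norm_sum_le_of_forall_le_of_nonneg zero_le_one fun j _ => ?_
  refine norm_mul_le_one (ha j) (norm_add_le_one ?_ ?_)
  · exact norm_mul_le_one (norm_mul_le_one (norm_mul_le_one (norm_natCast_le_one' _)
      (norm_pow_le_one' (hk 0) _)) (hl 0)) (norm_pow_le_one' (hk 1) _)
  · exact norm_mul_le_one (norm_pow_le_one' (hk 0) _) (norm_mul_le_one (norm_mul_le_one
      (norm_natCast_le_one' _) (norm_pow_le_one' (hk 1) _)) (hl 1))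

theorem norm_jac_le {d : ℕ} {c : Fin 2 → Fin (d + 1) → K} (hc : ∀ k j, ‖c k j‖ ≤ 1)
    {u : Fin 2 → K} (hu : ‖u‖ = 1) : ‖jac c u‖ ≤ ‖hlift c u‖ := by
  obtain ⟨w, hw, hw2⟩ := exists_compl hu
  have h1 := det_dlift c u w
  rw [hw2, one_mul] at h1
  rw [← h1]
  refine norm_det2_le.trans (mul_le_of_le_one_right (norm_nonneg _) ?_)
  exact (pi_norm_le_iff_of_nonneg zero_le_one).2 fun k => norm_dform_le (hc k) hu.le hw

theorem norm_hlift_eq_one {d : ℕ} {c : Fin 2 → Fin (d + 1) → K} (hc : ∀ k j, ‖c k j‖ ≤ 1)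
    {u : Fin 2 → K} (hu : ‖u‖ = 1) (hj : ‖jac c u‖ = 1) : ‖hlift c u‖ = 1 := by
  refine le_antisymm ((pi_norm_le_iff_of_nonneg zero_le_one).2 fun k => norm_form_le (hc k) hu.le) ?_
  rw [← hj]; exact norm_jac_le hc hu

theorem exists_primitive {v : Fin 2 → K} (hv : v ≠ 0) :
    ∃ (l : K) (u : Fin 2 → K), l ≠ 0 ∧ ‖u‖ = 1 ∧ v = fun k => l * u k := by
  obtain ⟨k, hk, hk2⟩ : ∃ k, v k ≠ 0 ∧ ‖v‖ = ‖v k‖ := by
    rcases le_total ‖v 0‖ ‖v 1‖ with h | h
    · have h1 : ‖v‖ = ‖v 1‖ := by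
        refine le_antisymm ((pi_norm_le_iff_of_nonneg (norm_nonneg _)).2 fun k => ?_) (norm_le_pi_norm v 1)
        fin_cases k
        · exact h
        · exact le_rfl
      refine ⟨1, ?_, h1⟩
      intro h0; rw [h0, norm_zero] at h1; exact hv (norm_eq_zero.1 h1)
    · have h1 : ‖v‖ = ‖v 0‖ := by
        refine le_antisymm ((pi_norm_le_iff_of_nonneg (norm_nonneg _)).2 fun k => ?_) (norm_le_pi_norm v 0)
        fin_cases k
        · exact le_rfl
        · exact h
      refine ⟨0, ?_, h1⟩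
      intro h0; rw [h0, norm_zero] at h1; exact hv (norm_eq_zero.1 h1)
  refine ⟨v k, fun j => (v k)⁻¹ * v j, hk, ?_, ?_⟩
  · have : (fun j => (v k)⁻¹ * v j) = (v k)⁻¹ • v := rfl
    rw [this, norm_smul, norm_inv, hk2, inv_mul_cancel₀ (norm_ne_zero_iff.2 hk)]
  · funext j; field_simp

/-- the core theorem for arbitrary nonzero starting vectors. -/
theorem core' [ProperSpace K] [CharZero K] {p : ℕ} (hp : p.Prime) (hp1 : ‖(p : K)‖ < 1)
    {ι : Type*} [Fintype ι] {d : ι → ℕ} {c : (i : ι) → Fin 2 → Fin (d i + 1) → K}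
    (hc : ∀ i k j, ‖c i k j‖ ≤ 1) (hred : ∀ i u, ‖u‖ = 1 → ‖hlift (c i) u‖ = 1)
    (hu : ∀ i u, ‖u‖ = 1 → ∃ n₀, ∀ n, n₀ ≤ n → ‖jac (c i) ((hlift (c i))^[n] u)‖ = 1)
    {v : ι → Fin 2 → K} (hv : ∀ i, v i ≠ 0) {H : MvPolynomial (ι × Fin 2) K} (hH : MHom H) :
    EP (fun n => MvPolynomial.eval (fun x => (hlift (c x.1))^[n] (v x.1) x.2) H = 0) := by
  choose l u hl hu1 hvu using fun i => exists_primitive (hv i)
  choose n₀ hn₀ using fun i => hu i (u i) (hu1 i)
  have hiter : ∀ i n, ‖(hlift (c i))^[n] (u i)‖ = 1 := by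
    intro i n
    induction n with
    | zero => exact hu1 i
    | succ n ih => rw [iterate_succ_apply']; exact hred i _ ih
  have h1 := core hp hp1 hc hiter (n₀ := Finset.univ.sup n₀)
    (fun i n hn => hn₀ i n ((Finset.le_sup (Finset.mem_univ i)).trans hn)) hH
  refine h1.congr fun n => ?_
  obtain ⟨e, he⟩ := hH
  have e1 : ∀ x : ι × Fin 2, (hlift (c x.1))^[n] (v x.1) x.2 =
      l x.1 ^ (d x.1 ^ n) * (hlift (c x.1))^[n] (u x.1) x.2 := by
    intro x
    rw [hvu, hlift_iter_smul]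
  simp only [e1]
  rw [he (fun i => l i ^ (d i ^ n)) (fun i => (hlift (c i))^[n] (u i)), mul_eq_zero]
  have n1 : (∏ i, (l i ^ (d i ^ n)) ^ e i) ≠ 0 :=
    Finset.prod_ne_zero_iff.2 fun i _ => pow_ne_zero _ (pow_ne_zero _ (hl i))
  simp only [n1, false_or]

end local_field

end Pool.Agent.Helper59.DML
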